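import Pool.Agent.CGS.Stmts
import Pool.Agent.CGM.ALG

/-!
# Module ALX of the project CGS (MP_3bdb72_co)

Comparison of the pairs and of their mean field version, parameters depending on the vertex.
-/

set_option autoImplicit false
set_option linter.unusedSectionVars false

open Finset Pool.Agent.CGM
open scoped Classical

namespace Pool.Agent.CGS

open Pool.Agent.CGM.ALG_

theorem alx_proof : Stmt_ALX := by
  intro Ω J _ _ s μ x w a P B v l uu f hμ hμ1 hxw hwB ha ha1 hv hP hPs hcov hquad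
  have hE0 : ∀ j, 0 ≤ EX s μ x j := EX_nonneg s μ x hμ
  have hMNs : ∀ i j, MN s μ x i j = MN s μ x j i := by
    intro i j
    rw [MN_eq s μ x w B hxw hwB, MN_eq s μ x w B hxw hwB]
    exact Finset.sum_congr rfl (fun θ _ => mul_comm _ _)
  have hEM : ∀ i j, i ≠ j → EX s μ x i + EX s μ x j - MN s μ x i j -
      P i j * (Real.sqrt (EX s μ x i) * Real.sqrt (EX s μ x j)) ≤ EM s μ x i j := by
    intro i j hij
    have h1 := hcov i j hij
    have h2 := hcov j i (Ne.symm hij)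
    rw [MX_eq s μ x hμ1] at h1 h2
    have e1 : ∑ ω ∈ s, μ ω * ((max (x ω i) (x ω j) : ℕ) : ℝ) = EM s μ x i j := rfl
    have e2 : ∑ ω ∈ s, μ ω * ((max (x ω j) (x ω i) : ℕ) : ℝ) = EM s μ x i j := by
      rw [EM_comm]; rfl
    have e3 : ∑ ω ∈ s, μ ω * (x ω j : ℝ) = EX s μ x j := rfl
    have e4 : ∑ ω ∈ s, μ ω * (x ω i : ℝ) = EX s μ x i := rfl
    rw [e1, e3] at h1
    rw [e2, e4, hMNs j i, hPs j i] at h2
    have h3 : P i j * min (EX s μ x i) (EX s μ x j) ≤
        P i j * (Real.sqrt (EX s μ x i) * Real.sqrt (EX s μ x j)) :=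
      mul_le_mul_of_nonneg_left (min_le_sqrt _ _ _ (min_le_left _ _)
        (min_le_right _ _)) (hP i j)
    rcases le_total (EX s μ x i) (EX s μ x j) with h | h
    · rw [min_eq_left h] at h3
      linarith
    · rw [min_eq_right h] at h3
      linarith
  have hq := hquad (fun j => a j * Real.sqrt (EX s μ x j))
    (fun j => mul_nonneg (ha j) (Real.sqrt_nonneg _))
  have hq2 : ∑ j, f j * (a j * Real.sqrt (EX s μ x j)) ^ 2 =
      ∑ j, f j * (a j ^ 2 * EX s μ x j) := by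
    refine Finset.sum_congr rfl (fun j _ => ?_)
    rw [mul_pow, Real.sq_sqrt (hE0 j)]
  rw [hq2] at hq
  -- completing the square in the diagonal terms
  have hdiag : ∀ j, -(v / 2 * l ^ 2 * (w j : ℝ)) ≤
      v / 2 * MN s μ x j j - v * l * EX s μ x j := by
    intro j
    have h1 : v / 2 * MN s μ x j j - v * l * EX s μ x j + v / 2 * l ^ 2 * (w j : ℝ) =
        ∑ θ ∈ range (w j), v / 2 * (Q s μ x j θ - l) ^ 2 := by
      have h2 : (v / 2 * l ^ 2 * (w j : ℝ)) = ∑ θ ∈ range (w j), v / 2 * l ^ 2 := by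
        rw [Finset.sum_const, card_range, nsmul_eq_mul]
        ring
      rw [h2, EX_eq s μ x w hxw, MN_diag s μ x w B hxw hwB, Finset.mul_sum, Finset.mul_sum,
        ← Finset.sum_sub_distrib, ← Finset.sum_add_distrib]
      exact Finset.sum_congr rfl (fun θ _ => by ring)
    have h3 : 0 ≤ ∑ θ ∈ range (w j), v / 2 * (Q s μ x j θ - l) ^ 2 :=
      Finset.sum_nonneg (fun θ _ => mul_nonneg (by linarith) (sq_nonneg _))
    linarith
  have hdiag2 : -(v / 2 * l ^ 2 * ∑ j, a j ^ 2 * (w j : ℝ)) ≤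
      v / 2 * (∑ j, a j ^ 2 * MN s μ x j j) - v * l * (∑ j, a j ^ 2 * EX s μ x j) := by
    have h1 : -(v / 2 * l ^ 2 * ∑ j, a j ^ 2 * (w j : ℝ)) =
        ∑ j, a j ^ 2 * (-(v / 2 * l ^ 2 * (w j : ℝ))) := by
      rw [Finset.mul_sum, ← Finset.sum_neg_distrib]
      exact Finset.sum_congr rfl (fun j _ => by ring)
    have h2 : v / 2 * (∑ j, a j ^ 2 * MN s μ x j j) - v * l * (∑ j, a j ^ 2 * EX s μ x j) =
        ∑ j, a j ^ 2 * (v / 2 * MN s μ x j j - v * l * EX s μ x j) := by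
      rw [Finset.mul_sum, Finset.mul_sum, ← Finset.sum_sub_distrib]
      exact Finset.sum_congr rfl (fun j _ => by ring)
    rw [h1, h2]
    exact Finset.sum_le_sum (fun j _ => mul_le_mul_of_nonneg_left (hdiag j) (sq_nonneg _))
  have hb : ∑ θ ∈ range B, (∑ j, a j * ∑ ω ∈ s, μ ω * (if θ < x ω j then (1 : ℝ) else 0)) ^ 2 =
      ∑ i, ∑ j, a i * a j * MN s μ x i j := by
    have h1 : ∀ θ, (∑ j, a j * ∑ ω ∈ s, μ ω * (if θ < x ω j then (1 : ℝ) else 0)) ^ 2 =
        ∑ i, ∑ j, a i * a j * (Q s μ x i θ * Q s μ x j θ) := by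
      intro θ
      rw [sq, Finset.sum_mul_sum]
      refine Finset.sum_congr rfl (fun i _ => Finset.sum_congr rfl (fun j _ => ?_))
      unfold Q
      ring
    rw [Finset.sum_congr rfl (fun θ _ => h1 θ), Finset.sum_comm]
    refine Finset.sum_congr rfl (fun i _ => ?_)
    rw [Finset.sum_comm]
    refine Finset.sum_congr rfl (fun j _ => ?_)
    rw [MN_eq s μ x w B hxw hwB, Finset.mul_sum]
  have hD : ∑ i, ∑ j, v * (a i * a j) * ∑ c : Fin (B + 1),
          (∑ ω ∈ s, μ ω * (if x ω i = (c : ℕ) then (1 : ℝ) else 0))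
            * ∑ ω ∈ s, μ ω * ((x ω j - (c : ℕ) : ℕ) : ℝ) =
      v * (∑ j, a j * EX s μ x j) - v * ∑ i, ∑ j, a i * a j * MN s μ x i j := by
    have h1 : ∀ i j, v * (a i * a j) * ∑ c : Fin (B + 1),
          (∑ ω ∈ s, μ ω * (if x ω i = (c : ℕ) then (1 : ℝ) else 0))
            * ∑ ω ∈ s, μ ω * ((x ω j - (c : ℕ) : ℕ) : ℝ) =
        v * (a i * (a j * EX s μ x j)) - v * (a i * a j * MN s μ x i j) := by
      intro i j
      rw [D_eq s μ x w B hμ1 hxw hwB]
      ring
    rw [Finset.sum_congr rfl (fun i _ => Finset.sum_congr rfl (fun j _ => h1 i j))]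
    simp_rw [Finset.sum_sub_distrib, ← Finset.mul_sum]
    rw [← Finset.sum_mul, ha1, one_mul]
  have hoff : ∑ i, ∑ j ∈ univ.erase i, a i * a j *
      (EX s μ x i + EX s μ x j - MN s μ x i j -
      P i j * (Real.sqrt (EX s μ x i) * Real.sqrt (EX s μ x j))) ≤
      ∑ i, ∑ j ∈ univ.erase i, a i * a j * ∑ ω ∈ s, μ ω * ((max (x ω i) (x ω j) : ℕ) : ℝ) := by
    refine Finset.sum_le_sum (fun i _ => Finset.sum_le_sum (fun j hj => ?_))
    exact mul_le_mul_of_nonneg_left (hEM i j (Ne.symm (Finset.ne_of_mem_erase hj)))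
      (mul_nonneg (ha i) (ha j))
  have herase : ∀ (g : J → J → ℝ), ∑ i, ∑ j ∈ univ.erase i, g i j =
      (∑ i, ∑ j, g i j) - ∑ i, g i i := by
    intro g
    rw [← Finset.sum_sub_distrib]
    refine Finset.sum_congr rfl (fun i _ => ?_)
    have := Finset.sum_erase_add (univ : Finset J) (fun j => g i j) (mem_univ i)
    linarith
  have hoff2 : ∑ i, ∑ j ∈ univ.erase i, a i * a j *
      (EX s μ x i + EX s μ x j - MN s μ x i j -
      P i j * (Real.sqrt (EX s μ x i) * Real.sqrt (EX s μ x j))) =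
      (2 * ∑ j, a j * EX s μ x j) - 2 * (∑ j, a j ^ 2 * EX s μ x j)
        - (∑ i, ∑ j, a i * a j * MN s μ x i j) + (∑ j, a j ^ 2 * MN s μ x j j)
        - ∑ i, ∑ j ∈ univ.erase i, (a i * Real.sqrt (EX s μ x i)) *
          (a j * Real.sqrt (EX s μ x j)) * P i j := by
    have h1 : ∀ i j, a i * a j *
        (EX s μ x i + EX s μ x j - MN s μ x i j -
        P i j * (Real.sqrt (EX s μ x i) * Real.sqrt (EX s μ x j))) =
        (a i * a j * (EX s μ x i + EX s μ x j) - a i * a j * MN s μ x i j) -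
          (a i * Real.sqrt (EX s μ x i)) *
          (a j * Real.sqrt (EX s μ x j)) * P i j := by
      intro i j
      ring
    rw [Finset.sum_congr rfl (fun i _ => Finset.sum_congr rfl (fun j _ => h1 i j))]
    simp_rw [Finset.sum_sub_distrib]
    rw [herase (fun i j => a i * a j * (EX s μ x i + EX s μ x j)),
      herase (fun i j => a i * a j * MN s μ x i j)]
    have h2 : ∑ i, ∑ j, a i * a j * (EX s μ x i + EX s μ x j) = 2 * ∑ j, a j * EX s μ x j := by
      have h3 : ∀ i j, a i * a j * (EX s μ x i + EX s μ x j) =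
          (a i * EX s μ x i) * a j + a i * (a j * EX s μ x j) := by
        intro i j; ring
      rw [Finset.sum_congr rfl (fun i _ => Finset.sum_congr rfl (fun j _ => h3 i j))]
      simp_rw [Finset.sum_add_distrib, ← Finset.mul_sum, ← Finset.sum_mul]
      rw [ha1]
      ring
    have h4 : ∑ i, a i * a i * (EX s μ x i + EX s μ x i) = 2 * ∑ j, a j ^ 2 * EX s μ x j := by
      rw [Finset.mul_sum]
      exact Finset.sum_congr rfl (fun i _ => by ring)
    have h5 : ∑ i, a i * a i * MN s μ x i i = ∑ j, a j ^ 2 * MN s μ x j j :=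
      Finset.sum_congr rfl (fun i _ => by ring)
    rw [h2, h4, h5]
    ring
  rw [hoff2] at hoff
  have hR : ∑ j, (uu j * a j + (v * (1 - l) + v / 2 * f j) * a j ^ 2) *
      (∑ ω ∈ s, μ ω * (x ω j : ℝ)) =
      (∑ j, uu j * a j * EX s μ x j) + v * (1 - l) * (∑ j, a j ^ 2 * EX s μ x j)
        + v / 2 * ∑ j, f j * (a j ^ 2 * EX s μ x j) := by
    rw [Finset.mul_sum, Finset.mul_sum, ← Finset.sum_add_distrib, ← Finset.sum_add_distrib]
    refine Finset.sum_congr rfl (fun j _ => ?_)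
    unfold EX
    ring
  have hR2 : ∑ j, uu j * a j * (∑ ω ∈ s, μ ω * (x ω j : ℝ)) = ∑ j, uu j * a j * EX s μ x j := rfl
  rw [hb, hR, hR2, hD]
  have hv2 : 0 ≤ v / 2 := by linarith
  have k1 := mul_le_mul_of_nonneg_left hoff hv2
  have k2 := mul_le_mul_of_nonneg_left hq hv2
  linarith [k1, k2, hdiag2]

end Pool.Agent.CGS
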