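import Pool.Agent.CGS.Stmts

/-!
# Project CGS (MP_3bdb72_co), module ASG: the assignment bound
-/

set_option autoImplicit false
set_option linter.unusedSectionVars false

open Finset Pool.Agent.CGM
open scoped Classical

namespace Pool.Agent.CGS

namespace ASG_

variable {Λ J : Type} [Fintype Λ] [DecidableEq Λ] [Fintype J] [DecidableEq J]

lemma elim_eq_sum (p : J → ℕ) (o : Option J) :
    o.elim 0 p = ∑ j, if o = some j then p j else 0 := by
  cases o with
  | none => simp
  | some j0 => simp

/-- the sum of the prices over a matching -/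
lemma sum_elim_le (p : J → ℕ) (m : Λ → Option J) (U : Finset J)
    (hU : ∀ e j, m e = some j → j ∈ U) (hm : ∀ e e' j, m e = some j → m e' = some j → e = e') :
    ∑ e, (m e).elim 0 p ≤ ∑ j ∈ U, p j := by
  have h1 : ∑ e, (m e).elim 0 p = ∑ j, ∑ e, if m e = some j then p j else 0 := by
    rw [Finset.sum_comm]
    exact Finset.sum_congr rfl fun e _ => elim_eq_sum p (m e)
  have h2 : ∑ j ∈ U, p j = ∑ j, if j ∈ U then p j else 0 := by
    rw [Finset.sum_ite_mem, Finset.univ_inter]
  rw [h1, h2]
  refine Finset.sum_le_sum fun j _ => ?_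
  by_cases hj : ∃ e, m e = some j
  · obtain ⟨e0, he0⟩ := hj
    rw [if_pos (hU e0 j he0), Finset.sum_eq_single e0]
    · rw [if_pos he0]
    · intro e _ hne
      rw [if_neg]
      intro he
      exact hne (hm e e0 j he he0)
    · intro h
      exact absurd (Finset.mem_univ e0) h
  · have h3 : ∑ e, (if m e = some j then p j else 0) = 0 := by
      apply Finset.sum_eq_zero
      intro e _
      rw [if_neg]
      intro he
      exact hj ⟨e, he⟩
    rw [h3]
    exact Nat.zero_le _

end ASG_

theorem asg_proof (hOPG : Stmt_OPG) : Stmt_ASG := by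
  intro Λ J _ _ _ _ y S0 L
  obtain ⟨m, hm, hv⟩ := exists_opt y (S0 ∪ L) univ
  rw [← hv]
  set p : J → ℕ := fun j => pr y S0 j with hp
  let m0 : Λ → Option J := fun e => if e ∈ S0 then m e else none
  let m1 : Λ → Option J := fun e => if e ∈ S0 then none else m e
  let U : Finset J := univ.filter (fun j => ∃ e, e ∉ S0 ∧ m e = some j)
  have hm0 : ∀ e j, m0 e = some j → e ∈ S0 ∧ m e = some j := by
    intro e j h
    simp only [m0] at h
    split_ifs at h with he
    exact ⟨he, h⟩
  have hm1 : ∀ e j, m1 e = some j → e ∉ S0 ∧ m e = some j := by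
    intro e j h
    simp only [m1] at h
    split_ifs at h with he
    exact ⟨he, h⟩
  -- the restriction to `S0`
  have h0 : val y m0 ≤ opt y S0 (univ \ U) := by
    apply val_le_opt
    refine ⟨fun e j h => ⟨(hm0 e j h).1, ?_⟩, fun e e' j h h' =>
      hm.2 e e' j (hm0 e j h).2 (hm0 e' j h').2⟩
    rw [Finset.mem_sdiff]
    refine ⟨Finset.mem_univ j, fun hj => ?_⟩
    obtain ⟨e', he', hje'⟩ := (Finset.mem_filter.1 hj).2
    have := hm.2 e e' j (hm0 e j h).2 hje'
    exact he' (this ▸ (hm0 e j h).1)
  have h1 : val (fun e j => y e j - p j) m1 ≤ opt (fun e j => y e j - p j) L univ := by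
    apply val_le_opt
    refine ⟨fun e j h => ⟨?_, Finset.mem_univ j⟩, fun e e' j h h' =>
      hm.2 e e' j (hm1 e j h).2 (hm1 e' j h').2⟩
    obtain ⟨he, hj⟩ := hm1 e j h
    rcases Finset.mem_union.1 (hm.1 e j hj).1 with h2 | h2
    · exact absurd h2 he
    · exact h2
  have h2 : val y m = val y m0 + val y m1 := by
    unfold CGM.val
    rw [← Finset.sum_add_distrib]
    refine Finset.sum_congr rfl fun e _ => ?_
    simp only [m0, m1]
    by_cases he : e ∈ S0
    · simp [he]
    · simp [he]
  have h3 : val y m1 ≤ val (fun e j => y e j - p j) m1 + ∑ e, (m1 e).elim 0 p := by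
    unfold CGM.val
    rw [← Finset.sum_add_distrib]
    refine Finset.sum_le_sum fun e _ => ?_
    cases m1 e with
    | none => simp
    | some j =>
      simp only [Option.elim_some]
      omega
  have h4 : ∑ e, (m1 e).elim 0 p ≤ ∑ j ∈ U, p j := by
    apply ASG_.sum_elim_le
    · intro e j h
      exact Finset.mem_filter.2 ⟨Finset.mem_univ j, e, hm1 e j h⟩
    · intro e e' j h h'
      exact hm.2 e e' j (hm1 e j h).2 (hm1 e' j h').2
  have h5 := hOPG Λ J y S0 U
  have h6 : ∑ j ∈ U, p j = ∑ j ∈ U, pr y S0 j := rfl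
  have h7 : opt (fun e j => y e j - pr y S0 j) L univ = opt (fun e j => y e j - p j) L univ := rfl
  rw [h2, h7]
  omega

end Pool.Agent.CGS
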