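import Pool.Agent.CGS.Stmts
import Pool.Agent.CGM.NTB

/-!
# CGS, module AVK: the average of the rates
-/

set_option autoImplicit false

open Finset Pool.Agent.CGM
open scoped Classical

namespace Pool.Agent.CGS

noncomputable section

namespace AVK_

theorem fz_le (z s : ℝ) (hz0 : 0 ≤ z) (hz : z < 1) (hs0 : 0 ≤ s) (hs : s ≤ 1) :
    z * s / (1 - z * s) ≤ z * s ^ 1 + z ^ 2 * s ^ 2 + z ^ 3 * s ^ 3 + z ^ 4 * s ^ 4
      + z ^ 5 * s ^ 5 + z ^ 6 * s ^ 6 + z ^ 7 * s ^ 7 + z ^ 8 * s ^ 8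
      + z ^ 9 / (1 - z) * s ^ 9 := by
  have hx0 : 0 ≤ z * s := mul_nonneg hz0 hs0
  have hxz : z * s ≤ z := by nlinarith
  have h1 : 0 < 1 - z := by linarith
  have h2 : 0 < 1 - z * s := by linarith
  have h3 : z * s / (1 - z * s) = z * s ^ 1 + z ^ 2 * s ^ 2 + z ^ 3 * s ^ 3 + z ^ 4 * s ^ 4
      + z ^ 5 * s ^ 5 + z ^ 6 * s ^ 6 + z ^ 7 * s ^ 7 + z ^ 8 * s ^ 8
      + (z * s) ^ 9 / (1 - z * s) := by
    field_simp
    ring
  have h4 : (z * s) ^ 9 / (1 - z * s) ≤ (z * s) ^ 9 / (1 - z) :=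
    div_le_div_of_nonneg_left (pow_nonneg hx0 9) h1 (by linarith)
  have h5 : (z * s) ^ 9 / (1 - z) = z ^ 9 / (1 - z) * s ^ 9 := by ring
  rw [h3, ← h5]
  linarith

theorem sum_fz_le (M : ℕ) (z : ℝ) (hM : 0 < M) (hz0 : 0 ≤ z) (hz : z < 1) :
    ∑ t ∈ range M, (z * (((M : ℝ) - t) / M) / (1 - z * (((M : ℝ) - t) / M))) ≤
      z * ((M : ℝ) / 2 + 1) + z ^ 2 * ((M : ℝ) / 3 + 1) + z ^ 3 * ((M : ℝ) / 4 + 1)
      + z ^ 4 * ((M : ℝ) / 5 + 1) + z ^ 5 * ((M : ℝ) / 6 + 1) + z ^ 6 * ((M : ℝ) / 7 + 1)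
      + z ^ 7 * ((M : ℝ) / 8 + 1) + z ^ 8 * ((M : ℝ) / 9 + 1)
      + z ^ 9 / (1 - z) * ((M : ℝ) / 10 + 1) := by
  have hM' : (0 : ℝ) < (M : ℝ) := by exact_mod_cast hM
  have h0 : ∀ t ∈ range M, z * (((M : ℝ) - t) / M) / (1 - z * (((M : ℝ) - t) / M)) ≤
      z * (((M : ℝ) - t) / M) ^ 1 + z ^ 2 * (((M : ℝ) - t) / M) ^ 2
      + z ^ 3 * (((M : ℝ) - t) / M) ^ 3 + z ^ 4 * (((M : ℝ) - t) / M) ^ 4
      + z ^ 5 * (((M : ℝ) - t) / M) ^ 5 + z ^ 6 * (((M : ℝ) - t) / M) ^ 6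
      + z ^ 7 * (((M : ℝ) - t) / M) ^ 7 + z ^ 8 * (((M : ℝ) - t) / M) ^ 8
      + z ^ 9 / (1 - z) * (((M : ℝ) - t) / M) ^ 9 := by
    intro t ht
    have ht' : (t : ℝ) ≤ M := by exact_mod_cast (mem_range.1 ht).le
    have ht0 : (0 : ℝ) ≤ t := Nat.cast_nonneg t
    apply fz_le z _ hz0 hz
    · exact div_nonneg (by linarith) hM'.le
    · rw [div_le_one hM']; linarith
  refine (sum_le_sum h0).trans ?_
  simp only [sum_add_distrib, ← mul_sum]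
  have a1 := NTB_.avg_pow_le 1 M hM
  have a2 := NTB_.avg_pow_le 2 M hM
  have a3 := NTB_.avg_pow_le 3 M hM
  have a4 := NTB_.avg_pow_le 4 M hM
  have a5 := NTB_.avg_pow_le 5 M hM
  have a6 := NTB_.avg_pow_le 6 M hM
  have a7 := NTB_.avg_pow_le 7 M hM
  have a8 := NTB_.avg_pow_le 8 M hM
  have a9 := NTB_.avg_pow_le 9 M hM
  have c9 : 0 ≤ z ^ 9 / (1 - z) := div_nonneg (pow_nonneg hz0 9) (by linarith)
  norm_num at a1 a2 a3 a4 a5 a6 a7 a8 a9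
  have b1 := mul_le_mul_of_nonneg_left a1 hz0
  have b2 := mul_le_mul_of_nonneg_left a2 (pow_nonneg hz0 2)
  have b3 := mul_le_mul_of_nonneg_left a3 (pow_nonneg hz0 3)
  have b4 := mul_le_mul_of_nonneg_left a4 (pow_nonneg hz0 4)
  have b5 := mul_le_mul_of_nonneg_left a5 (pow_nonneg hz0 5)
  have b6 := mul_le_mul_of_nonneg_left a6 (pow_nonneg hz0 6)
  have b7 := mul_le_mul_of_nonneg_left a7 (pow_nonneg hz0 7)
  have b8 := mul_le_mul_of_nonneg_left a8 (pow_nonneg hz0 8)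
  have b9 := mul_le_mul_of_nonneg_left a9 c9
  simp only [pow_one]
  linarith

theorem main (M : ℕ) (z r K v l : ℝ) (hM : 100000 ≤ M) (hz0 : 0 ≤ z) (hz : z < 1)
    (hl : 567143 / 1000000 ≤ l) (hv0 : 0 ≤ v) (hv : v ≤ 69147 / 100000)
    (hn : r + 69147 / 100000 * (432857 / 1000000) + 69147 / 200000 *
      (z / 2 + z ^ 2 / 3 + z ^ 3 / 4 + z ^ 4 / 5 + z ^ 5 / 6 + z ^ 6 / 7 + z ^ 7 / 8 + z ^ 8 / 9
        + z ^ 9 / (1 - z) / 10 + (z + z ^ 2 + z ^ 3 + z ^ 4 + z ^ 5 + z ^ 6 + z ^ 7 + z ^ 8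
        + z ^ 9 / (1 - z)) / 100000) ≤ K) :
    ∑ t ∈ range M, (r + v * (1 - l) + v / 2 *
      (z * (((M : ℝ) - t) / M) / (1 - z * (((M : ℝ) - t) / M)))) ≤ (M : ℝ) * K := by
  have hM' : (100000 : ℝ) ≤ (M : ℝ) := by exact_mod_cast hM
  rw [sum_add_distrib, ← mul_sum, sum_const, card_range, nsmul_eq_mul]
  have h1 := sum_fz_le M z (by omega) hz0 hz
  have c9 : 0 ≤ z ^ 9 / (1 - z) := div_nonneg (pow_nonneg hz0 9) (by linarith)
  set q := z ^ 9 / (1 - z) with hq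
  set S := ∑ t ∈ range M, (z * (((M : ℝ) - t) / M) / (1 - z * (((M : ℝ) - t) / M))) with hS
  set A := z / 2 + z ^ 2 / 3 + z ^ 3 / 4 + z ^ 4 / 5 + z ^ 5 / 6 + z ^ 6 / 7 + z ^ 7 / 8
    + z ^ 8 / 9 + q / 10 with hA
  set B := z + z ^ 2 + z ^ 3 + z ^ 4 + z ^ 5 + z ^ 6 + z ^ 7 + z ^ 8 + q with hB
  have hB0 : 0 ≤ B := by rw [hB]; positivity
  have hA0 : 0 ≤ A := by rw [hA]; positivity
  have h2 : S ≤ (M : ℝ) * A + B := by
    rw [hA, hB]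
    linarith
  have h3 : B ≤ (M : ℝ) * (B / 100000) := by nlinarith
  have h4 : S ≤ (M : ℝ) * (A + B / 100000) := by linarith
  have h5 : v / 2 * S ≤ v / 2 * ((M : ℝ) * (A + B / 100000)) :=
    mul_le_mul_of_nonneg_left h4 (by linarith)
  have h6 : v / 2 * ((M : ℝ) * (A + B / 100000)) ≤
      69147 / 200000 * ((M : ℝ) * (A + B / 100000)) :=
    mul_le_mul_of_nonneg_right (by linarith) (by positivity)
  have h7 : v * (1 - l) ≤ 69147 / 100000 * (432857 / 1000000) := by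
    calc v * (1 - l) ≤ v * (432857 / 1000000) :=
          mul_le_mul_of_nonneg_left (by linarith) hv0
      _ ≤ 69147 / 100000 * (432857 / 1000000) := mul_le_mul_of_nonneg_right hv (by norm_num)
  have h8 : (M : ℝ) * (r + v * (1 - l)) + 69147 / 200000 * ((M : ℝ) * (A + B / 100000)) ≤
      (M : ℝ) * K := by
    have h9 : r + v * (1 - l) + 69147 / 200000 * (A + B / 100000) ≤ K := by linarith
    have h10 := mul_le_mul_of_nonneg_left h9 (by linarith : (0 : ℝ) ≤ (M : ℝ))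
    linarith
  linarith

end AVK_

open AVK_ in
theorem avk_proof (hP : Stmt_PAR) : Stmt_AVK := by
  obtain ⟨hl, hl2, hv0, hv⟩ := hP
  intro M a hM ha0 ha1
  unfold fz rh zc Kh st
  split_ifs
  all_goals
    refine main M _ _ _ _ _ hM (by norm_num) (by norm_num) hl (by linarith) hv ?_
    norm_num

end

end Pool.Agent.CGS
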