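import Pool.Agent.CGS.Stmts
import Pool.Agent.CGM.CAP

/-!
# CGS, module CPX: the capacity inequality
-/

set_option autoImplicit false

open Finset Pool.Agent.CGM
open scoped Classical

namespace Pool.Agent.CGS

noncomputable section

namespace CPX_

lemma one_sub_le3 (x : ℝ) (h0 : 0 ≤ x) (h1 : x ≤ 1) :
    1 - x ≤ Real.exp (-(x + x ^ 2 / 2 + x ^ 3 / 3)) := by
  refine (CAP_.one_sub_le x h0 h1).trans (Real.exp_le_exp.2 ?_)
  have e1 : 0 ≤ x ^ 4 := by positivity
  have e2 : 0 ≤ x ^ 5 := by positivity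
  linarith

lemma exp_neg_le (y : ℝ) (h0 : 0 ≤ y) : Real.exp (-y) ≤ 1 - y + y ^ 2 / 2 := by
  have h1 := Real.quadratic_le_exp_of_nonneg h0
  have h2 : 0 < 1 + y + y ^ 2 / 2 := by positivity
  rw [Real.exp_neg]
  have h3 : (Real.exp y)⁻¹ ≤ (1 + y + y ^ 2 / 2)⁻¹ := inv_anti₀ h2 h1
  refine h3.trans ?_
  rw [inv_le_iff_one_le_mul₀ h2]
  nlinarith [sq_nonneg (y ^ 2)]

lemma conv {J : Type} (D : Finset J) (a Y : J → ℝ) (s : ℝ) (hs : 0 < s)
    (ha : ∀ j ∈ D, 0 ≤ a j) (hsum : ∑ j ∈ D, a j = s) :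
    s * Real.exp (-∑ j ∈ D, a j / s * Y j) ≤ ∑ j ∈ D, a j * Real.exp (-Y j) := by
  have h := convexOn_exp.map_sum_le (t := D) (w := fun j => a j / s) (p := fun j => -Y j)
    (fun j hj => div_nonneg (ha j hj) hs.le)
    (by rw [← Finset.sum_div, hsum]; exact div_self hs.ne') (fun j _ => Set.mem_univ _)
  simp only [smul_eq_mul] at h
  have e : ∑ j ∈ D, a j / s * -Y j = -∑ j ∈ D, a j / s * Y j := by
    rw [← Finset.sum_neg_distrib]
    exact Finset.sum_congr rfl (fun j _ => by ring)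
  rw [e] at h
  have h2 := mul_le_mul_of_nonneg_left h hs.le
  refine h2.trans (le_of_eq ?_)
  rw [Finset.mul_sum]
  refine Finset.sum_congr rfl (fun j _ => ?_)
  field_simp

end CPX_

open CPX_ in
theorem cpx_proof (hEQN : Stmt_EQN) : Stmt_CPX := by
  intro J D a ha hsum
  have hs0 : 0 ≤ ∑ j ∈ D, a j := Finset.sum_nonneg ha
  have ha1 : ∀ j ∈ D, a j ≤ 1 := fun j hj => (Finset.single_le_sum ha hj).trans hsum
  have has : ∀ j ∈ D, a j ≤ ∑ j ∈ D, a j := fun j hj => Finset.single_le_sum ha hj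
  rcases eq_or_lt_of_le hs0 with h | hs
  · have hz : ∀ j ∈ D, a j = 0 := (Finset.sum_eq_zero_iff_of_nonneg ha).1 h.symm
    have e1 : ∑ j ∈ D, a j ^ 2 = 0 := Finset.sum_eq_zero (fun j hj => by rw [hz j hj]; ring)
    have e2 : ∏ j ∈ D, (1 - a j) = 1 := Finset.prod_eq_one (fun j hj => by rw [hz j hj]; ring)
    have e3 : ∑ j ∈ D, (1 - Real.exp (-(a j * (up + vp * (1 - ∑ i ∈ D, a i)
        + Kh (a j) * a j)))) = 0 :=
      Finset.sum_eq_zero (fun j hj => by rw [hz j hj]; simp)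
    rw [e3, ← h, e1, e2]
    norm_num
  · set s := ∑ j ∈ D, a j with hsdef
    set Y : J → ℝ := fun j => s * (a j / 2 + a j ^ 2 / 3) with hY
    have hY0 : ∀ j ∈ D, 0 ≤ Y j := by
      intro j hj
      have := ha j hj
      simp only [hY]
      positivity
    -- the product
    have hP1 : ∏ j ∈ D, (1 - a j) ≤
        Real.exp (-∑ j ∈ D, (a j + a j ^ 2 / 2 + a j ^ 3 / 3)) := by
      rw [← Finset.sum_neg_distrib, Real.exp_sum]
      exact Finset.prod_le_prod (fun j hj => by linarith [ha1 j hj])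
        (fun j hj => one_sub_le3 (a j) (ha j hj) (ha1 j hj))
    have hP2 : Real.exp (-∑ j ∈ D, (a j + a j ^ 2 / 2 + a j ^ 3 / 3)) =
        Real.exp (-s) * Real.exp (-∑ j ∈ D, a j / s * Y j) := by
      rw [← Real.exp_add]
      congr 1
      have e : ∑ j ∈ D, (a j + a j ^ 2 / 2 + a j ^ 3 / 3) = s + ∑ j ∈ D, a j / s * Y j := by
        rw [hsdef, ← Finset.sum_add_distrib]
        refine Finset.sum_congr rfl (fun j _ => ?_)
        simp only [hY]
        rw [← hsdef]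
        field_simp
        ring
      rw [e]
      ring
    have hc := conv D a Y s hs ha hsdef.symm
    have hc2 : ∑ j ∈ D, a j * Real.exp (-Y j) ≤ ∑ j ∈ D, a j * (1 - Y j + Y j ^ 2 / 2) :=
      Finset.sum_le_sum (fun j hj =>
        mul_le_mul_of_nonneg_left (exp_neg_le (Y j) (hY0 j hj)) (ha j hj))
    have hes : 0 < Real.exp (-s) := Real.exp_pos _
    have hP : s * ∏ j ∈ D, (1 - a j) ≤
        Real.exp (-s) * ∑ j ∈ D, a j * (1 - Y j + Y j ^ 2 / 2) := by
      calc s * ∏ j ∈ D, (1 - a j)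
          ≤ s * (Real.exp (-s) * Real.exp (-∑ j ∈ D, a j / s * Y j)) :=
            mul_le_mul_of_nonneg_left (hP2 ▸ hP1) hs.le
        _ = Real.exp (-s) * (s * Real.exp (-∑ j ∈ D, a j / s * Y j)) := by ring
        _ ≤ _ := mul_le_mul_of_nonneg_left (hc.trans hc2) hes.le
    -- EQN summed
    have hE : ∑ j ∈ D, (s * (1 - Real.exp (-(a j * (up + vp * (1 - s) + Kh (a j) * a j))))
        + vp / 2 * a j * s * (s - a j)) ≤
        ∑ j ∈ D, a j * (1 - Real.exp (-s) * (1 - Y j + Y j ^ 2 / 2)) :=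
      Finset.sum_le_sum (fun j hj => hEQN (a j) s (ha j hj) (has j hj) hsum)
    have hL : ∑ j ∈ D, (s * (1 - Real.exp (-(a j * (up + vp * (1 - s) + Kh (a j) * a j))))
        + vp / 2 * a j * s * (s - a j)) =
        s * (∑ j ∈ D, (1 - Real.exp (-(a j * (up + vp * (1 - s) + Kh (a j) * a j))))
          + vp / 2 * (s ^ 2 - ∑ j ∈ D, a j ^ 2)) := by
      rw [Finset.sum_add_distrib, ← Finset.mul_sum, mul_add]
      congr 1
      have e : ∑ j ∈ D, vp / 2 * a j * s * (s - a j) =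
          ∑ j ∈ D, (vp / 2 * s * s * a j - vp / 2 * s * a j ^ 2) :=
        Finset.sum_congr rfl (fun j _ => by ring)
      rw [e, Finset.sum_sub_distrib, ← Finset.mul_sum, ← Finset.mul_sum, ← hsdef]
      ring
    have hR : ∑ j ∈ D, a j * (1 - Real.exp (-s) * (1 - Y j + Y j ^ 2 / 2)) =
        s - Real.exp (-s) * ∑ j ∈ D, a j * (1 - Y j + Y j ^ 2 / 2) := by
      rw [Finset.mul_sum, hsdef, ← Finset.sum_sub_distrib]
      exact Finset.sum_congr rfl (fun j _ => by ring)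
    rw [hL, hR] at hE
    have hfin : s * (∑ j ∈ D, (1 - Real.exp (-(a j * (up + vp * (1 - s) + Kh (a j) * a j))))
          + vp / 2 * (s ^ 2 - ∑ j ∈ D, a j ^ 2)) ≤ s * (1 - ∏ j ∈ D, (1 - a j)) := by
      linarith
    exact le_of_mul_le_mul_left hfin hs

end

end Pool.Agent.CGS
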