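import Pool.Agent.CGM.Stmts

/-!
# Definitions for the project CGS (MP_3bdb72_co): the sharp constant

The definitions `opt`, `pr`, `gain`, `conn`, `EB`, `Pro`, `Pc`, `Qr`, `Phi`, `DS` are those of
`Pool.Agent.CGM.Defs`.
-/

set_option autoImplicit false
set_option linter.unusedSectionVars false

open Finset
open scoped Classical

namespace Pool.Agent.CGS

noncomputable section

/-! ### parameters -/

theorem exists_lm : ∃ x : ℝ, x = Real.exp (-x) := by
  have hc : ContinuousOn (fun x : ℝ => x - Real.exp (-x)) (Set.Icc 0 1) := by fun_prop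
  have h := intermediate_value_Icc (by norm_num : (0 : ℝ) ≤ 1) hc
  have h0 : (0 : ℝ) ∈ Set.Icc ((fun x : ℝ => x - Real.exp (-x)) 0)
      ((fun x : ℝ => x - Real.exp (-x)) 1) := by
    constructor
    · simp
    · have : Real.exp (-1) ≤ 1 := Real.exp_le_one_iff.2 (by norm_num)
      simpa using this
  obtain ⟨x, _, hx⟩ := h h0
  exact ⟨x, by
    have hx' : x - Real.exp (-x) = 0 := hx
    linarith⟩

/-- the solution of `λ = exp (-λ)` (about 0.5671433) -/
def lm : ℝ := Classical.choose exists_lm

lemma lm_eq : lm = Real.exp (-lm) := Classical.choose_spec exists_lm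

lemma lm_pos : 0 < lm := by
  rw [lm_eq]
  exact Real.exp_pos _

/-- parameter `v` (about 0.6914639) -/
def vp : ℝ := 2 * (1 - lm - lm ^ 2) / lm ^ 2

/-- parameter `u` (about 0.2678385); `u + v = λ (1 + v)` -/
def up : ℝ := lm * (1 + vp) - vp

/-- a step function with five values -/
def st (c1 c2 c3 c4 c5 a : ℝ) : ℝ :=
  if a < 1 / 50 then c1 else if a < 2 / 25 then c2 else if a < 4 / 25 then c3
    else if a < 7 / 20 then c4 else c5

/-- bound for the connectivity: `zc a ≥ v (1 - √(η a))² / (1 - η)`, `η = 7/200` -/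
def zc (a : ℝ) : ℝ := st (7166 / 10000) (6792 / 10000) (6428 / 10000) (6134 / 10000) (5668 / 10000) a

/-- the permanent rate -/
def rh (a : ℝ) : ℝ := st (1970 / 10000) (1990 / 10000) (2016 / 10000) (2090 / 10000) (2465 / 10000) a

/-- the total rate -/
def Kh (a : ℝ) : ℝ := st (7601 / 10000) (7320 / 10000) (7093 / 10000) (6985 / 10000) (7106 / 10000) a

/-- the connectivity bound for the entry `a` at the time `s` -/
def fz (a s : ℝ) : ℝ := zc a * s / (1 - zc a * s)

/-- the rate of the single item of a real block -/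
def R1 (a s : ℝ) : ℝ := up * a + rh a * a ^ 2 + (vp * (1 - lm) + vp / 2 * fz a s) * a ^ 2

/-! ### killed vertices and inner items -/

section kill
variable {Λ J : Type} [DecidableEq Λ] [DecidableEq J]

/-- the item `e` is an inner item of `D`: it touches at least two vertices, all in `D` -/
def Inn (tch : Λ → Finset J) (D : Finset J) (e : Λ) : Prop := tch e ⊆ D ∧ 2 ≤ (tch e).card

/-- the item `e` kills the vertex `j` of `D` -/
def Kil (tch : Λ → Finset J) (D : Finset J) (j : J) (e : Λ) : Prop := j ∈ tch e ∧ ¬ Inn tch D e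

end kill

end

end Pool.Agent.CGS
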