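import Pool.Agent.CGS.Stmts
import Pool.Agent.CGM.SIN

set_option autoImplicit false

open Finset Pool.Agent.CGM
open scoped Classical

namespace Pool.Agent.CGS

noncomputable section

namespace EKI_

lemma ecard {Λ : Type} [DecidableEq Λ] (π : Λ → ℝ) (P : Λ → Prop)
    (T : Finset Λ) :
    EB T π (fun L => ((L.filter P).card : ℝ)) = ∑ e ∈ T.filter P, π e := by
  induction T using Finset.induction_on with
  | empty => simp
  | insert a T ha ih =>
    rw [EB_insert ha, ih]
    by_cases hP : P a
    · have h1 : EB T π (fun S => (((insert a S).filter P).card : ℝ)) =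
          EB T π (fun S => ((S.filter P).card : ℝ) + 1) := by
        refine EB_congr (fun _ _ => rfl) (fun S hS => ?_)
        rw [Finset.filter_insert, if_pos hP, Finset.card_insert_of_notMem]
        · push_cast
          rfl
        · intro h
          exact ha (hS (Finset.mem_filter.1 h).1)
      rw [h1, EB_add, EB_const, ih, Finset.filter_insert, if_pos hP, Finset.sum_insert]
      · ring
      · intro h
        exact ha (Finset.mem_filter.1 h).1
    · have h1 : EB T π (fun S => (((insert a S).filter P).card : ℝ)) =
          EB T π (fun S => ((S.filter P).card : ℝ)) := by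
        refine EB_congr (fun _ _ => rfl) (fun S hS => ?_)
        rw [Finset.filter_insert, if_neg hP]
      rw [h1, ih, Finset.filter_insert, if_neg hP]
      ring

end EKI_

open EKI_

theorem eki_proof : Stmt_EKI := by
  intro Λ J _ _ _ _ T π tch D
  rw [EB_add, ecard]
  congr 1
  have h1 : EB T π (fun L => ((D.filter (fun j => ∃ e ∈ L, Kil tch D j e)).card : ℝ)) =
      EB T π (fun L => ∑ j ∈ D, if ∃ e ∈ L, Kil tch D j e then (1 : ℝ) else 0) := by
    refine EB_congr (fun _ _ => rfl) (fun S hS => ?_)
    rw [Finset.card_filter]
    push_cast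
    rfl
  rw [h1, EB_sum]
  refine Finset.sum_congr rfl (fun j _ => ?_)
  exact SIN_pr π (fun e => Kil tch D j e) T

end

end Pool.Agent.CGS
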