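import Pool.Agent.CGS.Stmts

set_option autoImplicit false

open Finset Pool.Agent.CGM
open scoped Classical

namespace Pool.Agent.CGS

namespace EQN_

lemma one_sub_exp_le (z : ℝ) (hz : 0 ≤ z) : 1 - Real.exp (-z) ≤ z - z ^ 2 / 2 + z ^ 3 / 6 := by
  -- exp(-z) >= 1 - z + z^2/2 - z^3/6
  have key : ∀ t : ℝ, 0 ≤ t → 0 ≤ Real.exp (-t) - (1 - t + t ^ 2 / 2 - t ^ 3 / 6) := by
    have h1 : ∀ t : ℝ, 0 ≤ t → Real.exp (-t) ≤ 1 - t + t ^ 2 / 2 := by
      intro t ht
      have h3 := Real.quadratic_le_exp_of_nonneg ht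
      have h4 : 0 < 1 + t + t ^ 2 / 2 := by positivity
      rw [Real.exp_neg]
      have h5 : (Real.exp t)⁻¹ ≤ (1 + t + t ^ 2 / 2)⁻¹ := inv_anti₀ h4 h3
      refine h5.trans ?_
      rw [inv_le_iff_one_le_mul₀ h4]
      nlinarith [sq_nonneg (t ^ 2), sq_nonneg t]
    have hmono : MonotoneOn (fun t : ℝ => Real.exp (-t) - (1 - t + t ^ 2 / 2 - t ^ 3 / 6))
        (Set.Ici 0) := by
      apply monotoneOn_of_deriv_nonneg (convex_Ici 0)
      · fun_prop
      · fun_prop
      · intro t ht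
        rw [interior_Ici] at ht
        have ht' : 0 ≤ t := le_of_lt ht
        have hd : HasDerivAt (fun t : ℝ => Real.exp (-t) - (1 - t + t ^ 2 / 2 - t ^ 3 / 6))
            (Real.exp (-t) * (-1) - (0 - 1 + (2 * t ^ 1) / 2 - (3 * t ^ 2) / 6)) t := by
          have h2 : HasDerivAt (fun t : ℝ => Real.exp (-t)) (Real.exp (-t) * (-1)) t :=
            (hasDerivAt_neg t).exp
          have h3 : HasDerivAt (fun t : ℝ => 1 - t + t ^ 2 / 2 - t ^ 3 / 6)
              (0 - 1 + (2 * t ^ 1) / 2 - (3 * t ^ 2) / 6) t := by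
            have e1 := (hasDerivAt_const t (1 : ℝ)).sub (hasDerivAt_id t)
            have e2 := (hasDerivAt_pow 2 t).div_const 2
            have e3 := (hasDerivAt_pow 3 t).div_const 6
            have e4 := (e1.add e2).sub e3
            exact e4
          exact h2.sub h3
        rw [hd.deriv]
        have := h1 t ht'
        nlinarith
    intro t ht
    have := hmono (Set.mem_Ici.2 le_rfl) (Set.mem_Ici.2 ht) ht
    simp only [neg_zero, Real.exp_zero] at this
    norm_num at this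
    linarith
  have := key z hz
  linarith

lemma one_sub_exp_le' (z : ℝ) : 1 - Real.exp (-z) ≤ z - z ^ 2 / 2 + z ^ 3 / 6 := by
  rcases le_total 0 z with hz | hz
  · exact one_sub_exp_le z hz
  · have h := Real.sum_le_exp_of_nonneg (x := -z) (by linarith) 4
    simp only [Finset.sum_range_succ, Finset.sum_range_zero, Nat.factorial] at h
    norm_num at h
    nlinarith

end EQN_

open EQN_ in
theorem eqn_proof (hT : Stmt_TGT) (hR : Stmt_EQR) : Stmt_EQN := by
  intro a s ha has hs
  have hs0 : 0 ≤ s := ha.trans has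
  have h1 := hT s hs0 hs
  have h2 := hR a s ha has hs
  set x := up + vp * (1 - s) + Kh a * a with hx
  have h3 := one_sub_exp_le' (a * x)
  have h4 := mul_le_mul_of_nonneg_left h3 hs0
  have h5 := mul_nonneg (mul_nonneg ha hs0) h2
  have h6 := mul_le_mul_of_nonneg_left h1 ha
  have e1 : a * (1 - Real.exp (-s) * (1 - s * (a / 2 + a ^ 2 / 3)
        + (s * (a / 2 + a ^ 2 / 3)) ^ 2 / 2))
      - s * (a * x - (a * x) ^ 2 / 2 + (a * x) ^ 3 / 6) - vp / 2 * a * s * (s - a)
      = a * (1 - (up + vp) * s + vp / 2 * s ^ 2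
          - (Real.exp (-s) + 985 / 10000 * s * (s - lm) ^ 2))
        + a * s * (985 / 10000 * (s - lm) ^ 2
          + a * (Real.exp (-s) * ((1 / 2 + a / 3) * (1 - s * a * (1 / 2 + a / 3) / 2))
            + x ^ 2 / 2 - a * x ^ 3 / 6 - (Kh a - vp / 2))) := by
    rw [hx]
    ring
  linarith

end Pool.Agent.CGS
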