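import Pool.Agent.CGS.Stmts

/-!
# Module EQR of the project CGS (MP_3bdb72_co): the two variable inequality

Tangent lines in the variable `s` at one point for each class, then a one variable inequality
in `a`, proved with Bernstein coefficients.
-/

set_option autoImplicit false

open Finset Pool.Agent.CGM
open scoped Classical

namespace Pool.Agent.CGS

noncomputable section

namespace EQR_

/-- the slope factor -/
def hh (a : ℝ) : ℝ := 1 / 2 + a / 3

/-- value of the second factor at the tangent point -/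
def PP (a s0 : ℝ) : ℝ := 1 - s0 * a * hh a / 2

/-- lower bound of `x` at the tangent point -/
def x0 (a K s0 : ℝ) : ℝ := 95929 / 100000 - 69147 / 100000 * s0 + K * a

/-- constant coefficient -/
def al (a K s0 E0 : ℝ) : ℝ :=
  E0 * hh a * PP a s0 + x0 a K s0 ^ 2 / 2 - a * x0 a K s0 ^ 3 / 6 - (K - 345725 / 1000000)

/-- slope -/
def be (a K s0 E0 : ℝ) : ℝ :=
  E0 * hh a * (PP a s0 + a * hh a / 2) + 69147 / 100000 * (x0 a K s0 - a * x0 a K s0 ^ 2 / 2)

/-- the bracket -/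
def br (a s K : ℝ) : ℝ :=
  Real.exp (-s) * ((1 / 2 + a / 3) * (1 - s * a * (1 / 2 + a / 3) / 2))
    + (up + vp * (1 - s) + K * a) ^ 2 / 2
    - a * (up + vp * (1 - s) + K * a) ^ 3 / 6 - (K - vp / 2)

/-- the tangent line is a lower bound -/
lemma core (hP : Stmt_PAR) (a s K s0 E0 : ℝ) (ha : 0 ≤ a) (has : a ≤ s) (hs : s ≤ 1)
    (hK0 : 69 / 100 ≤ K) (hK1 : K ≤ 77 / 100) (hs0 : 1 / 2 ≤ s0) (hs1 : s0 ≤ 1) (hE0 : 0 ≤ E0)
    (hE : E0 ≤ Real.exp (-s0)) (haK : a ≤ 19 / 100 ∨ (s0 = 1 ∧ K ≤ 7106 / 10000)) :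
    al a K s0 E0 - be a K s0 E0 * (s - s0) ≤ br a s K := by
  obtain ⟨h1, h2, h3, h4⟩ := hP
  have ha1 : a ≤ 1 := has.trans hs
  have hs00 : 0 ≤ s := ha.trans has
  -- the exponential part
  have e1 : E0 * (1 - (s - s0)) ≤ Real.exp (-s) := by
    have q1 : 1 - (s - s0) ≤ Real.exp (-(s - s0)) := by
      have := Real.add_one_le_exp (-(s - s0))
      linarith
    have q2 : Real.exp (-s) = Real.exp (-s0) * Real.exp (-(s - s0)) := by
      rw [← Real.exp_add]
      congr 1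
      ring
    rw [q2]
    exact mul_le_mul hE q1 (by linarith) (Real.exp_pos _).le
  have hh0 : 0 < hh a := by unfold hh; linarith
  have hh1 : hh a ≤ 5 / 6 := by unfold hh; linarith
  have hah : a * hh a ≤ 5 / 6 := by nlinarith
  have hah0 : 0 ≤ a * hh a := mul_nonneg ha hh0.le
  have e2 : 0 ≤ 1 - s * (a * hh a) / 2 := by nlinarith
  have e3 : E0 * hh a * (PP a s0) - E0 * hh a * (PP a s0 + a * hh a / 2) * (s - s0) ≤
      Real.exp (-s) * (hh a * (1 - s * (a * hh a) / 2)) := by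
    have q3 : E0 * (1 - (s - s0)) * (hh a * (1 - s * (a * hh a) / 2)) ≤
        Real.exp (-s) * (hh a * (1 - s * (a * hh a) / 2)) :=
      mul_le_mul_of_nonneg_right e1 (mul_nonneg hh0.le e2)
    refine le_trans (le_of_sub_nonneg ?_) q3
    have : E0 * (1 - (s - s0)) * (hh a * (1 - s * (a * hh a) / 2)) -
        (E0 * hh a * (PP a s0) - E0 * hh a * (PP a s0 + a * hh a / 2) * (s - s0)) =
        E0 * hh a * (a * hh a) / 2 * (s - s0) ^ 2 := by
      unfold PP
      ring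
    rw [this]
    positivity
  -- the polynomial part
  have hc : (95929 : ℝ) / 100000 ≤ up + vp := by
    unfold up
    nlinarith
  have hc2 : up + vp ≤ 96 / 100 := by
    unfold up
    nlinarith
  set x := up + vp * (1 - s) + K * a with hx
  set X := x0 a K s0 - 69147 / 100000 * (s - s0) with hX
  have hXv : X = 95929 / 100000 - 69147 / 100000 * s + K * a := by
    rw [hX]
    unfold x0
    ring
  have hX0 : 0 ≤ X := by
    rw [hXv]
    nlinarith
  have hXx : X ≤ x := by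
    rw [hXv, hx]
    nlinarith
  have hx1 : a * x ≤ 1 := by
    have hxv : x = (up + vp) - vp * s + K * a := by rw [hx]; ring
    rcases haK with h | ⟨_, h⟩
    · have : x ≤ 96 / 100 + 77 / 100 * (19 / 100) := by
        rw [hxv]
        nlinarith
      nlinarith
    · have : x ≤ 96 / 100 + 2 / 100 * a := by
        rw [hxv]
        nlinarith
      nlinarith
  have hx00 : 0 ≤ x := hX0.trans hXx
  have hx0n : 0 ≤ x0 a K s0 := by
    unfold x0
    nlinarith
  have hx01 : a * x0 a K s0 ≤ 1 := by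
    unfold x0
    rcases haK with h | ⟨h5, h⟩
    · nlinarith
    · rw [h5]
      nlinarith
  have e4 : X ^ 2 / 2 - a * X ^ 3 / 6 ≤ x ^ 2 / 2 - a * x ^ 3 / 6 := by
    have : x ^ 2 / 2 - a * x ^ 3 / 6 - (X ^ 2 / 2 - a * X ^ 3 / 6) =
        (x - X) * ((x + X) / 2 - a * (x ^ 2 + x * X + X ^ 2) / 6) := by ring
    have q4 : a * (x ^ 2 + x * X + X ^ 2) ≤ 3 * (x + X) := by
      have q5 : a * X ≤ 1 := by nlinarith
      nlinarith [mul_nonneg ha hx00, mul_nonneg ha hX0, mul_le_mul_of_nonneg_right hx1 hx00,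
        mul_le_mul_of_nonneg_right hx1 hX0, mul_le_mul_of_nonneg_right q5 hX0]
    have q6 : 0 ≤ (x - X) * ((x + X) / 2 - a * (x ^ 2 + x * X + X ^ 2) / 6) :=
      mul_nonneg (by linarith) (by linarith)
    linarith
  have e5 : x0 a K s0 ^ 2 / 2 - a * x0 a K s0 ^ 3 / 6
      - 69147 / 100000 * (x0 a K s0 - a * x0 a K s0 ^ 2 / 2) * (s - s0) ≤
      X ^ 2 / 2 - a * X ^ 3 / 6 := by
    have : X ^ 2 / 2 - a * X ^ 3 / 6 - (x0 a K s0 ^ 2 / 2 - a * x0 a K s0 ^ 3 / 6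
      - 69147 / 100000 * (x0 a K s0 - a * x0 a K s0 ^ 2 / 2) * (s - s0)) =
      (69147 / 100000 * (s - s0)) ^ 2 / 2 * (1 - a * (2 * x0 a K s0 + X) / 3) := by
      rw [hX]
      ring
    have q5 : a * X ≤ 1 := by nlinarith
    have q7 : 0 ≤ (69147 / 100000 * (s - s0)) ^ 2 / 2 * (1 - a * (2 * x0 a K s0 + X) / 3) :=
      mul_nonneg (by positivity) (by nlinarith)
    linarith
  have e6 : Real.exp (-s) * (hh a * (1 - s * (a * hh a) / 2)) + x ^ 2 / 2 - a * x ^ 3 / 6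
      - (K - vp / 2) = br a s K := by
    rw [hx]
    unfold br hh
    ring
  rw [← e6]
  unfold al be
  nlinarith [e3, e4, e5, h3]

/-- positivity by the discriminant -/
lemma disc (t a α β t0 t1 : ℝ) (h1 : t1 ≤ t0) (hβ : 0 ≤ β) (ha : 0 ≤ a)
    (h : 0 ≤ 4 * (985 / 10000) * (α + t1 * β) - a * (β * β)) :
    0 ≤ 985 / 10000 * t ^ 2 + a * (α - β * (t - t0)) := by
  have h2 : t1 * β ≤ t0 * β := mul_le_mul_of_nonneg_right h1 hβ
  have h3 : 0 ≤ a * (4 * (985 / 10000) * (α + t0 * β) - a * (β * β)) := mul_nonneg ha (by linarith)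
  have h4 : 985 / 10000 * t ^ 2 + a * (α - β * (t - t0)) =
      985 / 10000 * (t - a * β / (2 * (985 / 10000))) ^ 2
        + a * (4 * (985 / 10000) * (α + t0 * β) - a * (β * β)) / (4 * (985 / 10000)) := by
    field_simp
    ring
  rw [h4]
  positivity

/-- the case of a tangent point `s0 < 1` -/
lemma discB (hP : Stmt_PAR) (a s K s0 E0 : ℝ) (ha : 0 ≤ a) (has : a ≤ s) (hs : s ≤ 1)
    (hK0 : 69 / 100 ≤ K) (hK1 : K ≤ 77 / 100) (hs0 : 58 / 100 ≤ s0) (hs1 : s0 ≤ 1) (hE0 : 0 ≤ E0)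
    (hE : E0 ≤ Real.exp (-s0)) (haK : a ≤ 19 / 100)
    (hb : 0 ≤ be a K s0 E0)
    (h : 0 ≤ 4 * (985 / 10000) * (al a K s0 E0 + (s0 - 567144 / 1000000) * be a K s0 E0)
      - a * (be a K s0 E0 * be a K s0 E0)) :
    0 ≤ 985 / 10000 * (s - lm) ^ 2 + a * br a s K := by
  have h1 := core hP a s K s0 E0 ha has hs hK0 hK1 (by linarith) hs1 hE0 hE (Or.inl haK)
  obtain ⟨p1, p2, p3, p4⟩ := hP
  have h2 := disc (s - lm) a (al a K s0 E0) (be a K s0 E0) (s0 - lm) (s0 - 567144 / 1000000)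
    (by linarith) hb ha h
  have h3 : s - lm - (s0 - lm) = s - s0 := by ring
  rw [h3] at h2
  have h4 := mul_le_mul_of_nonneg_left h1 ha
  linarith

lemma be_nonneg (a K s0 E0 : ℝ) (ha : 0 ≤ a) (ha1 : a ≤ 1) (hs0 : 0 ≤ s0) (hs1 : s0 ≤ 1)
    (hE0 : 0 ≤ E0) (hx : 0 ≤ x0 a K s0) (hax : a * x0 a K s0 ≤ 1) : 0 ≤ be a K s0 E0 := by
  unfold be PP
  have hh0 : 0 < hh a := by unfold hh; linarith
  have hh1 : hh a ≤ 5 / 6 := by unfold hh; linarith
  have hah : a * hh a ≤ 5 / 6 := by nlinarith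
  have hah0 : 0 ≤ a * hh a := mul_nonneg ha hh0.le
  have q1 : 0 ≤ 1 - s0 * a * hh a / 2 + a * hh a / 2 := by nlinarith
  have q2 : 0 ≤ x0 a K s0 - a * x0 a K s0 ^ 2 / 2 := by nlinarith
  positivity

/-- the end point case -/
lemma endB (hP : Stmt_PAR) (a s K E0 : ℝ) (ha : 0 ≤ a) (has : a ≤ s) (hs : s ≤ 1)
    (hK0 : 69 / 100 ≤ K) (hK1 : K ≤ 7106 / 10000) (hE0 : 0 ≤ E0) (hE : E0 ≤ Real.exp (-1))
    (h1 : 0 ≤ a * al a K 1 E0 + 985 / 10000 * (432856 / 1000000) ^ 2)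
    (h2 : 0 ≤ a * be a K 1 E0 - 2 * (985 / 10000) * (432857 / 1000000)) :
    0 ≤ 985 / 10000 * (s - lm) ^ 2 + a * br a s K := by
  have h3 := core hP a s K 1 E0 ha has hs hK0 (by linarith) (by norm_num) (le_refl _) hE0 hE
    (Or.inr ⟨rfl, hK1⟩)
  obtain ⟨p1, p2, p3, p4⟩ := hP
  have h4 := mul_le_mul_of_nonneg_left h3 ha
  have h5 : (1 - lm) ^ 2 + 2 * (1 - lm) * (s - 1) ≤ (s - lm) ^ 2 := by nlinarith [sq_nonneg (s - 1)]
  have h6 : (432856 / 1000000 : ℝ) ^ 2 ≤ (1 - lm) ^ 2 := by nlinarith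
  have h7 : 0 ≤ (1 - s) * (a * be a K 1 E0 - 2 * (985 / 10000) * (1 - lm)) :=
    mul_nonneg (by linarith) (by linarith)
  nlinarith [h4, h5, h6, h7]

lemma c1 (a : ℝ) (h0 : (0 : ℝ) ≤ a) (h1 : a ≤ (1 / 50 : ℝ)) :
    0 ≤ 4 * (985 / 10000) * (al a (7601 / 10000 : ℝ) (3 / 5 : ℝ) (54881 / 100000 : ℝ) + ((3 / 5 : ℝ) - 567144 / 1000000) * be a (7601 / 10000 : ℝ) (3 / 5 : ℝ) (54881 / 100000 : ℝ))
      - a * (be a (7601 / 10000 : ℝ) (3 / 5 : ℝ) (54881 / 100000 : ℝ) * be a (7601 / 10000 : ℝ) (3 / 5 : ℝ) (54881 / 100000 : ℝ)) := by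
  have e : 4 * (985 / 10000) * (al a (7601 / 10000 : ℝ) (3 / 5 : ℝ) (54881 / 100000 : ℝ) + ((3 / 5 : ℝ) - 567144 / 1000000) * be a (7601 / 10000 : ℝ) (3 / 5 : ℝ) (54881 / 100000 : ℝ))
      - a * (be a (7601 / 10000 : ℝ) (3 / 5 : ℝ) (54881 / 100000 : ℝ) * be a (7601 / 10000 : ℝ) (3 / 5 : ℝ) (54881 / 100000 : ℝ)) =
      (9112560568637763 / 1000000 : ℝ) * ((1 / 50 : ℝ) - a) ^ 7 +
      (756900312005360881466337 / 12500000000000 : ℝ) * (a - (0 : ℝ)) ^ 1 * ((1 / 50 : ℝ) - a) ^ 6 +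
      (32194615837263800605680227377 / 187500000000000000 : ℝ) * (a - (0 : ℝ)) ^ 2 * ((1 / 50 : ℝ) - a) ^ 5 +
      (3785363563792347977520345950366188319 / 14062500000000000000000000 : ℝ) * (a - (0 : ℝ)) ^ 3 * ((1 / 50 : ℝ) - a) ^ 4 +
      (708132385338650321556455578646314609 / 2812500000000000000000000 : ℝ) * (a - (0 : ℝ)) ^ 4 * ((1 / 50 : ℝ) - a) ^ 3 +
      (1895161496902759341760236566901023191 / 13500000000000000000000000 : ℝ) * (a - (0 : ℝ)) ^ 5 * ((1 / 50 : ℝ) - a) ^ 2 +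
      (25890136732083896239044533076643463 / 600000000000000000000000 : ℝ) * (a - (0 : ℝ)) ^ 6 * ((1 / 50 : ℝ) - a) ^ 1 +
      (291965103157764946493168135020545911 / 51840000000000000000000000 : ℝ) * (a - (0 : ℝ)) ^ 7 := by
    unfold al be PP x0 hh
    ring
  rw [e]
  have q0 : 0 ≤ a - (0 : ℝ) := by linarith
  have q1 : 0 ≤ (1 / 50 : ℝ) - a := by linarith
  positivity

lemma c2 (a : ℝ) (h0 : (1 / 50 : ℝ) ≤ a) (h1 : a ≤ (2 / 25 : ℝ)) :
    0 ≤ 4 * (985 / 10000) * (al a (7320 / 10000 : ℝ) (18 / 25 : ℝ) (1947 / 4000 : ℝ) + ((18 / 25 : ℝ) - 567144 / 1000000) * be a (7320 / 10000 : ℝ) (18 / 25 : ℝ) (1947 / 4000 : ℝ))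
      - a * (be a (7320 / 10000 : ℝ) (18 / 25 : ℝ) (1947 / 4000 : ℝ) * be a (7320 / 10000 : ℝ) (18 / 25 : ℝ) (1947 / 4000 : ℝ)) := by
  have e : 4 * (985 / 10000) * (al a (7320 / 10000 : ℝ) (18 / 25 : ℝ) (1947 / 4000 : ℝ) + ((18 / 25 : ℝ) - 567144 / 1000000) * be a (7320 / 10000 : ℝ) (18 / 25 : ℝ) (1947 / 4000 : ℝ))
      - a * (be a (7320 / 10000 : ℝ) (18 / 25 : ℝ) (1947 / 4000 : ℝ) * be a (7320 / 10000 : ℝ) (18 / 25 : ℝ) (1947 / 4000 : ℝ)) =
      (30112183939707339986117707898681178199439 / 4920750000000000000000000000000000 : ℝ) * ((2 / 25 : ℝ) - a) ^ 7 +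
      (12301379347638032510491489597089446329889 / 307546875000000000000000000000000 : ℝ) * (a - (1 / 50 : ℝ)) ^ 1 * ((2 / 25 : ℝ) - a) ^ 6 +
      (90733018772411488735819270334940339768463 / 820125000000000000000000000000000 : ℝ) * (a - (1 / 50 : ℝ)) ^ 2 * ((2 / 25 : ℝ) - a) ^ 5 +
      (205880448226275455911964502271280255310037 / 1230187500000000000000000000000000 : ℝ) * (a - (1 / 50 : ℝ)) ^ 3 * ((2 / 25 : ℝ) - a) ^ 4 +
      (732631226287294278256065648959629027711327 / 4920750000000000000000000000000000 : ℝ) * (a - (1 / 50 : ℝ)) ^ 4 * ((2 / 25 : ℝ) - a) ^ 3 +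
      (31730757570752230704813273927653333061311 / 410062500000000000000000000000000 : ℝ) * (a - (1 / 50 : ℝ)) ^ 5 * ((2 / 25 : ℝ) - a) ^ 2 +
      (6618014660765175401803269286618083657341 / 307546875000000000000000000000000 : ℝ) * (a - (1 / 50 : ℝ)) ^ 6 * ((2 / 25 : ℝ) - a) ^ 1 +
      (186200061906636637049574419864222246639 / 76886718750000000000000000000000 : ℝ) * (a - (1 / 50 : ℝ)) ^ 7 := by
    unfold al be PP x0 hh
    ring
  rw [e]
  have q0 : 0 ≤ a - (1 / 50 : ℝ) := by linarith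
  have q1 : 0 ≤ (2 / 25 : ℝ) - a := by linarith
  positivity

lemma c3 (a : ℝ) (h0 : (2 / 25 : ℝ) ≤ a) (h1 : a ≤ (4 / 25 : ℝ)) :
    0 ≤ 4 * (985 / 10000) * (al a (7093 / 10000 : ℝ) (87 / 100 : ℝ) (8379 / 20000 : ℝ) + ((87 / 100 : ℝ) - 567144 / 1000000) * be a (7093 / 10000 : ℝ) (87 / 100 : ℝ) (8379 / 20000 : ℝ))
      - a * (be a (7093 / 10000 : ℝ) (87 / 100 : ℝ) (8379 / 20000 : ℝ) * be a (7093 / 10000 : ℝ) (87 / 100 : ℝ) (8379 / 20000 : ℝ)) := by
  have e : 4 * (985 / 10000) * (al a (7093 / 10000 : ℝ) (87 / 100 : ℝ) (8379 / 20000 : ℝ) + ((87 / 100 : ℝ) - 567144 / 1000000) * be a (7093 / 10000 : ℝ) (87 / 100 : ℝ) (8379 / 20000 : ℝ))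
      - a * (be a (7093 / 10000 : ℝ) (87 / 100 : ℝ) (8379 / 20000 : ℝ) * be a (7093 / 10000 : ℝ) (87 / 100 : ℝ) (8379 / 20000 : ℝ)) =
      (11985505113102243328683461392316341483591 / 16384000000000000000000000000000000 : ℝ) * ((4 / 25 : ℝ) - a) ^ 7 +
      (7834099718363911792184346013389096821607 / 1638400000000000000000000000000000 : ℝ) * (a - (2 / 25 : ℝ)) ^ 1 * ((4 / 25 : ℝ) - a) ^ 6 +
      (107791024305261742211327114005707397618931 / 8192000000000000000000000000000000 : ℝ) * (a - (2 / 25 : ℝ)) ^ 2 * ((4 / 25 : ℝ) - a) ^ 5 +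
      (30208986084374792652666357257226980780389 / 1536000000000000000000000000000000 : ℝ) * (a - (2 / 25 : ℝ)) ^ 3 * ((4 / 25 : ℝ) - a) ^ 4 +
      (841308369963093267161372261445123373495957 / 49152000000000000000000000000000000 : ℝ) * (a - (2 / 25 : ℝ)) ^ 4 * ((4 / 25 : ℝ) - a) ^ 3 +
      (70167382074533799853135353662216445678821 / 8192000000000000000000000000000000 : ℝ) * (a - (2 / 25 : ℝ)) ^ 5 * ((4 / 25 : ℝ) - a) ^ 2 +
      (27386315396603393219088776652656603720423 / 12288000000000000000000000000000000 : ℝ) * (a - (2 / 25 : ℝ)) ^ 6 * ((4 / 25 : ℝ) - a) ^ 1 +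
      (1355181573304048846696952403382567116053 / 6144000000000000000000000000000000 : ℝ) * (a - (2 / 25 : ℝ)) ^ 7 := by
    unfold al be PP x0 hh
    ring
  rw [e]
  have q0 : 0 ≤ a - (2 / 25 : ℝ) := by linarith
  have q1 : 0 ≤ (4 / 25 : ℝ) - a := by linarith
  positivity

lemma c4 (a : ℝ) (h0 : (4 / 25 : ℝ) ≤ a) (h1 : a ≤ (19 / 100 : ℝ)) :
    0 ≤ 4 * (985 / 10000) * (al a (6985 / 10000 : ℝ) (49 / 50 : ℝ) (37531 / 100000 : ℝ) + ((49 / 50 : ℝ) - 567144 / 1000000) * be a (6985 / 10000 : ℝ) (49 / 50 : ℝ) (37531 / 100000 : ℝ))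
      - a * (be a (6985 / 10000 : ℝ) (49 / 50 : ℝ) (37531 / 100000 : ℝ) * be a (6985 / 10000 : ℝ) (49 / 50 : ℝ) (37531 / 100000 : ℝ)) := by
  have e : 4 * (985 / 10000) * (al a (6985 / 10000 : ℝ) (49 / 50 : ℝ) (37531 / 100000 : ℝ) + ((49 / 50 : ℝ) - 567144 / 1000000) * be a (6985 / 10000 : ℝ) (49 / 50 : ℝ) (37531 / 100000 : ℝ))
      - a * (be a (6985 / 10000 : ℝ) (49 / 50 : ℝ) (37531 / 100000 : ℝ) * be a (6985 / 10000 : ℝ) (49 / 50 : ℝ) (37531 / 100000 : ℝ)) =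
      (5069642070024670805127134017801488032951 / 10812194824218750000000000000000 : ℝ) * ((19 / 100 : ℝ) - a) ^ 7 +
      (545913202941939738611047823694285242191871 / 172995117187500000000000000000000 : ℝ) * (a - (4 / 25 : ℝ)) ^ 1 * ((19 / 100 : ℝ) - a) ^ 6 +
      (8365386149911675091774614375125786929882639 / 922640625000000000000000000000000 : ℝ) * (a - (4 / 25 : ℝ)) ^ 2 * ((19 / 100 : ℝ) - a) ^ 5 +
      (638165041322614830895405556475373192199083357 / 44286750000000000000000000000000000 : ℝ) * (a - (4 / 25 : ℝ)) ^ 3 * ((19 / 100 : ℝ) - a) ^ 4 +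
      (75695894319248087768251022233442423325428621 / 5535843750000000000000000000000000 : ℝ) * (a - (4 / 25 : ℝ)) ^ 4 * ((19 / 100 : ℝ) - a) ^ 3 +
      (14285841938659983074364992797863263107597117 / 1845281250000000000000000000000000 : ℝ) * (a - (4 / 25 : ℝ)) ^ 5 * ((19 / 100 : ℝ) - a) ^ 2 +
      (3348510652458752234195631575739482500011877 / 1383960937500000000000000000000000 : ℝ) * (a - (4 / 25 : ℝ)) ^ 6 * ((19 / 100 : ℝ) - a) ^ 1 +
      (890266046400080840062382393676408587886749 / 2767921875000000000000000000000000 : ℝ) * (a - (4 / 25 : ℝ)) ^ 7 := by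
    unfold al be PP x0 hh
    ring
  rw [e]
  have q0 : 0 ≤ a - (4 / 25 : ℝ) := by linarith
  have q1 : 0 ≤ (19 / 100 : ℝ) - a := by linarith
  positivity

lemma c5a (a : ℝ) (h0 : (19 / 100 : ℝ) ≤ a) (h1 : a ≤ (7 / 20 : ℝ)) :
    0 ≤ a * al a (6985 / 10000 : ℝ) 1 (36787 / 100000 : ℝ) + 985 / 10000 * (432856 / 1000000) ^ 2 := by
  have e : a * al a (6985 / 10000 : ℝ) 1 (36787 / 100000 : ℝ) + 985 / 10000 * (432856 / 1000000) ^ 2 =
      (5111102620847438431 / 150994944000000000 : ℝ) * ((7 / 20 : ℝ) - a) ^ 5 +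
      (7010239250271155257 / 50331648000000000 : ℝ) * (a - (19 / 100 : ℝ)) ^ 1 * ((7 / 20 : ℝ) - a) ^ 4 +
      (22549065796000012411 / 75497472000000000 : ℝ) * (a - (19 / 100 : ℝ)) ^ 2 * ((7 / 20 : ℝ) - a) ^ 3 +
      (30322589960864491339 / 75497472000000000 : ℝ) * (a - (19 / 100 : ℝ)) ^ 3 * ((7 / 20 : ℝ) - a) ^ 2 +
      (2962097009869490741 / 10066329600000000 : ℝ) * (a - (19 / 100 : ℝ)) ^ 4 * ((7 / 20 : ℝ) - a) ^ 1 +
      (518248607301348487 / 6039797760000000 : ℝ) * (a - (19 / 100 : ℝ)) ^ 5 := by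
    unfold al PP x0 hh
    ring
  rw [e]
  have q0 : 0 ≤ a - (19 / 100 : ℝ) := by linarith
  have q1 : 0 ≤ (7 / 20 : ℝ) - a := by linarith
  positivity

lemma c5b (a : ℝ) (h0 : (19 / 100 : ℝ) ≤ a) (h1 : a ≤ (7 / 20 : ℝ)) :
    0 ≤ a * be a (6985 / 10000 : ℝ) 1 (36787 / 100000 : ℝ) - 2 * (985 / 10000) * (432857 / 1000000) := by
  have e : a * be a (6985 / 10000 : ℝ) 1 (36787 / 100000 : ℝ) - 2 * (985 / 10000) * (432857 / 1000000) =
      (1133092906586764751 / 157286400000000000 : ℝ) * ((7 / 20 : ℝ) - a) ^ 4 +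
      (2205529822538181717 / 13107200000000000 : ℝ) * (a - (19 / 100 : ℝ)) ^ 1 * ((7 / 20 : ℝ) - a) ^ 3 +
      (37745778425064822157 / 78643200000000000 : ℝ) * (a - (19 / 100 : ℝ)) ^ 2 * ((7 / 20 : ℝ) - a) ^ 2 +
      (1264387074661711537 / 2621440000000000 : ℝ) * (a - (19 / 100 : ℝ)) ^ 3 * ((7 / 20 : ℝ) - a) ^ 1 +
      (1027136030209687271 / 6291456000000000 : ℝ) * (a - (19 / 100 : ℝ)) ^ 4 := by
    unfold be PP x0 hh
    ring
  rw [e]
  have q0 : 0 ≤ a - (19 / 100 : ℝ) := by linarith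
  have q1 : 0 ≤ (7 / 20 : ℝ) - a := by linarith
  positivity

lemma c6a (a : ℝ) (h0 : (7 / 20 : ℝ) ≤ a) (h1 : a ≤ (1 : ℝ)) :
    0 ≤ a * al a (7106 / 10000 : ℝ) 1 (36787 / 100000 : ℝ) + 985 / 10000 * (432856 / 1000000) ^ 2 := by
  have e : a * al a (7106 / 10000 : ℝ) 1 (36787 / 100000 : ℝ) + 985 / 10000 * (432856 / 1000000) ^ 2 =
      (39284772218925881 / 835409250000000000 : ℝ) * ((1 : ℝ) - a) ^ 5 +
      (31932922077907979 / 46411625000000000 : ℝ) * (a - (7 / 20 : ℝ)) ^ 1 * ((1 : ℝ) - a) ^ 4 +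
      (740742748278532267 / 208852312500000000 : ℝ) * (a - (7 / 20 : ℝ)) ^ 2 * ((1 : ℝ) - a) ^ 3 +
      (721499009387181653 / 104426156250000000 : ℝ) * (a - (7 / 20 : ℝ)) ^ 3 * ((1 : ℝ) - a) ^ 2 +
      (2349029624662639 / 435108984375000 : ℝ) * (a - (7 / 20 : ℝ)) ^ 4 * ((1 : ℝ) - a) ^ 1 +
      (348639947844733 / 261065390625000 : ℝ) * (a - (7 / 20 : ℝ)) ^ 5 := by
    unfold al PP x0 hh
    ring
  rw [e]
  have q0 : 0 ≤ a - (7 / 20 : ℝ) := by linarith
  have q1 : 0 ≤ (1 : ℝ) - a := by linarith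
  positivity

lemma c6b (a : ℝ) (h0 : (7 / 20 : ℝ) ≤ a) (h1 : a ≤ (1 : ℝ)) :
    0 ≤ a * be a (7106 / 10000 : ℝ) 1 (36787 / 100000 : ℝ) - 2 * (985 / 10000) * (432857 / 1000000) := by
  have e : a * be a (7106 / 10000 : ℝ) 1 (36787 / 100000 : ℝ) - 2 * (985 / 10000) * (432857 / 1000000) =
      (258800963407186919 / 428415000000000000 : ℝ) * ((1 : ℝ) - a) ^ 4 +
      (177689605551765551 / 35701250000000000 : ℝ) * (a - (7 / 20 : ℝ)) ^ 1 * ((1 : ℝ) - a) ^ 3 +
      (1292807343003859091 / 107103750000000000 : ℝ) * (a - (7 / 20 : ℝ)) ^ 2 * ((1 : ℝ) - a) ^ 2 +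
      (9860438385545901 / 892531250000000 : ℝ) * (a - (7 / 20 : ℝ)) ^ 3 * ((1 : ℝ) - a) ^ 1 +
      (850289245182719 / 267759375000000 : ℝ) * (a - (7 / 20 : ℝ)) ^ 4 := by
    unfold be PP x0 hh
    ring
  rw [e]
  have q0 : 0 ≤ a - (7 / 20 : ℝ) := by linarith
  have q1 : 0 ≤ (1 : ℝ) - a := by linarith
  positivity

lemma ex1 : (54881 / 100000 : ℝ) ≤ Real.exp (-(3 / 5 : ℝ)) := by
  have h := Real.exp_bound (x := -(3 / 5 : ℝ)) (by norm_num [abs_of_pos])
    (n := 10) (by norm_num)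
  rw [abs_le] at h
  simp only [Finset.sum_range_succ, Finset.sum_range_zero, Nat.factorial] at h
  norm_num at h ⊢
  linarith [h.1]

lemma ex2 : (1947 / 4000 : ℝ) ≤ Real.exp (-(18 / 25 : ℝ)) := by
  have h := Real.exp_bound (x := -(18 / 25 : ℝ)) (by norm_num [abs_of_pos])
    (n := 10) (by norm_num)
  rw [abs_le] at h
  simp only [Finset.sum_range_succ, Finset.sum_range_zero, Nat.factorial] at h
  norm_num at h ⊢
  linarith [h.1]

lemma ex3 : (8379 / 20000 : ℝ) ≤ Real.exp (-(87 / 100 : ℝ)) := by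
  have h := Real.exp_bound (x := -(87 / 100 : ℝ)) (by norm_num [abs_of_pos])
    (n := 10) (by norm_num)
  rw [abs_le] at h
  simp only [Finset.sum_range_succ, Finset.sum_range_zero, Nat.factorial] at h
  norm_num at h ⊢
  linarith [h.1]

lemma ex4 : (37531 / 100000 : ℝ) ≤ Real.exp (-(49 / 50 : ℝ)) := by
  have h := Real.exp_bound (x := -(49 / 50 : ℝ)) (by norm_num [abs_of_pos])
    (n := 10) (by norm_num)
  rw [abs_le] at h
  simp only [Finset.sum_range_succ, Finset.sum_range_zero, Nat.factorial] at h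
  norm_num at h ⊢
  linarith [h.1]

lemma ex5 : (36787 / 100000 : ℝ) ≤ Real.exp (-(1 : ℝ)) := by
  have h := Real.exp_bound (x := -(1 : ℝ)) (by norm_num [abs_of_pos])
    (n := 10) (by norm_num)
  rw [abs_le] at h
  simp only [Finset.sum_range_succ, Finset.sum_range_zero, Nat.factorial] at h
  norm_num at h ⊢
  linarith [h.1]

end EQR_

open EQR_ in
theorem eqr_proof (hP : Stmt_PAR) : Stmt_EQR := by
  intro a s ha has hs
  have key : 0 ≤ 985 / 10000 * (s - lm) ^ 2 + a * br a s (Kh a) := by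
    unfold Kh st
    split_ifs with g1 g2 g3 g4
    · exact discB hP a s _ (3 / 5) ((54881 / 100000 : ℝ)) ha has hs (by norm_num) (by norm_num) (by norm_num)
        (by norm_num) (by norm_num) ex1 (by linarith)
        (be_nonneg _ _ _ _ ha (has.trans hs) (by norm_num) (by norm_num) (by norm_num)
          (by unfold x0; linarith) (by unfold x0; nlinarith))
        (c1 a (by linarith) (by linarith))
    · have g1' := not_lt.1 g1
      exact discB hP a s _ (18 / 25) ((1947 / 4000 : ℝ)) ha has hs (by norm_num) (by norm_num) (by norm_num)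
        (by norm_num) (by norm_num) ex2 (by linarith)
        (be_nonneg _ _ _ _ ha (has.trans hs) (by norm_num) (by norm_num) (by norm_num)
          (by unfold x0; linarith) (by unfold x0; nlinarith))
        (c2 a (by linarith) (by linarith))
    · have g2' := not_lt.1 g2
      exact discB hP a s _ (87 / 100) ((8379 / 20000 : ℝ)) ha has hs (by norm_num) (by norm_num) (by norm_num)
        (by norm_num) (by norm_num) ex3 (by linarith)
        (be_nonneg _ _ _ _ ha (has.trans hs) (by norm_num) (by norm_num) (by norm_num)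
          (by unfold x0; linarith) (by unfold x0; nlinarith))
        (c3 a (by linarith) (by linarith))
    · have g3' := not_lt.1 g3
      rcases le_total a (19 / 100) with g5 | g5
      · exact discB hP a s _ (49 / 50) ((37531 / 100000 : ℝ)) ha has hs (by norm_num) (by norm_num) (by norm_num)
          (by norm_num) (by norm_num) ex4 (by linarith)
          (be_nonneg _ _ _ _ ha (has.trans hs) (by norm_num) (by norm_num) (by norm_num)
            (by unfold x0; linarith) (by unfold x0; nlinarith))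
          (c4 a (by linarith) (by linarith))
      · exact endB hP a s _ ((36787 / 100000 : ℝ)) ha has hs (by norm_num) (by norm_num) (by norm_num) ex5
          (c5a a (by linarith) (by linarith)) (c5b a (by linarith) (by linarith))
    · have g4' := not_lt.1 g4
      exact endB hP a s _ ((36787 / 100000 : ℝ)) ha has hs (by norm_num) (by norm_num) (by norm_num) ex5
        (c6a a (by linarith) (by linarith)) (c6b a (by linarith) (has.trans hs))
  exact key

end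

end Pool.Agent.CGS
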