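import Pool.Agent.CGS.Stmts

/-! Module EVX: evaluation of the final lower bound -/

set_option autoImplicit false

open Finset Pool.Agent.CGM
open scoped Classical

namespace Pool.Agent.CGS

namespace EVX_

/-- a sum over `range B` of a function supported on `range w` -/
lemma sum_ite_lt {B w : ℕ} (h : w ≤ B) (f : ℕ → ℝ) :
    ∑ θ ∈ range B, (if θ < w then f θ else 0) = ∑ θ ∈ range w, f θ := by
  rw [← Finset.sum_filter]
  congr 1
  ext θ
  simp only [mem_filter, mem_range]
  omega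

lemma lm_lt : lm < 6 / 10 := by
  by_contra h
  push Not at h
  have h1 : Real.exp (-lm) ≤ Real.exp (-(6 / 10)) := Real.exp_le_exp.2 (by linarith)
  have h2 : (1 : ℝ) + 6 / 10 + (6 / 10) ^ 2 / 2 ≤ Real.exp (6 / 10) :=
    Real.quadratic_le_exp_of_nonneg (by norm_num)
  have h3 : Real.exp (-(6 / 10)) * Real.exp (6 / 10) = 1 := by
    rw [← Real.exp_add]; norm_num
  have h4 := lm_eq
  have h5 : 6 / 10 ≤ Real.exp (-(6 / 10)) := by linarith
  have h6 : (6 / 10 : ℝ) * Real.exp (6 / 10) ≤ 1 := by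
    rw [← h3]
    exact mul_le_mul_of_nonneg_right h5 (Real.exp_pos _).le
  have h7 : (6 / 10 : ℝ) * (1 + 6 / 10 + (6 / 10) ^ 2 / 2) ≤ 1 :=
    le_trans (mul_le_mul_of_nonneg_left h2 (by norm_num)) h6
  norm_num at h7

lemma vp_nonneg : 0 ≤ vp := by
  have h1 := lm_lt
  have h0 := lm_pos
  unfold vp
  apply div_nonneg _ (by positivity)
  have : lm ^ 2 ≤ (6 / 10) ^ 2 := pow_le_pow_left₀ h0.le h1.le 2
  norm_num at this
  linarith

end EVX_

open EVX_

theorem evx_proof (h3 : Stmt_NTX) : Stmt_EVX := by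
  intro n M B A w β hA hM hw hβ
  obtain ⟨hA0, hArow, hAcol⟩ := hA
  have hMpos : (0 : ℝ) < M := by exact_mod_cast hM
  have hM0 : (M : ℝ) ≠ 0 := hMpos.ne'
  have hA1 : ∀ k j, A k j ≤ 1 := by
    intro k j
    rw [← hArow k]
    exact Finset.single_le_sum (f := fun j => A k j) (fun i _ => hA0 k i) (mem_univ j)
  obtain ⟨e, he⟩ : ∃ e : Fin n → Fin n → Fin M → ℕ → ℝ, e = fun j k t θ =>
    up + rh (A k j) * A k j + vp * (1 - β k t θ) := ⟨_, rfl⟩
  obtain ⟨c, hc⟩ : ∃ c : Fin n → ℕ → Fin n → Fin M → ℝ, c = fun j θ k t =>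
    if θ < w k j then up + rh (A k j) * A k j + vp * (1 - β k t (w k j - 1 - θ)) else 0 :=
    ⟨_, rfl⟩
  -- Jensen
  have hJ : ∀ j θ, ∑ k, ∑ t, A k j / M * (1 - Real.exp (-c j θ k t)) ≤
      1 - Real.exp (-∑ k, ∑ t, A k j / M * c j θ k t) := by
    intro j θ
    have hl0 : ∀ i ∈ (univ : Finset (Fin n × Fin M)), 0 ≤ A i.1 j / M :=
      fun i _ => div_nonneg (hA0 _ _) hMpos.le
    have hl1 : ∑ i ∈ (univ : Finset (Fin n × Fin M)), A i.1 j / M = 1 := by
      rw [Fintype.sum_prod_type]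
      have : ∀ k, ∑ _t : Fin M, A k j / M = A k j := by
        intro k
        rw [Finset.sum_const, Finset.card_univ, Fintype.card_fin, nsmul_eq_mul]
        field_simp
      simp only [this]
      exact hAcol j
    have h4 := convexOn_exp.map_sum_le hl0 hl1 (p := fun i : Fin n × Fin M => -c j θ i.1 i.2)
      (fun _ _ => Set.mem_univ _)
    simp only [smul_eq_mul] at h4
    have h5 : ∑ i : Fin n × Fin M, A i.1 j / M * (1 - Real.exp (-c j θ i.1 i.2)) =
        1 - ∑ i : Fin n × Fin M, A i.1 j / M * Real.exp (-c j θ i.1 i.2) := by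
      simp only [mul_sub, mul_one]
      rw [Finset.sum_sub_distrib, hl1]
    have h6 : ∑ i : Fin n × Fin M, A i.1 j / M * -c j θ i.1 i.2 =
        -∑ i : Fin n × Fin M, A i.1 j / M * c j θ i.1 i.2 := by
      rw [← Finset.sum_neg_distrib]
      exact Finset.sum_congr rfl fun i _ => by ring
    rw [h6] at h4
    have h7 : ∑ i : Fin n × Fin M, A i.1 j / M * (1 - Real.exp (-c j θ i.1 i.2)) ≤
        1 - Real.exp (-∑ i : Fin n × Fin M, A i.1 j / M * c j θ i.1 i.2) := by
      rw [h5]; linarith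
    rw [Fintype.sum_prod_type, Fintype.sum_prod_type] at h7
    exact h7
  -- the first sum
  have hS1 : ∑ k, ∑ t : Fin M, ∑ j, A k j / M *
      (∑ θ ∈ range (w k j), (1 - Real.exp (-(e j k t θ)))) ≤
      ∑ j, ∑ θ ∈ range B, (1 - Real.exp (-∑ k, ∑ t, A k j / M * c j θ k t)) := by
    have e1 : ∑ k, ∑ t : Fin M, ∑ j, A k j / M *
        (∑ θ ∈ range (w k j), (1 - Real.exp (-(e j k t θ)))) =
        ∑ j, ∑ θ ∈ range B, ∑ k, ∑ t, A k j / M * (1 - Real.exp (-c j θ k t)) := by
      have e2 : ∀ (j k : Fin n) (t : Fin M), ∑ θ ∈ range B, A k j / M * (1 - Real.exp (-c j θ k t)) =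
          A k j / M * (∑ θ ∈ range (w k j), (1 - Real.exp (-(e j k t θ)))) := by
        intro j k t
        rw [← Finset.mul_sum]
        congr 1
        rw [← Finset.sum_range_reflect
          (fun θ => 1 - Real.exp (-(e j k t θ))) (w k j), ← sum_ite_lt (hw k j)]
        apply Finset.sum_congr rfl
        intro θ _
        rw [hc, he]
        dsimp only
        split_ifs
        · rfl
        · simp
      have e3 : ∀ j, ∑ θ ∈ range B, ∑ k, ∑ t, A k j / M * (1 - Real.exp (-c j θ k t)) =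
          ∑ k, ∑ t : Fin M, A k j / M *
            (∑ θ ∈ range (w k j), (1 - Real.exp (-(e j k t θ)))) := by
        intro j
        rw [Finset.sum_comm]
        apply Finset.sum_congr rfl
        intro k _
        rw [Finset.sum_comm]
        apply Finset.sum_congr rfl
        intro t _
        exact e2 j k t
      simp only [e3]
      rw [Finset.sum_comm]
      rw [Finset.sum_comm (f := fun j k => ∑ t : Fin M, A k j / M *
            (∑ θ ∈ range (w k j), (1 - Real.exp (-(e j k t θ)))))]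
      rw [Finset.sum_comm]
      apply Finset.sum_congr rfl
      intro k _
      rw [Finset.sum_comm]
    rw [e1]
    apply Finset.sum_le_sum
    intro j _
    apply Finset.sum_le_sum
    intro θ _
    exact hJ j θ
  -- the squares
  have hv0 : (0 : ℝ) ≤ vp / 2 := by have := vp_nonneg; linarith
  have hS2 : ∀ (k : Fin n) (t : Fin M), ∑ j, A k j * (∑ θ ∈ range (w k j), (β k t θ) ^ 2) ≤
      ∑ θ ∈ range B, (β k t θ) ^ 2 := by
    intro k t
    have e1 : ∑ j, A k j * (∑ θ ∈ range (w k j), (β k t θ) ^ 2) =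
        ∑ θ ∈ range B, (∑ j, A k j * (if θ < w k j then 1 else 0)) * (β k t θ) ^ 2 := by
      simp only [Finset.sum_mul]
      rw [Finset.sum_comm]
      apply Finset.sum_congr rfl
      intro j _
      rw [← sum_ite_lt (hw k j), Finset.mul_sum]
      apply Finset.sum_congr rfl
      intro θ _
      split_ifs <;> ring
    rw [e1]
    apply Finset.sum_le_sum
    intro θ _
    have h4 : ∑ j, A k j * (if θ < w k j then (1 : ℝ) else 0) ≤ 1 := by
      refine le_trans (Finset.sum_le_sum (g := fun j => A k j) (fun j _ => ?_)) (hArow k).le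
      have := hA0 k j
      split_ifs
      · linarith
      · linarith
    have := mul_le_mul_of_nonneg_right h4 (sq_nonneg (β k t θ))
    linarith
  -- the main term, for fixed k and t
  have hmain : ∀ (k : Fin n) (t : Fin M),
      1 / (M : ℝ) * ((2 * (1 - lm) - lm ^ 2) * ∑ j, A k j * (w k j : ℝ)) ≤
      ∑ j, A k j / M * (∑ θ ∈ range (w k j), (1 - Real.exp (-(e j k t θ)))) +
      1 / (M : ℝ) * (vp / 2 * ∑ θ ∈ range B, (β k t θ) ^ 2
          - vp / 2 * lm ^ 2 * ∑ j, A k j ^ 2 * (w k j : ℝ)) := by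
    intro k t
    have g1 : ∀ j, A k j * ((2 * (1 - lm) - lm ^ 2) * (w k j : ℝ)) ≤
        A k j * (∑ θ ∈ range (w k j), (1 - Real.exp (-(e j k t θ)))) +
        vp / 2 * (A k j * (∑ θ ∈ range (w k j), (β k t θ) ^ 2)) -
        vp / 2 * lm ^ 2 * (A k j ^ 2 * (w k j : ℝ)) := by
      intro j
      have g5 : ∑ θ ∈ range (w k j), (2 * (1 - lm) - lm ^ 2) ≤
          ∑ θ ∈ range (w k j), ((1 - Real.exp (-(e j k t θ))) + vp / 2 * (β k t θ) ^ 2
            - vp / 2 * lm ^ 2 * A k j) := by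
        refine Finset.sum_le_sum (fun θ _ => ?_)
        rw [he]
        exact h3 (A k j) (β k t θ) (hA0 k j) (hA1 k j) (hβ k t θ).1 (hβ k t θ).2
      rw [Finset.sum_const, Finset.card_range, nsmul_eq_mul, Finset.sum_sub_distrib,
        Finset.sum_add_distrib, Finset.sum_const, Finset.card_range, nsmul_eq_mul,
        ← Finset.mul_sum] at g5
      have g6 := mul_le_mul_of_nonneg_left g5 (hA0 k j)
      have g7 : A k j * ((2 * (1 - lm) - lm ^ 2) * (w k j : ℝ)) =
          A k j * ((w k j : ℝ) * (2 * (1 - lm) - lm ^ 2)) := by ring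
      rw [g7]
      refine le_trans g6 (le_of_eq ?_)
      ring
    have g2 := Finset.sum_le_sum (fun j (_ : j ∈ (univ : Finset (Fin n))) => g1 j)
    rw [Finset.sum_sub_distrib, Finset.sum_add_distrib, ← Finset.mul_sum, ← Finset.mul_sum] at g2
    have g3 := mul_le_mul_of_nonneg_left (hS2 k t) hv0
    have g4 : (2 * (1 - lm) - lm ^ 2) * ∑ j, A k j * (w k j : ℝ) ≤
        ∑ j, A k j * (∑ θ ∈ range (w k j), (1 - Real.exp (-(e j k t θ)))) +
        (vp / 2 * ∑ θ ∈ range B, (β k t θ) ^ 2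
          - vp / 2 * lm ^ 2 * ∑ j, A k j ^ 2 * (w k j : ℝ)) := by
      have g8 : (2 * (1 - lm) - lm ^ 2) * ∑ j, A k j * (w k j : ℝ) =
          ∑ j, A k j * ((2 * (1 - lm) - lm ^ 2) * (w k j : ℝ)) := by
        rw [Finset.mul_sum]
        exact Finset.sum_congr rfl fun j _ => by ring
      rw [g8]
      linarith
    have g9 := mul_le_mul_of_nonneg_left g4 (by positivity : (0 : ℝ) ≤ 1 / (M : ℝ))
    rw [mul_add] at g9
    have g10 : 1 / (M : ℝ) * ∑ j, A k j * (∑ θ ∈ range (w k j), (1 - Real.exp (-(e j k t θ)))) =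
        ∑ j, A k j / M * (∑ θ ∈ range (w k j), (1 - Real.exp (-(e j k t θ)))) := by
      rw [Finset.mul_sum]
      exact Finset.sum_congr rfl fun j _ => by ring
    rw [g10] at g9
    exact g9
  -- put together
  have hconst : ∀ C : ℝ, ∑ k, ∑ _t : Fin M, 1 / (M : ℝ) * (C * ∑ j, A k j * (w k j : ℝ)) =
      C * ∑ k, ∑ j, A k j * (w k j : ℝ) := by
    intro C
    rw [Finset.mul_sum]
    apply Finset.sum_congr rfl
    intro k _
    rw [Finset.sum_const, Finset.card_univ, Fintype.card_fin, nsmul_eq_mul]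
    field_simp
  have hsum := Finset.sum_le_sum (fun k (_ : k ∈ (univ : Finset (Fin n))) =>
    Finset.sum_le_sum (fun t (_ : t ∈ (univ : Finset (Fin M))) => hmain k t))
  rw [hconst] at hsum
  simp only [Finset.sum_add_distrib] at hsum
  have hsplit : ∑ k, ∑ t : Fin M, 1 / (M : ℝ) * (vp / 2 * ∑ θ ∈ range B, (β k t θ) ^ 2
          - vp / 2 * lm ^ 2 * ∑ j, A k j ^ 2 * (w k j : ℝ)
          - 10 / M * ∑ j, A k j * (w k j : ℝ)) =
      ∑ k, ∑ t : Fin M, 1 / (M : ℝ) * (vp / 2 * ∑ θ ∈ range B, (β k t θ) ^ 2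
          - vp / 2 * lm ^ 2 * ∑ j, A k j ^ 2 * (w k j : ℝ)) -
      10 / M * ∑ k, ∑ j, A k j * (w k j : ℝ) := by
    rw [← hconst, ← Finset.sum_sub_distrib]
    apply Finset.sum_congr rfl
    intro k _
    rw [← Finset.sum_sub_distrib]
    apply Finset.sum_congr rfl
    intro t _
    ring
  rw [hsplit, sub_mul]
  rw [hc] at hS1
  dsimp only at hS1
  linarith

end Pool.Agent.CGS
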