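import Pool.Agent.CGS.Stmts
import Pool.Agent.CGM.FINE

/-!
# Assembly of the project CGS, part A: rates of the real items
-/

set_option autoImplicit false
set_option linter.unusedSectionVars false

open Finset Pool.Agent.CGM Pool.Agent.CGM.FIN_
open scoped Classical

namespace Pool.Agent.CGS

noncomputable section

namespace FIN_

variable {n M B : ℕ}

/-- the time parameter of a block -/
def sb (b : Blk n M) : ℝ := ((M : ℝ) - (b.2 : ℕ)) / M

/-- the rates of the real items (times `M`) -/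
def rateR (A : Fin n → Fin n → ℝ) (b : Blk n M) : Fin n ⊕ (Fin n × Fin n) → ℝ
  | Sum.inl j => R1 (A b.1 j) (sb b)
  | Sum.inr (i, j) => if i = j then 0 else vp / 2 * (A b.1 i * A b.1 j)

/-- the probabilities of the real items -/
def piS (A : Fin n → Fin n → ℝ) (b : Blk n M) (κ : Fin n ⊕ (Fin n × Fin n)) : ℝ :=
  1 - Real.exp (-(rateR A b κ / M))

lemma sb_nonneg (b : Blk n M) : 0 ≤ sb b := by
  unfold sb
  have ht0 : ((b.2 : ℕ) : ℝ) ≤ (M : ℝ) := by exact_mod_cast b.2.2.le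
  exact div_nonneg (by linarith) (Nat.cast_nonneg M)

lemma sb_le_one (b : Blk n M) : sb b ≤ 1 := by
  unfold sb
  have hM : 0 < M := lt_of_le_of_lt (Nat.zero_le _) b.2.2
  have hMr : (0 : ℝ) < (M : ℝ) := by exact_mod_cast hM
  rw [div_le_one hMr]
  have : (0 : ℝ) ≤ ((b.2 : ℕ) : ℝ) := Nat.cast_nonneg _
  linarith

lemma zc_bd (a : ℝ) : 0 < zc a ∧ zc a ≤ 7166 / 10000 := by
  unfold zc st
  split_ifs <;> norm_num

lemma rh_bd (a : ℝ) : 0 < rh a ∧ rh a ≤ 2465 / 10000 := by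
  unfold rh st
  split_ifs <;> norm_num

lemma fz_bd (a s : ℝ) (h0 : 0 ≤ s) (h1 : s ≤ 1) : 0 ≤ fz a s ∧ fz a s ≤ 253 / 100 := by
  unfold fz
  obtain ⟨z0, z1⟩ := zc_bd a
  have h2 : zc a * s ≤ 7166 / 10000 := by nlinarith
  have h3 : 0 ≤ zc a * s := mul_nonneg z0.le h0
  constructor
  · exact div_nonneg h3 (by linarith)
  · rw [div_le_iff₀ (by linarith)]
    nlinarith

section par
variable (hP : Stmt_PAR)
include hP

lemma up_bd : 267 / 1000 ≤ up ∧ up ≤ 268 / 1000 := by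
  obtain ⟨h1, h2, h3, h4⟩ := hP
  unfold up
  constructor <;> nlinarith

lemma R1_bd (a s : ℝ) (ha : 0 ≤ a) (ha1 : a ≤ 1) (h0 : 0 ≤ s) (h1 : s ≤ 1) :
    0 ≤ R1 a s ∧ R1 a s ≤ 17 / 10 * a := by
  obtain ⟨u1, u2⟩ := up_bd hP
  obtain ⟨p1, p2, p3, p4⟩ := hP
  obtain ⟨r1, r2⟩ := rh_bd a
  obtain ⟨f1, f2⟩ := fz_bd a s h0 h1
  have q1 : 0 ≤ vp * (1 - lm) := mul_nonneg (by linarith) (by linarith)
  have q2 : vp * (1 - lm) ≤ 3 / 10 := by nlinarith
  have q3 : 0 ≤ vp / 2 * fz a s := mul_nonneg (by linarith) f1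
  have q4 : vp / 2 * fz a s ≤ 875 / 1000 := by nlinarith
  have q5 : a ^ 2 ≤ a := by nlinarith
  have q6 : 0 ≤ a ^ 2 := sq_nonneg a
  unfold R1
  constructor
  · have : 0 ≤ up * a := mul_nonneg (by linarith) ha
    positivity
  · have q7 : rh a * a ^ 2 + (vp * (1 - lm) + vp / 2 * fz a s) * a ^ 2
        = (rh a + vp * (1 - lm) + vp / 2 * fz a s) * a ^ 2 := by ring
    have q8 : (rh a + vp * (1 - lm) + vp / 2 * fz a s) * a ^ 2 ≤ 1422 / 1000 * a := by
      calc (rh a + vp * (1 - lm) + vp / 2 * fz a s) * a ^ 2 ≤ 1422 / 1000 * a ^ 2 :=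
            mul_le_mul_of_nonneg_right (by linarith) q6
        _ ≤ 1422 / 1000 * a := by linarith
    nlinarith

lemma rateR_bd {A : Fin n → Fin n → ℝ} (hA : DS A) (b : Blk n M)
    (κ : Fin n ⊕ (Fin n × Fin n)) : 0 ≤ rateR A b κ ∧ rateR A b κ ≤ 2 := by
  rcases κ with j | ⟨i, j⟩
  · have h3 := hA.1 b.1 j
    have h4 := DS.le_one hA b.1 j
    have h := R1_bd hP (A b.1 j) (sb b) h3 h4 (sb_nonneg b) (sb_le_one b)
    exact ⟨h.1, h.2.trans (by linarith)⟩
  · show 0 ≤ (if i = j then 0 else vp / 2 * (A b.1 i * A b.1 j)) ∧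
      (if i = j then 0 else vp / 2 * (A b.1 i * A b.1 j)) ≤ 2
    have h1 := hA.1 b.1 i
    have h2 := DS.le_one hA b.1 i
    have h3 := hA.1 b.1 j
    have h4 := DS.le_one hA b.1 j
    obtain ⟨p1, p2, p3, p4⟩ := hP
    by_cases h : i = j
    · rw [if_pos h]
      exact ⟨le_refl _, by norm_num⟩
    · rw [if_neg h]
      have h5 : A b.1 i * A b.1 j ≤ 1 := by nlinarith
      have h6 : 0 ≤ A b.1 i * A b.1 j := mul_nonneg h1 h3
      constructor
      · positivity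
      · nlinarith

lemma piS_nonneg {A : Fin n → Fin n → ℝ} (hA : DS A) (b : Blk n M)
    (κ : Fin n ⊕ (Fin n × Fin n)) : 0 ≤ piS A b κ := by
  unfold piS
  have h := (rateR_bd hP hA b κ).1
  have : Real.exp (-(rateR A b κ / M)) ≤ 1 := by
    apply Real.exp_le_one_iff.2
    have := div_nonneg h (Nat.cast_nonneg M)
    linarith
  linarith

lemma piS_le_one {A : Fin n → Fin n → ℝ} (b : Blk n M)
    (κ : Fin n ⊕ (Fin n × Fin n)) : piS A b κ ≤ 1 := by
  unfold piS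
  have := Real.exp_pos (-(rateR A b κ / M))
  linarith

lemma piS_le {A : Fin n → Fin n → ℝ} (b : Blk n M)
    (κ : Fin n ⊕ (Fin n × Fin n)) : piS A b κ ≤ rateR A b κ / M := by
  unfold piS
  have := Real.add_one_le_exp (-(rateR A b κ / M))
  linarith

lemma piS_ge {A : Fin n → Fin n → ℝ} (hA : DS A) (b : Blk n M)
    (κ : Fin n ⊕ (Fin n × Fin n)) : (1 - 1 / (M : ℝ)) * (rateR A b κ / M) ≤ piS A b κ := by
  have hM : 0 < M := lt_of_le_of_lt (Nat.zero_le _) b.2.2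
  have hMr : (0 : ℝ) < (M : ℝ) := by exact_mod_cast hM
  obtain ⟨h0, h1⟩ := rateR_bd hP hA b κ
  unfold piS
  set z := rateR A b κ / M with hz
  have hz0 : 0 ≤ z := div_nonneg h0 hMr.le
  have hz1 : z ≤ 2 * (1 / (M : ℝ)) := by
    rw [hz, div_le_iff₀ hMr]
    have : 2 * (1 / (M : ℝ)) * M = 2 := by field_simp
    linarith
  have h2 : Real.exp (-z) ≤ 1 - z + z ^ 2 / 2 := by
    have h3 := Real.quadratic_le_exp_of_nonneg hz0
    have h4 : 0 < 1 + z + z ^ 2 / 2 := by positivity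
    rw [Real.exp_neg]
    have h5 : (Real.exp z)⁻¹ ≤ (1 + z + z ^ 2 / 2)⁻¹ := inv_anti₀ h4 h3
    refine h5.trans ?_
    rw [inv_le_iff_one_le_mul₀ h4]
    nlinarith [sq_nonneg (z ^ 2), sq_nonneg z]
  nlinarith

/-- total rate of the real items of a block -/
lemma sum_rateR_le {A : Fin n → Fin n → ℝ} (hA : DS A) (b : Blk n M) :
    ∑ j, rateR A b (Sum.inl j) + ∑ i, ∑ j, rateR A b (Sum.inr (i, j)) ≤ 3 := by
  have e1 : ∑ j, rateR A b (Sum.inl j) ≤ 17 / 10 := by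
    calc ∑ j, rateR A b (Sum.inl j) ≤ ∑ j, 17 / 10 * A b.1 j :=
          Finset.sum_le_sum (fun j _ => (R1_bd hP (A b.1 j) (sb b) (hA.1 _ _)
            (DS.le_one hA _ _) (sb_nonneg b) (sb_le_one b)).2)
      _ = 17 / 10 := by rw [← Finset.mul_sum, hA.2.1 b.1, mul_one]
  have e2 : ∑ i, ∑ j, rateR A b (Sum.inr (i, j)) ≤ vp / 2 := by
    have e3 : ∀ i j, rateR A b (Sum.inr (i, j))
        = vp / 2 * (if i = j then 0 else A b.1 i * A b.1 j) := by
      intro i j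
      show (if i = j then 0 else vp / 2 * (A b.1 i * A b.1 j)) = _
      by_cases h : i = j <;> simp [h]
    simp_rw [e3, ← Finset.mul_sum]
    have e4 := sum_sq_add_off _ (hA.2.1 b.1)
    have e5 : 0 ≤ ∑ j, A b.1 j ^ 2 := Finset.sum_nonneg (fun j _ => sq_nonneg _)
    obtain ⟨p1, p2, p3, p4⟩ := hP
    have e6 : ∑ i, ∑ j, (if i = j then 0 else A b.1 i * A b.1 j) ≤ 1 := by linarith
    nlinarith
  obtain ⟨p1, p2, p3, p4⟩ := hP
  linarith

end par

/-- the total rate weighted gain of the real items of a block -/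
lemma real_gainS (A : Fin n → Fin n → ℝ) (b : Blk n M) (g : Fin n → Fin n → ℝ) :
    ∑ j, rateR A b (Sum.inl j) * g j j + ∑ i, ∑ j, rateR A b (Sum.inr (i, j)) * g i j
      = ∑ j, ((up + rh (A b.1 j) * A b.1 j) * A b.1 j
          + (vp * (1 - lm) + vp / 2 * fz (A b.1 j) (sb b)) * A b.1 j ^ 2) * g j j
        + vp / 2 * ∑ i, ∑ j ∈ univ.erase i, A b.1 i * A b.1 j * g i j := by
  congr 1
  · refine Finset.sum_congr rfl (fun j _ => ?_)
    show R1 (A b.1 j) (sb b) * g j j = _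
    unfold R1
    ring
  · rw [Finset.mul_sum]
    refine Finset.sum_congr rfl (fun i _ => ?_)
    rw [← Finset.sum_erase_add _ _ (Finset.mem_univ i)]
    have h0 : rateR A b (Sum.inr (i, i)) = 0 := by
      show (if i = i then 0 else vp / 2 * (A b.1 i * A b.1 i)) = 0
      rw [if_pos rfl]
    rw [h0, zero_mul, add_zero, Finset.mul_sum]
    refine Finset.sum_congr rfl (fun j hj => ?_)
    have hij : i ≠ j := (Finset.ne_of_mem_erase hj).symm
    show (if i = j then 0 else vp / 2 * (A b.1 i * A b.1 j)) * g i j = _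
    rw [if_neg hij]
    ring

end FIN_

end

end Pool.Agent.CGS
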