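import Pool.Agent.CGS.FINA
import Pool.Agent.CGM.CPS

/-!
# Assembly of the project CGS, part B: from rows to small items
-/

set_option autoImplicit false
set_option linter.unusedSectionVars false

open Finset Pool.Agent.CGM Pool.Agent.CGM.FIN_
open scoped Classical

namespace Pool.Agent.CGS

noncomputable section

namespace FIN_

variable {n M B : ℕ}

/-- the vertices touched by an item of a row -/
def tch : Lam n M B → Finset (Fin n)
  | Sum.inl _ => ∅
  | Sum.inr (_, Sum.inl (Sum.inl j0)) => {j0}
  | Sum.inr (_, Sum.inl (Sum.inr (i0, j0))) => {i0, j0}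
  | Sum.inr (_, Sum.inr _) => ∅

lemma sum_rowI (k : Fin n) (g : Lam n M B → ℝ) :
    ∑ e ∈ rowI M B k, g e = ∑ t : Fin M, ∑ e ∈ realI B (k, t), g e := by
  unfold rowI
  rw [Finset.sum_biUnion]
  intro t _ t' _ htt'
  apply realI_disj
  intro h
  simp only [Prod.mk.injEq, true_and] at h
  exact htt' h

/-- the rate as a function of the item -/
def rtf (A : Fin n → Fin n → ℝ) : Lam n M B → ℝ
  | Sum.inr (b, Sum.inl κ) => rateR A b κ / M
  | _ => 0

lemma kil_single (k : Fin n) (t : Fin M) (D : Finset (Fin n)) (j j' : Fin n) :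
    Kil tch D j (Sum.inr ((k, t), Sum.inl (Sum.inl j')) : Lam n M B) ↔ j = j' := by
  unfold Kil Inn
  show (j ∈ ({j'} : Finset (Fin n)) ∧ ¬ (({j'} : Finset (Fin n)) ⊆ D ∧
    2 ≤ ({j'} : Finset (Fin n)).card)) ↔ j = j'
  rw [Finset.mem_singleton, Finset.card_singleton]
  constructor
  · exact fun h => h.1
  · exact fun h => ⟨h, by rintro ⟨_, h2⟩; omega⟩

lemma kil_pair (k : Fin n) (t : Fin M) (D : Finset (Fin n)) (j i' j' : Fin n) (hj : j ∈ D)
    (hne : i' ≠ j') (h : Kil tch D j (Sum.inr ((k, t), Sum.inl (Sum.inr (i', j'))) : Lam n M B)) :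
    (j = i' ∧ j' ∉ D) ∨ (j = j' ∧ i' ∉ D) := by
  unfold Kil Inn at h
  have h' : j ∈ ({i', j'} : Finset (Fin n)) ∧ ¬ (({i', j'} : Finset (Fin n)) ⊆ D ∧
    2 ≤ ({i', j'} : Finset (Fin n)).card) := h
  rw [Finset.card_pair hne, Finset.mem_insert, Finset.mem_singleton,
    Finset.insert_subset_iff, Finset.singleton_subset_iff] at h'
  obtain ⟨h1, h2⟩ := h'
  have h3 : ¬ (i' ∈ D ∧ j' ∈ D) := fun hh => h2 ⟨hh, le_refl _⟩
  rcases h1 with h1 | h1
  · left
    refine ⟨h1, fun hh => h3 ⟨?_, hh⟩⟩
    rw [← h1]
    exact hj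
  · right
    refine ⟨h1, fun hh => h3 ⟨hh, ?_⟩⟩
    rw [← h1]
    exact hj

/-- rates of the killers in one block -/
lemma kill_block (hP : Stmt_PAR) {A : Fin n → Fin n → ℝ} (hA : DS A) (k : Fin n) (t : Fin M)
    (D : Finset (Fin n)) (j : Fin n) (hj : j ∈ D) :
    ∑ e ∈ realI B (k, t), (if Kil tch D j e then rtf A e else 0) ≤
      (R1 (A k j) (sb (k, t)) + vp * A k j * (1 - ∑ i ∈ D, A k i)) / M := by
  have hM : 0 < M := lt_of_le_of_lt (Nat.zero_le _) t.2
  have hMr : (0 : ℝ) < (M : ℝ) := by exact_mod_cast hM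
  have hv : 0 ≤ vp := by have := hP.2.2.1; linarith
  rw [sum_realI]
  have h1 : ∑ j', (if Kil tch D j (Sum.inr ((k, t), Sum.inl (Sum.inl j')) : Lam n M B)
      then rtf A (Sum.inr ((k, t), Sum.inl (Sum.inl j')) : Lam n M B) else 0)
      = R1 (A k j) (sb (k, t)) / M := by
    rw [Finset.sum_eq_single j]
    · rw [if_pos ((kil_single k t D j j).2 rfl)]
      rfl
    · intro j' _ hj'
      rw [if_neg (fun h => hj' ((kil_single k t D j j').1 h).symm)]
    · intro h
      exact absurd (Finset.mem_univ _) h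
  have hDc : ∑ i, (if i ∈ D then 0 else A k i) = 1 - ∑ i ∈ D, A k i := by
    have e1 : ∑ i ∈ D, A k i = ∑ i, (if i ∈ D then A k i else 0) := by
      rw [Finset.sum_ite_mem, Finset.univ_inter]
    rw [← hA.2.1 k, e1, ← Finset.sum_sub_distrib]
    refine Finset.sum_congr rfl (fun i _ => ?_)
    by_cases h : i ∈ D <;> simp [h]
  have h2 : ∑ i', ∑ j', (if Kil tch D j (Sum.inr ((k, t), Sum.inl (Sum.inr (i', j'))) : Lam n M B)
      then rtf A (Sum.inr ((k, t), Sum.inl (Sum.inr (i', j'))) : Lam n M B) else 0)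
      ≤ vp * A k j * (1 - ∑ i ∈ D, A k i) / M := by
    calc _ ≤ ∑ i', ∑ j', ((if i' = j then (if j' ∈ D then 0 else vp / 2 * (A k j * A k j') / M)
              else 0)
            + (if j' = j then (if i' ∈ D then 0 else vp / 2 * (A k i' * A k j) / M) else 0)) := by
          refine Finset.sum_le_sum (fun i' _ => Finset.sum_le_sum (fun j' _ => ?_))
          have hn : ∀ i j, 0 ≤ vp / 2 * (A k i * A k j) / M := by
            intro i j
            have := hA.1 k i
            have := hA.1 k j
            positivity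
          have p1 : 0 ≤ (if i' = j then (if j' ∈ D then 0 else vp / 2 * (A k j * A k j') / M)
              else 0) := by
            split_ifs
            · exact le_refl _
            · exact hn _ _
            · exact le_refl _
          have p2 : 0 ≤ (if j' = j then (if i' ∈ D then 0 else vp / 2 * (A k i' * A k j) / M)
              else 0) := by
            split_ifs
            · exact le_refl _
            · exact hn _ _
            · exact le_refl _
          by_cases h : Kil tch D j (Sum.inr ((k, t), Sum.inl (Sum.inr (i', j'))) : Lam n M B)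
          · rw [if_pos h]
            show (if i' = j' then 0 else vp / 2 * (A k i' * A k j')) / (M : ℝ) ≤ _
            by_cases hne : i' = j'
            · rw [if_pos hne, zero_div]
              linarith
            · rw [if_neg hne]
              rcases kil_pair k t D j i' j' hj hne h with ⟨h3, h4⟩ | ⟨h3, h4⟩
              · subst h3
                rw [if_pos rfl, if_neg h4]
                linarith
              · subst h3
                rw [if_pos (rfl : j = j), if_neg h4]
                linarith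
          · rw [if_neg h]
            linarith
      _ = _ := by
          simp_rw [Finset.sum_add_distrib]
          have q1 : ∑ i', ∑ j', (if i' = j then
              (if j' ∈ D then 0 else vp / 2 * (A k j * A k j') / (M : ℝ)) else 0)
              = vp / 2 * A k j * (1 - ∑ i ∈ D, A k i) / M := by
            rw [Finset.sum_eq_single j (fun i _ hi => by
              refine Finset.sum_eq_zero (fun j' _ => by rw [if_neg hi])) (by simp)]
            rw [← hDc, Finset.mul_sum, Finset.sum_div]
            refine Finset.sum_congr rfl (fun i _ => ?_)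
            rw [if_pos rfl]
            by_cases h : i ∈ D
            · simp [h]
            · simp only [h, if_false]
              ring
          have q2 : ∑ i', ∑ j', (if j' = j then
              (if i' ∈ D then 0 else vp / 2 * (A k i' * A k j) / (M : ℝ)) else 0)
              = vp / 2 * A k j * (1 - ∑ i ∈ D, A k i) / M := by
            rw [← hDc, Finset.mul_sum, Finset.sum_div]
            refine Finset.sum_congr rfl (fun i _ => ?_)
            rw [Finset.sum_ite_eq', if_pos (Finset.mem_univ _)]
            by_cases h : i ∈ D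
            · simp [h]
            · simp only [h, if_false]
              ring
          rw [q1, q2]
          ring
  rw [h1, add_div]
  exact add_le_add (le_refl _) h2

lemma inn_single (k : Fin n) (t : Fin M) (D : Finset (Fin n)) (j' : Fin n) :
    ¬ Inn tch D (Sum.inr ((k, t), Sum.inl (Sum.inl j')) : Lam n M B) := by
  unfold Inn
  show ¬ (({j'} : Finset (Fin n)) ⊆ D ∧ 2 ≤ ({j'} : Finset (Fin n)).card)
  rw [Finset.card_singleton]
  rintro ⟨_, h2⟩
  omega

lemma inn_pair (k : Fin n) (t : Fin M) (D : Finset (Fin n)) (i' j' : Fin n)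
    (h : Inn tch D (Sum.inr ((k, t), Sum.inl (Sum.inr (i', j'))) : Lam n M B)) :
    i' ∈ D ∧ j' ∈ D := by
  unfold Inn at h
  have h' : (({i', j'} : Finset (Fin n)) ⊆ D ∧ 2 ≤ ({i', j'} : Finset (Fin n)).card) := h
  rw [Finset.insert_subset_iff, Finset.singleton_subset_iff] at h'
  exact h'.1

/-- probabilities of the inner items in one block -/
lemma inn_block (hP : Stmt_PAR) {A : Fin n → Fin n → ℝ} (hA : DS A) (π : Lam n M B → ℝ)
    (hπ : ∀ b κ, π (Sum.inr (b, Sum.inl κ)) = piS A b κ) (k : Fin n) (t : Fin M)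
    (D : Finset (Fin n)) :
    ∑ e ∈ realI B (k, t), (if Inn tch D e then π e else 0) ≤
      vp / 2 * ((∑ i ∈ D, A k i) ^ 2 - ∑ i ∈ D, A k i ^ 2) / M := by
  have hM : 0 < M := lt_of_le_of_lt (Nat.zero_le _) t.2
  have hMr : (0 : ℝ) < (M : ℝ) := by exact_mod_cast hM
  have hv : 0 ≤ vp := by have := hP.2.2.1; linarith
  rw [sum_realI]
  have h1 : ∑ j', (if Inn tch D (Sum.inr ((k, t), Sum.inl (Sum.inl j')) : Lam n M B)
      then π (Sum.inr ((k, t), Sum.inl (Sum.inl j')) : Lam n M B) else 0) = 0 := by
    refine Finset.sum_eq_zero (fun j' _ => ?_)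
    rw [if_neg (inn_single k t D j')]
  rw [h1, zero_add]
  calc _ ≤ ∑ i', ∑ j', (if i' ∈ D then (if j' ∈ D then
            (if i' = j' then 0 else vp / 2 * (A k i' * A k j') / M) else 0) else 0) := by
        refine Finset.sum_le_sum (fun i' _ => Finset.sum_le_sum (fun j' _ => ?_))
        have hn : 0 ≤ vp / 2 * (A k i' * A k j') / M := by
          have := hA.1 k i'
          have := hA.1 k j'
          positivity
        by_cases h : Inn tch D (Sum.inr ((k, t), Sum.inl (Sum.inr (i', j'))) : Lam n M B)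
        · obtain ⟨h3, h4⟩ := inn_pair k t D i' j' h
          rw [if_pos h, if_pos h3, if_pos h4, hπ]
          refine (piS_le hP (A := A) (k, t) (Sum.inr (i', j'))).trans (le_of_eq ?_)
          show (if i' = j' then 0 else vp / 2 * (A k i' * A k j')) / (M : ℝ) = _
          by_cases hne : i' = j'
          · rw [if_pos hne, if_pos hne, zero_div]
          · rw [if_neg hne, if_neg hne]
        · rw [if_neg h]
          split_ifs
          · exact le_refl _
          · exact hn
          · exact le_refl _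
          · exact le_refl _
    _ = ∑ i' ∈ D, ∑ j' ∈ D, (if i' = j' then 0 else vp / 2 * (A k i' * A k j') / M) := by
        have q0 : ∀ i', ∑ j', (if i' ∈ D then (if j' ∈ D then
            (if i' = j' then 0 else vp / 2 * (A k i' * A k j') / (M : ℝ)) else 0) else 0)
            = if i' ∈ D then (∑ j' ∈ D,
              (if i' = j' then 0 else vp / 2 * (A k i' * A k j') / (M : ℝ))) else 0 := by
          intro i'
          by_cases h : i' ∈ D
          · simp only [if_pos h]
            rw [Finset.sum_ite_mem, Finset.univ_inter]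
          · simp only [if_neg h, Finset.sum_const_zero]
        rw [Finset.sum_congr rfl (fun i' _ => q0 i'), Finset.sum_ite_mem, Finset.univ_inter]
    _ = _ := by
        have q1 : ∀ i' j', (if i' = j' then 0 else vp / 2 * (A k i' * A k j') / (M : ℝ))
            = vp / 2 * (A k i' * A k j') / M -
              (if i' = j' then vp / 2 * (A k i' * A k i') / M else 0) := by
          intro i' j'
          by_cases h : i' = j'
          · subst h
            simp
          · simp [h]
        simp_rw [q1, Finset.sum_sub_distrib]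
        have q2 : ∑ i' ∈ D, ∑ j' ∈ D, (if i' = j' then vp / 2 * (A k i' * A k i') / (M : ℝ) else 0)
            = vp / 2 * (∑ i ∈ D, A k i ^ 2) / M := by
          rw [Finset.mul_sum, Finset.sum_div]
          refine Finset.sum_congr rfl (fun i hi => ?_)
          rw [Finset.sum_ite_eq, if_pos hi]
          ring
        have q3 : ∑ i' ∈ D, ∑ j' ∈ D, vp / 2 * (A k i' * A k j') / (M : ℝ)
            = vp / 2 * (∑ i ∈ D, A k i) ^ 2 / M := by
          rw [sq, Finset.sum_mul_sum, Finset.mul_sum, Finset.sum_div]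
          refine Finset.sum_congr rfl (fun i _ => ?_)
          rw [Finset.mul_sum, Finset.sum_div]
        rw [q2, q3]
        ring

lemma rowI_pro (hP : Stmt_PAR) {A : Fin n → Fin n → ℝ} (hA : DS A) (π : Lam n M B → ℝ)
    (hπ : ∀ b κ, π (Sum.inr (b, Sum.inl κ)) = piS A b κ) (k : Fin n) : Pro (rowI M B k) π := by
  intro e he
  unfold rowI at he
  rw [Finset.mem_biUnion] at he
  obtain ⟨t, _, he⟩ := he
  rw [mem_realI] at he
  obtain ⟨κ, rfl⟩ := he
  rw [hπ]
  exact ⟨piS_nonneg hP hA _ _, piS_le_one hP _ _⟩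

lemma row_step (hP : Stmt_PAR) (hOPI : Stmt_OPI) (hUPX : Stmt_UPX) (hCPX : Stmt_CPX)
    (hAVK : Stmt_AVK) (hM : 100000 ≤ M)
    {A : Fin n → Fin n → ℝ} (hA : DS A) (w : Fin n → Fin n → ℕ) (hw : ∀ k j, w k j ≤ B)
    (π : Lam n M B → ℝ)
    (hπ : ∀ b κ, π (Sum.inr (b, Sum.inl κ)) = piS A b κ) (k : Fin n) (S0 : Finset (Lam n M B))
    (hN : ∀ N, (Sum.inl (k, N) : Lam n M B) ∉ S0) :
    EB (rowI M B k) π (fun S => (opt (yw M B w) (S0 ∪ S) univ : ℝ)) ≤
      EB univ (A k) (fun N => (opt (yw M B w) (insert (Sum.inl (k, N)) S0) univ : ℝ)) := by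
  have hM0 : 0 < M := by omega
  have hMr : (0 : ℝ) < (M : ℝ) := by exact_mod_cast hM0
  have hpro : Pro (rowI M B k) π := rowI_pro hP hA π hπ k
  set x : Fin n → ℕ := fun j => w k j - pr (yw M B w) S0 j with hx
  have hxB : ∀ j, x j ≤ B := fun j => (Nat.sub_le _ _).trans (hw k j)
  have hUP := hUPX (Lam n M B) (Fin n) (yw M B w) S0 (rowI M B k) π tch x B hpro hxB (by
    intro e he j
    unfold rowI at he
    rw [Finset.mem_biUnion] at he
    obtain ⟨t, _, he⟩ := he
    rw [mem_realI] at he
    obtain ⟨κ, rfl⟩ := he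
    rcases κ with j0 | ⟨i0, j0⟩
    · show (if j = j0 then w k j else 0) - pr (yw M B w) S0 j ≤
        if j ∈ ({j0} : Finset (Fin n)) then x j else 0
      by_cases h : j = j0
      · rw [if_pos h, if_pos (by rw [Finset.mem_singleton]; exact h)]
      · rw [if_neg h]
        simp
    · show (if j = i0 ∨ j = j0 then w k j else 0) - pr (yw M B w) S0 j ≤
        if j ∈ ({i0, j0} : Finset (Fin n)) then x j else 0
      by_cases h : j = i0 ∨ j = j0
      · rw [if_pos h, if_pos (by rw [Finset.mem_insert, Finset.mem_singleton]; exact h)]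
      · rw [if_neg h]
        simp)
  refine hUP.trans ?_
  have h1 : ∀ N : Finset (Fin n), (opt (yw M B w) (insert (Sum.inl (k, N)) S0) univ : ℝ)
      = (opt (yw M B w) S0 univ : ℝ) + ((N.sup x : ℕ) : ℝ) := by
    intro N
    rw [hOPI (Lam n M B) (Fin n) (yw M B w) S0 (Sum.inl (k, N)) (hN N), gain_row]
    push_cast
    rfl
  have h2 : EB univ (A k) (fun N => (opt (yw M B w) (insert (Sum.inl (k, N)) S0) univ : ℝ))
      = (opt (yw M B w) S0 univ : ℝ) + EB univ (A k) (fun N => ((N.sup x : ℕ) : ℝ)) := by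
    rw [← EB_const (univ : Finset (Fin n)) (A k) (opt (yw M B w) S0 univ : ℝ), ← EB_add]
    exact EB_congr (fun _ _ => rfl) (fun N _ => h1 N)
  rw [h2]
  apply add_le_add (le_refl _)
  have hR : EB univ (A k) (fun N => ((N.sup x : ℕ) : ℝ)) =
      ∑ th ∈ range B, (1 - ∏ j ∈ univ.filter (fun j => th < x j), (1 - A k j)) := by
    rw [EB_congr (π' := A k) (F' := fun N => ∑ th ∈ range B,
      (if (N ∩ univ.filter (fun j => th < x j)).Nonempty then (1 : ℝ) else 0)) (fun _ _ => rfl)
      (fun S _ => CPS_.sup_eq x S B hxB)]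
    rw [EB_sum]
    refine Finset.sum_congr rfl (fun th _ => ?_)
    rw [← CPS_.EB_nonempty]
    exact EB_restrict (T := univ) (T' := univ.filter (fun j => th < x j)) (Finset.subset_univ _)
      (A k) (fun S => if S.Nonempty then (1 : ℝ) else 0)
  rw [hR]
  refine Finset.sum_le_sum (fun θ _ => ?_)
  set D : Finset (Fin n) := univ.filter (fun j => θ < x j) with hD
  have hDs : ∑ j ∈ D, A k j ≤ 1 := by
    rw [← hA.2.1 k]
    exact Finset.sum_le_sum_of_subset_of_nonneg (Finset.subset_univ _) (fun j _ _ => hA.1 _ _)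
  refine le_trans ?_ (hCPX (Fin n) D (A k) (fun j _ => hA.1 _ _) hDs)
  apply add_le_add
  · refine Finset.sum_le_sum (fun j hj => ?_)
    apply sub_le_sub_left
    have e1 : ∏ e ∈ (rowI M B k).filter (fun e => Kil tch D j e), (1 - π e) =
        Real.exp (-∑ e ∈ rowI M B k, (if Kil tch D j e then rtf A e else 0)) := by
      rw [← Finset.sum_filter, ← Finset.sum_neg_distrib, Real.exp_sum]
      refine Finset.prod_congr rfl (fun e he => ?_)
      have he1 := (Finset.mem_filter.1 he).1
      unfold rowI at he1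
      rw [Finset.mem_biUnion] at he1
      obtain ⟨t, _, he1⟩ := he1
      rw [mem_realI] at he1
      obtain ⟨κ, rfl⟩ := he1
      rw [hπ]
      unfold piS
      show 1 - (1 - Real.exp (-(rateR A (k, t) κ / M))) = Real.exp (-(rateR A (k, t) κ / M))
      ring
    rw [e1]
    apply Real.exp_le_exp.2
    apply neg_le_neg
    rw [sum_rowI]
    have e2 : ∑ t : Fin M, ∑ e ∈ realI B (k, t), (if Kil tch D j e then rtf A e else 0) ≤
        ∑ t : Fin M, (R1 (A k j) (sb ((k, t) : Blk n M)) + vp * A k j * (1 - ∑ i ∈ D, A k i)) / M :=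
      Finset.sum_le_sum (fun t _ => kill_block hP hA k t D j hj)
    refine e2.trans ?_
    have e3 := hAVK M (A k j) hM (hA.1 _ _) (DS.le_one hA _ _)
    have e4 : ∑ t : Fin M, R1 (A k j) (sb ((k, t) : Blk n M)) =
        (M : ℝ) * (up * A k j) + A k j ^ 2 * ∑ t ∈ range M, (rh (A k j) + vp * (1 - lm)
          + vp / 2 * fz (A k j) (((M : ℝ) - t) / M)) := by
      rw [← Fin.sum_univ_eq_sum_range (fun t => rh (A k j) + vp * (1 - lm)
          + vp / 2 * fz (A k j) (((M : ℝ) - t) / M)) M, Finset.mul_sum]
      have e5 : (M : ℝ) * (up * A k j) = ∑ t : Fin M, up * A k j := by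
        rw [Finset.sum_const, Finset.card_univ, Fintype.card_fin, nsmul_eq_mul]
      rw [e5, ← Finset.sum_add_distrib]
      refine Finset.sum_congr rfl (fun t _ => ?_)
      unfold R1 sb
      ring
    rw [← Finset.sum_div, div_le_iff₀ hMr, Finset.sum_add_distrib, e4, Finset.sum_const,
      Finset.card_univ, Fintype.card_fin, nsmul_eq_mul]
    have e6 := mul_le_mul_of_nonneg_left e3 (sq_nonneg (A k j))
    nlinarith [e6]
  · rw [Finset.sum_filter, sum_rowI]
    have e2 : ∑ t : Fin M, ∑ e ∈ realI B (k, t), (if Inn tch D e then π e else 0) ≤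
        ∑ t : Fin M, vp / 2 * ((∑ i ∈ D, A k i) ^ 2 - ∑ i ∈ D, A k i ^ 2) / (M : ℝ) :=
      Finset.sum_le_sum (fun t _ => inn_block hP hA π hπ k t D)
    refine e2.trans (le_of_eq ?_)
    rw [Finset.sum_const, Finset.card_univ, Fintype.card_fin, nsmul_eq_mul,
      mul_div_cancel₀ _ (ne_of_gt hMr)]

/-- the original problem is bounded below by the problem with the real items -/
lemma rows_to_items (hP : Stmt_PAR) (hOPI : Stmt_OPI) (hUPX : Stmt_UPX) (hCPX : Stmt_CPX)
    (hAVK : Stmt_AVK) (hHYB : Stmt_HYB) (hOPK : Stmt_OPK) (hM : 100000 ≤ M)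
    {A : Fin n → Fin n → ℝ} (hA : DS A) (w : Fin n → Fin n → ℕ) (hw : ∀ k j, w k j ≤ B)
    (π : Lam n M B → ℝ)
    (hπ : ∀ b κ, π (Sum.inr (b, Sum.inl κ)) = piS A b κ) :
    EB ((univ : Finset (Blk n M)).biUnion (realI B)) π
      (fun S => (opt (yw M B w) S univ : ℝ)) ≤ Phi A (fun i j => (w i j : ℝ)) := by
  have hset : (univ : Finset (Blk n M)).biUnion (realI B) = univ.biUnion (rowI M B) := by
    ext e
    simp only [rowI, Finset.mem_biUnion, Finset.mem_univ, true_and]
    constructor
    · rintro ⟨b, hb⟩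
      exact ⟨b.1, b.2, hb⟩
    · rintro ⟨k, t, h⟩
      exact ⟨(k, t), h⟩
  rw [hset]
  have key := hHYB n A (Lam n M B) (fun k N => Sum.inl (k, N)) (rowI M B) π
    (fun S => (opt (yw M B w) S univ : ℝ)) (fun i j => ⟨hA.1 i j, DS.le_one hA i j⟩)
    (by
      intro k N k' N' h
      simpa using h)
    (by
      intro k k' N h
      unfold rowI at h
      rw [Finset.mem_biUnion] at h
      obtain ⟨t, _, h⟩ := h
      rw [mem_realI] at h
      obtain ⟨κ, h⟩ := h
      simp at h)
    (by
      intro k k' hkk'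
      rw [Finset.disjoint_left]
      intro e he he'
      unfold rowI at he he'
      rw [Finset.mem_biUnion] at he he'
      obtain ⟨t, _, he⟩ := he
      obtain ⟨t', _, he'⟩ := he'
      have : ((k, t) : Blk n M) ≠ (k', t') := by
        intro h
        simp only [Prod.mk.injEq] at h
        exact hkk' h.1
      exact (Finset.disjoint_left.1 (realI_disj this)) he he')
    (fun k => rowI_pro hP hA π hπ k)
    (fun k S0 _ hN => row_step hP hOPI hUPX hCPX hAVK hM hA w hw π hπ k S0 hN)
  refine key.trans (le_of_eq ?_)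
  unfold Phi EB
  rw [Finset.powerset_univ]
  refine Finset.sum_congr rfl (fun R _ => ?_)
  have h1 := hOPK n w (Lam n M B) (yw M B w)
    (fun k => Sum.inl (k, univ.filter (fun j => (k, j) ∈ R))) R
    (by
      intro k k' h
      simp only [Sum.inl.injEq, Prod.mk.injEq] at h
      exact h.1)
    (by
      intro k j
      show (if j ∈ univ.filter (fun j => (k, j) ∈ R) then w k j else 0) = _
      simp only [Finset.mem_filter, Finset.mem_univ, true_and])
  rw [h1]
  rfl

end FIN_

end

end Pool.Agent.CGS
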