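import Pool.Agent.CGS.FINB

/-!
# Assembly of the project CGS, part C: the replacement of one block
-/

set_option autoImplicit false
set_option linter.unusedSectionVars false

open Finset Pool.Agent.CGM Pool.Agent.CGM.FIN_
open scoped Classical

namespace Pool.Agent.CGS

noncomputable section

namespace FIN_

variable {n M B : ℕ}

/-- probabilities of the mean field items of the block `b0` -/
def pmS {n M B : ℕ} (A : Fin n → Fin n → ℝ) (b0 : Blk n M) (p : Fin n → ℕ → ℝ) :
    Fin n × Option (Fin n × Fin (B + 1)) → ℝ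
  | (j, none) => (up + rh (A b0.1 j) * A b0.1 j) * A b0.1 j / M
  | (j, some (i, c)) => vp * (A b0.1 i * A b0.1 j) * p i c / M

/-- the new probabilities -/
def piT {n M B : ℕ} (A : Fin n → Fin n → ℝ) (b0 : Blk n M) (p : Fin n → ℕ → ℝ)
    (π : Lam n M B → ℝ) : Lam n M B → ℝ
  | Sum.inl r => π (Sum.inl r)
  | Sum.inr (b, Sum.inl κ) => π (Sum.inr (b, Sum.inl κ))
  | Sum.inr (b, Sum.inr κ) => if b = b0 then pmS A b0 p κ else π (Sum.inr (b, Sum.inr κ))

lemma piT_new (A : Fin n → Fin n → ℝ) (b0 : Blk n M) (p : Fin n → ℕ → ℝ)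
    (π : Lam n M B → ℝ) (κ : Fin n × Option (Fin n × Fin (B + 1))) :
    piT A b0 p π (Sum.inr (b0, Sum.inr κ)) = pmS A b0 p κ := by
  show (if b0 = b0 then pmS A b0 p κ else π (Sum.inr (b0, Sum.inr κ))) = _
  rw [if_pos rfl]

lemma piT_old (A : Fin n → Fin n → ℝ) (b0 : Blk n M) (p : Fin n → ℕ → ℝ)
    (π : Lam n M B → ℝ) (e : Lam n M B) (he : e ∉ mfI B b0) : piT A b0 p π e = π e := by
  rcases e with r | ⟨b, κ | κ⟩
  · rfl
  · rfl
  · show (if b = b0 then pmS A b0 p κ else π (Sum.inr (b, Sum.inr κ))) = _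
    rw [if_neg]
    rintro rfl
    exact he ((mem_mfI _ _).2 ⟨κ, rfl⟩)

lemma pmS_bd (hP : Stmt_PAR) {A : Fin n → Fin n → ℝ} (hA : DS A) (b : Blk n M)
    (p : Fin n → ℕ → ℝ)
    (hp : ∀ i c, 0 ≤ p i c ∧ p i c ≤ 1) (κ : Fin n × Option (Fin n × Fin (B + 1))) :
    0 ≤ pmS A b p κ ∧ pmS A b p κ ≤ 1 := by
  have hM : 0 < M := lt_of_le_of_lt (Nat.zero_le _) b.2.2
  have hMr : (0 : ℝ) < (M : ℝ) := by exact_mod_cast hM
  have hM1 : (1 : ℝ) ≤ (M : ℝ) := by exact_mod_cast hM
  obtain ⟨j, κ⟩ := κ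
  have h1 := hA.1 b.1 j
  have h2 := DS.le_one hA b.1 j
  obtain ⟨u1, u2⟩ := up_bd hP
  obtain ⟨p1, p2, p3, p4⟩ := hP
  rcases κ with _ | ⟨i, c⟩
  · show 0 ≤ (up + rh (A b.1 j) * A b.1 j) * A b.1 j / M ∧
      (up + rh (A b.1 j) * A b.1 j) * A b.1 j / M ≤ 1
    obtain ⟨r1, r2⟩ := rh_bd (A b.1 j)
    have h3 : 0 ≤ up + rh (A b.1 j) * A b.1 j := by
      have := mul_nonneg r1.le h1
      linarith
    have h4 : up + rh (A b.1 j) * A b.1 j ≤ 1 := by nlinarith
    constructor
    · positivity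
    · rw [div_le_one hMr]
      exact (mul_le_one₀ h4 h1 h2).trans hM1
  · show 0 ≤ vp * (A b.1 i * A b.1 j) * p i c / M ∧
      vp * (A b.1 i * A b.1 j) * p i c / M ≤ 1
    have h3 := hA.1 b.1 i
    have h4 := DS.le_one hA b.1 i
    have h5 : A b.1 i * A b.1 j ≤ 1 := mul_le_one₀ h4 h1 h2
    have h6 : 0 ≤ A b.1 i * A b.1 j := mul_nonneg h3 h1
    have h7 : 0 ≤ vp * (A b.1 i * A b.1 j) := mul_nonneg (by linarith) h6
    have h8 : vp * (A b.1 i * A b.1 j) ≤ 1 := mul_le_one₀ (by linarith) h6 h5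
    constructor
    · exact div_nonneg (mul_nonneg h7 (hp i c).1) hMr.le
    · rw [div_le_one hMr]
      exact (mul_le_one₀ h8 (hp i c).1 (hp i c).2).trans hM1

/-- elementary upper bound for the total gain -/
lemma XS_le (hP : Stmt_PAR) {A : Fin n → Fin n → ℝ} (hA : DS A) (k : Fin n) (s : ℝ)
    (hs0 : 0 ≤ s) (hs1 : s ≤ 1) (wt : Fin n → ℝ) (hw : ∀ j, 0 ≤ wt j)
    (X : Fin n → ℝ) (Y : Fin n → Fin n → ℝ) (hX : ∀ j, X j ≤ wt j)
    (hY : ∀ i j, Y i j ≤ wt i + wt j) :
    ∑ j, ((up + rh (A k j) * A k j) * A k j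
        + (vp * (1 - lm) + vp / 2 * fz (A k j) s) * A k j ^ 2) * X j
      + vp / 2 * ∑ i, ∑ j ∈ univ.erase i, A k i * A k j * Y i j ≤
      5 / 2 * ∑ j, A k j * wt j := by
  have h1 : ∑ j, ((up + rh (A k j) * A k j) * A k j
        + (vp * (1 - lm) + vp / 2 * fz (A k j) s) * A k j ^ 2) * X j
      ≤ 17 / 10 * ∑ j, A k j * wt j := by
    rw [Finset.mul_sum]
    refine Finset.sum_le_sum (fun j _ => ?_)
    have h3 := R1_bd hP (A k j) s (hA.1 k j) (DS.le_one hA k j) hs0 hs1
    have h4 : (up + rh (A k j) * A k j) * A k j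
        + (vp * (1 - lm) + vp / 2 * fz (A k j) s) * A k j ^ 2 = R1 (A k j) s := by
      unfold R1
      ring
    rw [h4]
    calc R1 (A k j) s * X j ≤ R1 (A k j) s * wt j := mul_le_mul_of_nonneg_left (hX j) h3.1
      _ ≤ (17 / 10 * A k j) * wt j := mul_le_mul_of_nonneg_right h3.2 (hw j)
      _ = 17 / 10 * (A k j * wt j) := by ring
  have h2 : ∑ i, ∑ j ∈ univ.erase i, A k i * A k j * Y i j ≤ 2 * ∑ j, A k j * wt j := by
    calc ∑ i, ∑ j ∈ univ.erase i, A k i * A k j * Y i j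
        ≤ ∑ i, ∑ j ∈ univ.erase i, A k i * A k j * (wt i + wt j) := by
          refine Finset.sum_le_sum (fun i _ => Finset.sum_le_sum (fun j _ => ?_))
          exact mul_le_mul_of_nonneg_left (hY i j) (mul_nonneg (hA.1 k i) (hA.1 k j))
      _ ≤ ∑ i, ∑ j, A k i * A k j * (wt i + wt j) := by
          refine Finset.sum_le_sum (fun i _ => ?_)
          apply Finset.sum_le_sum_of_subset_of_nonneg (Finset.erase_subset _ _)
          intro j _ _
          exact mul_nonneg (mul_nonneg (hA.1 k i) (hA.1 k j)) (add_nonneg (hw i) (hw j))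
      _ = 2 * ∑ j, A k j * wt j := by
          have e1 : ∀ i, ∑ j, A k i * A k j * (wt i + wt j)
              = A k i * wt i * ∑ j, A k j + A k i * ∑ j, A k j * wt j := by
            intro i
            rw [Finset.mul_sum, Finset.mul_sum, ← Finset.sum_add_distrib]
            exact Finset.sum_congr rfl (fun j _ => by ring)
          rw [Finset.sum_congr rfl (fun i _ => e1 i), Finset.sum_add_distrib, hA.2.1 k,
            ← Finset.sum_mul, ← Finset.sum_mul, hA.2.1 k]
          ring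
  have h8 : 0 ≤ ∑ j, A k j * wt j :=
    Finset.sum_nonneg (fun j _ => mul_nonneg (hA.1 k j) (hw j))
  obtain ⟨p1, p2, p3, p4⟩ := hP
  have h9 : (0 : ℝ) ≤ vp / 2 := by linarith
  have h10 := mul_le_mul_of_nonneg_left h2 h9
  nlinarith

/-- the replacement of one block -/
lemma block_step (hP : Stmt_PAR) (hUPP : Stmt_UPP) (hLOW : Stmt_LOW) (hCOV : Stmt_COV)
    (hCON : Stmt_CON) (hLTX : Stmt_LTX) (hQFB : Stmt_QFB) (hALX : Stmt_ALX)
    (hM : 100000 ≤ M) {A : Fin n → Fin n → ℝ} (hA : DS A) (w : Fin n → Fin n → ℕ)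
    (hw : ∀ k j, w k j ≤ B) (π : Lam n M B → ℝ) (b0 : Blk n M)
    (hπ : ∀ κ, π (Sum.inr (b0, Sum.inl κ)) = piS A b0 κ) (T : Finset (Lam n M B))
    (hpro : Pro T π)
    (hdR : Disjoint T (realI B b0)) (hdF : Disjoint T (mfI B b0))
    (hQ : ∀ a c, a ≠ c → Qr (yw M B w) T π a c ≤ vp * sb b0 * ∑ l, A l a * A l c) :
    EB (T ∪ mfI B b0)
        (piT A b0 (fun i c => EB T π (fun S =>
          if w b0.1 i - pr (yw M B w) S i = c then (1 : ℝ) else 0)) π)
        (fun S => (opt (yw M B w) S univ : ℝ))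
      + 1 / (M : ℝ) * (vp / 2 * ∑ θ ∈ range B, (∑ j, A b0.1 j * EB T π (fun S =>
          if θ < w b0.1 j - pr (yw M B w) S j then (1 : ℝ) else 0)) ^ 2
        - vp / 2 * lm ^ 2 * ∑ j, A b0.1 j ^ 2 * (w b0.1 j : ℝ)
        - 10 / M * ∑ j, A b0.1 j * (w b0.1 j : ℝ)) ≤
    EB (T ∪ realI B b0) π (fun S => (opt (yw M B w) S univ : ℝ)) := by
  have hMr : (0 : ℝ) < (M : ℝ) := by
    have : 0 < M := by omega
    exact_mod_cast this
  have hM5 : (100000 : ℝ) ≤ (M : ℝ) := by exact_mod_cast hM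
  have hM1 : 1 / (M : ℝ) ≤ 1 / 100000 := by
    apply div_le_div_of_nonneg_left (by norm_num) (by norm_num) hM5
  have hMi : 0 < 1 / (M : ℝ) := by positivity
  set a : Fin n → ℝ := A b0.1 with ha
  set wt : Fin n → ℕ := w b0.1 with hwt
  set y := yw M B w with hy
  set s : ℝ := sb b0 with hs
  have hs0 : 0 ≤ s := sb_nonneg b0
  have hs1 : s ≤ 1 := sb_le_one b0
  have hv : 0 ≤ vp := by have := hP.2.2.1; linarith
  have hv1 : vp ≤ 1 := by have := hP.2.2.2; linarith
  set x : Finset (Lam n M B) → Fin n → ℕ := fun S j => wt j - pr y S j with hx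
  set p : Fin n → ℕ → ℝ := fun i c => EB T π (fun S => if wt i - pr y S i = c then (1 : ℝ) else 0)
    with hp
  -- the real block
  have hproR : Pro (realI B b0) π := by
    intro e he
    rw [mem_realI] at he
    obtain ⟨κ, rfl⟩ := he
    rw [hπ]
    exact ⟨piS_nonneg hP hA _ _, piS_le_one hP _ _⟩
  have hσ : ∑ e ∈ realI B b0, π e ≤ 3 * (1 / (M : ℝ)) := by
    rw [sum_realI]
    have h1 := sum_rateR_le hP hA b0
    have h2 : ∑ j, π (Sum.inr (b0, Sum.inl (Sum.inl j)))
        + ∑ i, ∑ j, π (Sum.inr (b0, Sum.inl (Sum.inr (i, j)))) ≤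
        (∑ j, rateR A b0 (Sum.inl j) + ∑ i, ∑ j, rateR A b0 (Sum.inr (i, j))) / M := by
      rw [add_div, Finset.sum_div, Finset.sum_div]
      apply add_le_add
      · refine Finset.sum_le_sum (fun j _ => ?_)
        rw [hπ]
        exact piS_le hP _ _
      · refine Finset.sum_le_sum (fun i _ => ?_)
        rw [Finset.sum_div]
        refine Finset.sum_le_sum (fun j _ => ?_)
        rw [hπ]
        exact piS_le hP _ _
    refine h2.trans ?_
    rw [div_le_iff₀ hMr]
    have : 3 * (1 / (M : ℝ)) * M = 3 := by field_simp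
    linarith
  have hσ0 : 0 ≤ ∑ e ∈ realI B b0, π e := Finset.sum_nonneg (fun e he => (hproR e he).1)
  set XR : ℝ := ∑ j, ((up + rh (a j) * a j) * a j
        + (vp * (1 - lm) + vp / 2 * fz (a j) s) * a j ^ 2) * EB T π (fun S => (x S j : ℝ))
      + vp / 2 * ∑ i, ∑ j ∈ univ.erase i,
          a i * a j * EB T π (fun S => ((max (x S i) (x S j) : ℕ) : ℝ)) with hXR
  set XF : ℝ := ∑ j, (up + rh (a j) * a j) * a j * EB T π (fun S => (x S j : ℝ))
      + ∑ i, ∑ j, vp * (a i * a j) * ∑ c : Fin (B + 1),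
          EB T π (fun S => if x S i = (c : ℕ) then (1 : ℝ) else 0)
            * EB T π (fun S => ((x S j - (c : ℕ) : ℕ) : ℝ)) with hXF
  have hreal : EB T π (fun S => (opt y S univ : ℝ))
      + (1 - ∑ e ∈ realI B b0, π e) * ((1 - 1 / (M : ℝ)) * (XR / M)) ≤
      EB (T ∪ realI B b0) π (fun S => (opt y S univ : ℝ)) := by
    rw [EB_union hdR]
    have h1 : EB T π (fun S => (opt y S univ : ℝ)
        + (1 - ∑ e ∈ realI B b0, π e) * ∑ e ∈ realI B b0, π e * (gain y S e : ℝ)) ≤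
        EB T π (fun S => EB (realI B b0) π (fun S' => (opt y (S ∪ S') univ : ℝ))) := by
      apply EB_mono hpro
      intro S hS
      exact hLOW _ _ y S (realI B b0) π (Finset.disjoint_of_subset_left hS hdR) hproR
        (hσ.trans (by linarith))
    refine le_trans ?_ h1
    rw [EB_add, EB_mul_left]
    apply add_le_add (le_refl _)
    apply mul_le_mul_of_nonneg_left _ (by linarith)
    have h2 : ∀ S : Finset (Lam n M B), (1 - 1 / (M : ℝ)) * (1 / (M : ℝ)) *
        (∑ j, ((up + rh (a j) * a j) * a j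
          + (vp * (1 - lm) + vp / 2 * fz (a j) s) * a j ^ 2) * (x S j : ℝ)
        + vp / 2 * ∑ i, ∑ j ∈ univ.erase i, a i * a j * ((max (x S i) (x S j) : ℕ) : ℝ)) ≤
        ∑ e ∈ realI B b0, π e * (gain y S e : ℝ) := by
      intro S
      rw [sum_realI]
      have h3 := real_gainS A b0 (fun i j => ((max (x S i) (x S j) : ℕ) : ℝ))
      simp only [max_self] at h3
      rw [← h3, mul_add, Finset.mul_sum, Finset.mul_sum]
      apply add_le_add
      · refine Finset.sum_le_sum (fun j _ => ?_)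
        rw [hπ, gain_sng]
        have h4 := piS_ge hP hA b0 (Sum.inl j)
        have h5 := mul_le_mul_of_nonneg_right h4 (Nat.cast_nonneg (α := ℝ) (x S j))
        refine le_trans (le_of_eq ?_) h5
        ring
      · refine Finset.sum_le_sum (fun i _ => ?_)
        rw [Finset.mul_sum]
        refine Finset.sum_le_sum (fun j _ => ?_)
        rw [hπ, gain_pair]
        have h4 := piS_ge hP hA b0 (Sum.inr (i, j))
        have h5 := mul_le_mul_of_nonneg_right h4
          (Nat.cast_nonneg (α := ℝ) (max (x S i) (x S j)))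
        refine le_trans (le_of_eq ?_) h5
        ring
    have h4 := EB_mono hpro (fun S _ => h2 S)
    refine le_trans (le_of_eq ?_) h4
    rw [EB_mul_left, EB_add, EB_sum, EB_mul_left, EB_sum, hXR]
    have e1 : ∀ X Y : ℝ, (1 - 1 / (M : ℝ)) * ((X + Y) / M) = (1 - 1 / (M : ℝ)) * (1 / (M : ℝ)) * (X + Y) := by
      intro X Y
      ring
    rw [e1]
    congr 2
    · exact Finset.sum_congr rfl (fun j _ => (EB_mul_left _ _ _ _).symm)
    · congr 1
      refine Finset.sum_congr rfl (fun i _ => ?_)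
      rw [EB_sum]
      exact Finset.sum_congr rfl (fun j _ => (EB_mul_left _ _ _ _).symm)
  -- the mean field block
  have hp0 : ∀ i c, 0 ≤ p i c := fun i c => EB_nonneg hpro (fun S _ => by split_ifs <;> norm_num)
  have hp1 : ∀ i c, p i c ≤ 1 := by
    intro i c
    exact (EB_mono hpro (fun S _ => by split_ifs <;> norm_num)).trans (EB_const T π 1).le
  have hMn : (0 : ℝ) ≤ (M : ℝ) := hMr.le
  have hproF : Pro (mfI B b0) (piT A b0 p π) := by
    intro e he
    rw [mem_mfI] at he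
    obtain ⟨κ, rfl⟩ := he
    rw [piT_new]
    exact pmS_bd hP hA b0 p (fun i c => ⟨hp0 i c, hp1 i c⟩) κ
  have hmf : EB (T ∪ mfI B b0) (piT A b0 p π) (fun S => (opt y S univ : ℝ)) ≤
      EB T π (fun S => (opt y S univ : ℝ)) + XF / M := by
    have hcong : ∀ F : Finset (Lam n M B) → ℝ, EB T (piT A b0 p π) F = EB T π F := by
      intro F
      refine EB_congr (fun e he => ?_) (fun _ _ => rfl)
      exact piT_old A b0 p π e (Finset.disjoint_left.1 hdF he)
    rw [EB_union hdF, hcong]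
    have h1 : EB T π (fun S => EB (mfI B b0) (piT A b0 p π)
        (fun S' => (opt y (S ∪ S') univ : ℝ))) ≤
        EB T π (fun S => (opt y S univ : ℝ)
          + ∑ e ∈ mfI B b0, piT A b0 p π e * (gain y S e : ℝ)) := by
      apply EB_mono hpro
      intro S hS
      exact hUPP _ _ y S (mfI B b0) (piT A b0 p π) (Finset.disjoint_of_subset_left hS hdF) hproF
    refine h1.trans (le_of_eq ?_)
    rw [EB_add]
    congr 1
    have h2 : ∀ S : Finset (Lam n M B), ∑ e ∈ mfI B b0, piT A b0 p π e * (gain y S e : ℝ)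
        = (∑ j, (up + rh (a j) * a j) * a j * (x S j : ℝ)
          + ∑ i, ∑ j, vp * (a i * a j) * ∑ c : Fin (B + 1),
          p i c * ((x S j - (c : ℕ) : ℕ) : ℝ)) * (1 / (M : ℝ)) := by
      intro S
      rw [sum_mfI, Finset.sum_add_distrib, add_mul]
      congr 1
      · rw [Finset.sum_mul]
        refine Finset.sum_congr rfl (fun j _ => ?_)
        rw [piT_new, gain_mfn]
        show (up + rh (A b0.1 j) * A b0.1 j) * A b0.1 j / M * _ = _
        ring
      · rw [Finset.sum_comm, Finset.sum_mul]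
        refine Finset.sum_congr rfl (fun i _ => ?_)
        rw [Finset.sum_mul]
        refine Finset.sum_congr rfl (fun j _ => ?_)
        rw [Finset.mul_sum, Finset.sum_mul]
        refine Finset.sum_congr rfl (fun c _ => ?_)
        rw [piT_new, gain_mfs]
        show vp * (A b0.1 i * A b0.1 j) * p i c / M * _ = _
        ring
    have h4 : EB T π (fun S => ∑ e ∈ mfI B b0, piT A b0 p π e * (gain y S e : ℝ)) =
        EB T π (fun S => (∑ j, (up + rh (a j) * a j) * a j * (x S j : ℝ)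
          + ∑ i, ∑ j, vp * (a i * a j) * ∑ c : Fin (B + 1),
          p i c * ((x S j - (c : ℕ) : ℕ) : ℝ)) * (1 / (M : ℝ))) :=
      EB_congr (fun _ _ => rfl) (fun S _ => h2 S)
    have h5 : XF / (M : ℝ) = XF * (1 / (M : ℝ)) := by ring
    rw [h4, EB_mul_right, EB_add, EB_sum, EB_sum, h5, hXF]
    congr 2
    · exact Finset.sum_congr rfl (fun j _ => EB_mul_left _ _ _ _)
    · refine Finset.sum_congr rfl (fun i _ => ?_)
      rw [EB_sum]
      refine Finset.sum_congr rfl (fun j _ => ?_)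
      rw [EB_mul_left, EB_sum]
      congr 1
      exact Finset.sum_congr rfl (fun c _ => EB_mul_left _ _ _ _)
  -- the comparison
  have hQ0 : ∀ a c, 0 ≤ Qr y T π a c := by
    intro a c
    unfold Qr
    exact Finset.sum_nonneg (fun e he => (hpro e (Finset.mem_filter.1 he).1).1)
  have hP0 : ∀ i j, 0 ≤ Pc y T π i j := by
    intro i j
    unfold Pc
    exact EB_nonneg hpro (fun S _ => by split_ifs <;> norm_num)
  have hvp0 : vp ≠ 0 := by have := hP.2.2.1; linarith
  have hznn : ∀ j, vp * s * (zc (a j) / vp) = zc (a j) * s := by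
    intro j
    field_simp
  have halg := hALX (Finset (Lam n M B)) (Fin n) T.powerset (wB π T) x wt a (Pc y T π) B
    vp lm (fun j => up + rh (a j) * a j) (fun j => fz (a j) s)
    (fun S hS => wB_nonneg hpro (Finset.mem_powerset.1 hS)) (sum_wB T π)
    (fun S _ j => Nat.sub_le _ _) (hw b0.1) (hA.1 b0.1) (hA.2.1 b0.1) hv hP0
    (Pc_symm y T π) (fun i j _ => hCOV _ _ y T π i j (wt i) (wt j) hpro)
    (fun α hα => by
      have := hLTX (Fin n) (Qr y T π) (Pc y T π) (fun a c => ∑ l, A l a * A l c) (vp * s)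
        (fun j => zc (a j) / vp) (mul_nonneg hv hs0)
        (fun j => div_nonneg (zc_bd _).1.le hv)
        (fun j => by
          rw [hznn]
          have h1 := zc_bd (a j)
          nlinarith)
        (fun a c hac => ⟨hQ0 a c, hQ a c hac⟩) hP0 (Pc_self y T π)
        (fun a b hab => hCON _ _ y T π a b hpro hab)
        (fun y hy => hQFB n A b0.1 hA y hy) α hα
      refine this.trans (le_of_eq ?_)
      refine Finset.sum_congr rfl (fun j _ => ?_)
      simp only [hznn]
      rfl)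
  have halg' : vp / 2 * ∑ θ ∈ range B,
        (∑ j, a j * EB T π (fun S => if θ < x S j then (1 : ℝ) else 0)) ^ 2
      - vp / 2 * lm ^ 2 * ∑ j, a j ^ 2 * (wt j : ℝ)
      ≤ XR - XF := halg
  -- the error
  have hXR2 : XR ≤ 5 / 2 * ∑ j, a j * (wt j : ℝ) := by
    apply XS_le hP hA b0.1 s hs0 hs1 (fun j => (wt j : ℝ)) (fun j => Nat.cast_nonneg _)
      (fun j => EB T π (fun S => (x S j : ℝ)))
      (fun i j => EB T π (fun S => ((max (x S i) (x S j) : ℕ) : ℝ)))
    · intro j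
      show EB T π (fun S => (x S j : ℝ)) ≤ (wt j : ℝ)
      rw [← EB_const T π (wt j : ℝ)]
      refine EB_mono hpro (fun S _ => ?_)
      have : x S j ≤ wt j := Nat.sub_le _ _
      exact_mod_cast this
    · intro i j
      show EB T π (fun S => ((max (x S i) (x S j) : ℕ) : ℝ)) ≤ (wt i : ℝ) + (wt j : ℝ)
      rw [← EB_const T π ((wt i : ℝ) + (wt j : ℝ))]
      refine EB_mono hpro (fun S _ => ?_)
      have h1 : x S i ≤ wt i := Nat.sub_le _ _
      have h2 : x S j ≤ wt j := Nat.sub_le _ _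
      have h3 : max (x S i) (x S j) ≤ wt i + wt j := by omega
      exact_mod_cast h3
  have hXR0 : 0 ≤ XR := by
    apply add_nonneg
    · refine Finset.sum_nonneg (fun j _ => mul_nonneg ?_ ?_)
      · have h3 := R1_bd hP (a j) s (hA.1 _ j) (DS.le_one hA _ j) hs0 hs1
        have h4 : (up + rh (a j) * a j) * a j
            + (vp * (1 - lm) + vp / 2 * fz (a j) s) * a j ^ 2 = R1 (a j) s := by
          unfold R1
          ring
        rw [h4]
        exact h3.1
      · exact EB_nonneg hpro (fun S _ => Nat.cast_nonneg _)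
    · apply mul_nonneg (by linarith)
      refine Finset.sum_nonneg (fun i _ => Finset.sum_nonneg (fun j _ => mul_nonneg
        (mul_nonneg (hA.1 _ _) (hA.1 _ _)) ?_))
      exact EB_nonneg hpro (fun S _ => Nat.cast_nonneg _)
  have hcoef : XR - 10 * (1 / (M : ℝ)) * ∑ j, a j * (wt j : ℝ) ≤
      (1 - ∑ e ∈ realI B b0, π e) * ((1 - 1 / (M : ℝ)) * XR) := by
    have h1 : (1 - 4 * (1 / (M : ℝ))) * XR ≤
        (1 - ∑ e ∈ realI B b0, π e) * ((1 - 1 / (M : ℝ)) * XR) := by
      rw [← mul_assoc]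
      apply mul_le_mul_of_nonneg_right _ hXR0
      nlinarith
    have h2 : 4 * (1 / (M : ℝ)) * XR ≤ 4 * (1 / (M : ℝ)) * (5 / 2 * ∑ j, a j * (wt j : ℝ)) :=
      mul_le_mul_of_nonneg_left hXR2 (by positivity)
    nlinarith
  have hfin : vp / 2 * ∑ θ ∈ range B, (∑ j, a j * EB T π (fun S =>
          if θ < x S j then (1 : ℝ) else 0)) ^ 2
        - vp / 2 * lm ^ 2 * ∑ j, a j ^ 2 * (wt j : ℝ) - 10 / M * ∑ j, a j * (wt j : ℝ)
      ≤ (1 - ∑ e ∈ realI B b0, π e) * ((1 - 1 / (M : ℝ)) * XR) - XF := by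
    have e2 : (10 : ℝ) / M * ∑ j, a j * (wt j : ℝ) = 10 * (1 / (M : ℝ)) * ∑ j, a j * (wt j : ℝ) := by
      ring
    rw [e2]
    linarith
  have hfin2 := mul_le_mul_of_nonneg_left hfin (by positivity : (0 : ℝ) ≤ 1 / (M : ℝ))
  have e1 : 1 / (M : ℝ) * ((1 - ∑ e ∈ realI B b0, π e) * ((1 - 1 / (M : ℝ)) * XR) - XF)
      = (1 - ∑ e ∈ realI B b0, π e) * ((1 - 1 / (M : ℝ)) * (XR / M)) - XF / M := by ring
  rw [e1] at hfin2
  linarith

end FIN_

end

end Pool.Agent.CGS
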