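import Pool.Agent.CGS.FINC

/-!
# Assembly of the project CGS, part D: the Lindeberg induction
-/

set_option autoImplicit false
set_option linter.unusedSectionVars false

open Finset Pool.Agent.CGM Pool.Agent.CGM.FIN_
open scoped Classical

namespace Pool.Agent.CGS

noncomputable section

namespace FIN_

variable {n M B : ℕ}

lemma Q_real (hP : Stmt_PAR) {A : Fin n → Fin n → ℝ} (hA : DS A) (w : Fin n → Fin n → ℕ)
    (π : Lam n M B → ℝ) (b : Blk n M) (hπ : ∀ κ, π (Sum.inr (b, Sum.inl κ)) = piS A b κ)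
    (a c : Fin n) (hac : a ≠ c) :
    ∑ e ∈ (realI B b).filter (fun e => yw M B w e a ≠ 0 ∧ yw M B w e c ≠ 0), π e
      ≤ vp / M * (A b.1 a * A b.1 c) := by
  rw [Finset.sum_filter, sum_realI]
  have h1 : ∑ j', (if yw M B w (Sum.inr (b, Sum.inl (Sum.inl j'))) a ≠ 0
      ∧ yw M B w (Sum.inr (b, Sum.inl (Sum.inl j'))) c ≠ 0
      then π (Sum.inr (b, Sum.inl (Sum.inl j'))) else 0) = 0 := by
    refine Finset.sum_eq_zero (fun j' _ => ?_)
    rw [if_neg]
    rintro ⟨h2, h3⟩
    have h2' : (if a = j' then w b.1 a else 0) ≠ 0 := h2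
    have h3' : (if c = j' then w b.1 c else 0) ≠ 0 := h3
    have h4 : a = j' := by
      by_contra hc
      rw [if_neg hc] at h2'
      exact h2' rfl
    have h5 : c = j' := by
      by_contra hc
      rw [if_neg hc] at h3'
      exact h3' rfl
    exact hac (h4.trans h5.symm)
  have h2 : ∑ i, ∑ j', (if yw M B w (Sum.inr (b, Sum.inl (Sum.inr (i, j')))) a ≠ 0
      ∧ yw M B w (Sum.inr (b, Sum.inl (Sum.inr (i, j')))) c ≠ 0
      then π (Sum.inr (b, Sum.inl (Sum.inr (i, j')))) else 0)
      ≤ piS A b (Sum.inr (a, c)) + piS A b (Sum.inr (c, a)) := by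
    calc _ ≤ ∑ i, ∑ j', ((if i = a then (if j' = c then piS A b (Sum.inr (a, c)) else 0) else 0)
            + (if i = c then (if j' = a then piS A b (Sum.inr (c, a)) else 0) else 0)) := by
          refine Finset.sum_le_sum (fun i _ => Finset.sum_le_sum (fun j' _ => ?_))
          have p1 : 0 ≤ (if i = a then (if j' = c then piS A b (Sum.inr (a, c)) else 0) else 0) := by
            split_ifs
            · exact piS_nonneg hP hA b _
            · exact le_refl _
            · exact le_refl _
          have p2 : 0 ≤ (if i = c then (if j' = a then piS A b (Sum.inr (c, a)) else 0) else 0) := by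
            split_ifs
            · exact piS_nonneg hP hA b _
            · exact le_refl _
            · exact le_refl _
          by_cases h : yw M B w (Sum.inr (b, Sum.inl (Sum.inr (i, j')))) a ≠ 0
              ∧ yw M B w (Sum.inr (b, Sum.inl (Sum.inr (i, j')))) c ≠ 0
          · rw [if_pos h, hπ]
            have h2 : (if a = i ∨ a = j' then w b.1 a else 0) ≠ 0 := h.1
            have h3 : (if c = i ∨ c = j' then w b.1 c else 0) ≠ 0 := h.2
            have h4 : a = i ∨ a = j' := by
              by_contra hc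
              rw [if_neg hc] at h2
              exact h2 rfl
            have h5 : c = i ∨ c = j' := by
              by_contra hc
              rw [if_neg hc] at h3
              exact h3 rfl
            rcases h4 with h4 | h4
            · rcases h5 with h5 | h5
              · exact absurd (h4.trans h5.symm) hac
              · subst h4 h5
                rw [if_pos rfl, if_pos rfl]
                linarith
            · rcases h5 with h5 | h5
              · subst h4 h5
                rw [if_pos (rfl : c = c), if_pos (rfl : a = a)]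
                linarith
              · exact absurd (h4.trans h5.symm) hac
          · rw [if_neg h]
            linarith
      _ = _ := by
          simp_rw [Finset.sum_add_distrib]
          congr 1
          · rw [Finset.sum_eq_single a (fun i _ hi => by
              refine Finset.sum_eq_zero (fun j' _ => by rw [if_neg hi])) (by simp)]
            simp
          · rw [Finset.sum_eq_single c (fun i _ hi => by
              refine Finset.sum_eq_zero (fun j' _ => by rw [if_neg hi])) (by simp)]
            simp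
  rw [h1, zero_add]
  refine h2.trans ((add_le_add (piS_le hP (A := A) b (Sum.inr (a, c)))
    (piS_le hP (A := A) b (Sum.inr (c, a)))).trans (le_of_eq ?_))
  show (if a = c then 0 else vp / 2 * (A b.1 a * A b.1 c)) / (M : ℝ)
    + (if c = a then 0 else vp / 2 * (A b.1 c * A b.1 a)) / (M : ℝ) = _
  rw [if_neg hac, if_neg hac.symm]
  ring

/-- the total probability of the mean field items at `j` with weight larger than `θ` -/
lemma mf_sum (A : Fin n → Fin n → ℝ) (hA : DS A) (w : Fin n → Fin n → ℕ)
    (hw : ∀ k j, w k j ≤ B) (π : Lam n M B → ℝ) (T : Finset (Lam n M B)) (b : Blk n M)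
    (j : Fin n) (θ : ℕ) :
    ∑ e ∈ (mfI B b).filter (fun e => θ < yw M B w e j),
      piT A b (fun i c => EB T π (fun S =>
          if w b.1 i - pr (yw M B w) S i = c then (1 : ℝ) else 0)) π e =
    A b.1 j / M * (if θ < w b.1 j then up + rh (A b.1 j) * A b.1 j + vp * (1 - ∑ i, A b.1 i * EB T π (fun S =>
          if w b.1 j - 1 - θ < w b.1 i - pr (yw M B w) S i then (1 : ℝ) else 0)) else 0) := by
  set p : Fin n → ℕ → ℝ := fun i c => EB T π (fun S =>
          if w b.1 i - pr (yw M B w) S i = c then (1 : ℝ) else 0) with hp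
  rw [Finset.sum_filter, sum_mfI]
  rw [Finset.sum_eq_single j (fun j' _ hj' => by
    have h1 : ¬ θ < yw M B w (Sum.inr (b, Sum.inr (j', none))) j := by
      show ¬ θ < (if j = j' then w b.1 j else 0)
      rw [if_neg (fun h => hj' h.symm)]
      omega
    have h2 : ∀ i c, ¬ θ < yw M B w (Sum.inr (b, Sum.inr (j', some (i, c)))) j := by
      intro i c
      show ¬ θ < (if j = j' then w b.1 j - (c : ℕ) else 0)
      rw [if_neg (fun h => hj' h.symm)]
      omega
    rw [if_neg h1, zero_add]
    refine Finset.sum_eq_zero (fun i _ => Finset.sum_eq_zero (fun c _ => ?_))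
    rw [if_neg (h2 i c)]) (by simp)]
  have h1 : (θ < yw M B w (Sum.inr (b, Sum.inr (j, none))) j) = (θ < w b.1 j) := by
    show (θ < (if j = j then w b.1 j else 0)) = _
    rw [if_pos rfl]
  have h2 : ∀ (i : Fin n) (c : Fin (B + 1)),
      (θ < yw M B w (Sum.inr (b, Sum.inr (j, some (i, c)))) j) = (θ < w b.1 j - (c : ℕ)) := by
    intro i c
    show (θ < (if j = j then w b.1 j - (c : ℕ) else 0)) = _
    rw [if_pos rfl]
  have h3 : ∀ i : Fin n, ∑ c : Fin (B + 1),
      (if θ < yw M B w (Sum.inr (b, Sum.inr (j, some (i, c)))) j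
        then piT A b p π (Sum.inr (b, Sum.inr (j, some (i, c)))) else 0)
      = vp * (A b.1 i * A b.1 j) / M * EB T π (fun S =>
          if θ < w b.1 j - (w b.1 i - pr (yw M B w) S i) then (1 : ℝ) else 0) := by
    intro i
    have h4 : ∀ c : Fin (B + 1),
        (if θ < yw M B w (Sum.inr (b, Sum.inr (j, some (i, c)))) j
          then piT A b p π (Sum.inr (b, Sum.inr (j, some (i, c)))) else 0)
        = vp * (A b.1 i * A b.1 j) / M * EB T π (fun S =>
          if w b.1 i - pr (yw M B w) S i = (c : ℕ) then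
            (if θ < w b.1 j - (w b.1 i - pr (yw M B w) S i) then (1 : ℝ) else 0) else 0) := by
      intro c
      rw [piT_new]
      have h5 : pmS A b p ((j, some (i, c)) : Fin n × Option (Fin n × Fin (B + 1)))
        = vp * (A b.1 i * A b.1 j) * p i c / M := rfl
      rw [h5]
      simp only [h2 i c]
      by_cases h : θ < w b.1 j - (c : ℕ)
      · rw [if_pos h]
        have h6 : p i c = EB T π (fun S =>
          if w b.1 i - pr (yw M B w) S i = (c : ℕ) then
            (if θ < w b.1 j - (w b.1 i - pr (yw M B w) S i) then (1 : ℝ) else 0) else 0) := by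
          rw [hp]
          refine EB_congr (fun _ _ => rfl) (fun S _ => ?_)
          by_cases h7 : w b.1 i - pr (yw M B w) S i = (c : ℕ)
          · rw [if_pos h7, if_pos h7, h7, if_pos h]
          · rw [if_neg h7, if_neg h7]
        rw [← h6]
        ring
      · rw [if_neg h]
        have h6 : EB T π (fun S =>
          if w b.1 i - pr (yw M B w) S i = (c : ℕ) then
            (if θ < w b.1 j - (w b.1 i - pr (yw M B w) S i) then (1 : ℝ) else 0) else 0) = 0 := by
          refine (EB_congr (fun _ _ => rfl) (fun S _ => ?_)).trans (EB_const T π 0)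
          by_cases h7 : w b.1 i - pr (yw M B w) S i = (c : ℕ)
          · rw [if_pos h7, h7, if_neg h]
          · rw [if_neg h7]
        rw [h6, mul_zero]
    rw [Finset.sum_congr rfl (fun c _ => h4 c), ← Finset.mul_sum, ← EB_sum]
    congr 1
    refine EB_congr (fun _ _ => rfl) (fun S _ => ?_)
    have h8 : w b.1 i - pr (yw M B w) S i < B + 1 := by
      have := hw b.1 i
      omega
    rw [Finset.sum_eq_single (⟨w b.1 i - pr (yw M B w) S i, h8⟩ : Fin (B + 1))]
    · simp
    · intro c _ hc
      rw [if_neg]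
      intro h9
      apply hc
      ext
      exact h9.symm
    · simp
  rw [Finset.sum_congr rfl (fun i _ => h3 i)]
  have h10 : (if θ < yw M B w (Sum.inr (b, Sum.inr (j, none))) j
      then piT A b p π (Sum.inr (b, Sum.inr (j, none))) else 0)
      = if θ < w b.1 j then (up + rh (A b.1 j) * A b.1 j) * A b.1 j / M else 0 := by
    rw [piT_new]
    simp only [h1]
    rfl
  rw [h10]
  by_cases h : θ < w b.1 j
  · rw [if_pos h, if_pos h]
    have h11 : ∀ i, EB T π (fun S =>
          if θ < w b.1 j - (w b.1 i - pr (yw M B w) S i) then (1 : ℝ) else 0)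
        = 1 - EB T π (fun S =>
          if w b.1 j - 1 - θ < w b.1 i - pr (yw M B w) S i then (1 : ℝ) else 0) := by
      intro i
      rw [eq_sub_iff_add_eq, ← EB_add]
      refine (EB_congr (fun _ _ => rfl) (fun S _ => ?_)).trans (EB_const T π 1)
      by_cases h12 : θ < w b.1 j - (w b.1 i - pr (yw M B w) S i)
      · rw [if_pos h12, if_neg (by omega)]
        norm_num
      · rw [if_neg h12, if_pos (by omega)]
        norm_num
    rw [Finset.sum_congr rfl (fun i _ => by rw [h11 i])]
    have h13 : ∑ i, vp * (A b.1 i * A b.1 j) / M * (1 - EB T π (fun S =>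
          if w b.1 j - 1 - θ < w b.1 i - pr (yw M B w) S i then (1 : ℝ) else 0))
        = vp * A b.1 j / M * (∑ i, A b.1 i - ∑ i, A b.1 i * EB T π (fun S =>
          if w b.1 j - 1 - θ < w b.1 i - pr (yw M B w) S i then (1 : ℝ) else 0)) := by
      rw [← Finset.sum_sub_distrib, Finset.mul_sum]
      exact Finset.sum_congr rfl (fun i _ => by ring)
    rw [h13, hA.2.1]
    ring
  · rw [if_neg h, if_neg h]
    have h14 : ∀ i, EB T π (fun S =>
          if θ < w b.1 j - (w b.1 i - pr (yw M B w) S i) then (1 : ℝ) else 0) = 0 := by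
      intro i
      refine (EB_congr (fun _ _ => rfl) (fun S _ => ?_)).trans (EB_const T π 0)
      rw [if_neg (by omega)]
    rw [Finset.sum_eq_zero (fun i _ => by rw [h14 i, mul_zero])]
    ring


/-- the level sum with the weights of the pair `a, c` -/
lemma level_sum2 {A : Fin n → Fin n → ℝ} (hA : DS A) (a c : Fin n) (t0 : Fin M)
    (Rem : Finset (Blk n M)) (hR : ∀ b ∈ Rem, t0 ≤ b.2) :
    ∑ b ∈ Rem, A b.1 a * A b.1 c ≤ ((M : ℝ) - (t0 : ℕ)) * ∑ l, A l a * A l c := by
  have h1 : Rem ⊆ (univ : Finset (Fin n)) ×ˢ Finset.Ici t0 := by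
    intro b hb
    rw [Finset.mem_product]
    exact ⟨Finset.mem_univ _, Finset.mem_Ici.2 (hR b hb)⟩
  calc ∑ b ∈ Rem, A b.1 a * A b.1 c
      ≤ ∑ b ∈ (univ : Finset (Fin n)) ×ˢ Finset.Ici t0, A b.1 a * A b.1 c :=
        Finset.sum_le_sum_of_subset_of_nonneg h1 (fun b _ _ => mul_nonneg (hA.1 _ _) (hA.1 _ _))
    _ = ((M : ℝ) - (t0 : ℕ)) * ∑ l, A l a * A l c := by
        rw [Finset.sum_product]
        simp only [Finset.sum_const, Fin.card_Ici, nsmul_eq_mul]
        rw [← Finset.mul_sum, Nat.cast_sub t0.2.le]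

theorem lind (hP : Stmt_PAR) (hUPP : Stmt_UPP) (hLOW : Stmt_LOW) (hCOV : Stmt_COV)
    (hCON : Stmt_CON) (hLTX : Stmt_LTX) (hQFB : Stmt_QFB) (hALX : Stmt_ALX) (hSIN : Stmt_SIN)
    (hM : 100000 ≤ M) {A : Fin n → Fin n → ℝ} (hA : DS A) (w : Fin n → Fin n → ℕ)
    (hw : ∀ k j, w k j ≤ B) : ∀ (m : ℕ) (Rem : Finset (Blk n M)), Rem.card = m →
    ∀ (T0 : Finset (Lam n M B)) (π : Lam n M B → ℝ),
    (∀ e ∈ T0, ∃ b κ, e = Sum.inr (b, Sum.inr κ) ∧ b ∉ Rem) →
    (∀ b κ, π (Sum.inr (b, Sum.inl κ)) = piS A b κ) →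
    Pro T0 π →
    ∃ β : Fin n → Fin M → ℕ → ℝ, (∀ k t θ, 0 ≤ β k t θ ∧ β k t θ ≤ 1) ∧
      ∑ j, ∑ θ ∈ range B, (1 - Real.exp (-(∑ e ∈ T0.filter (fun e => θ < yw M B w e j), π e
        + ∑ b ∈ Rem, A b.1 j / M *
          (if θ < w b.1 j then up + rh (A b.1 j) * A b.1 j + vp * (1 - β b.1 b.2 (w b.1 j - 1 - θ)) else 0))))
      + ∑ b ∈ Rem, 1 / (M : ℝ) * (vp / 2 * ∑ θ ∈ range B, (β b.1 b.2 θ) ^ 2
          - vp / 2 * lm ^ 2 * ∑ j, A b.1 j ^ 2 * (w b.1 j : ℝ)
          - 10 / M * ∑ j, A b.1 j * (w b.1 j : ℝ)) ≤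
      EB (T0 ∪ Rem.biUnion (realI B)) π (fun S => (opt (yw M B w) S univ : ℝ)) := by
  have hMr : (0 : ℝ) < (M : ℝ) := by
    have : 0 < M := by omega
    exact_mod_cast this
  intro m
  induction m with
  | zero =>
    intro Rem hRem T0 π hT0 hπ hb
    rw [Finset.card_eq_zero] at hRem
    subst hRem
    refine ⟨fun _ _ _ => 0, fun _ _ _ => ⟨le_refl _, by norm_num⟩, ?_⟩
    simp only [Finset.sum_empty, add_zero, Finset.biUnion_empty, Finset.union_empty]
    exact hSIN _ _ (yw M B w) T0 π B hb
      (fun e he => mf_single w (by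
        obtain ⟨b, κ, h, _⟩ := hT0 e he
        exact ⟨b, κ, h⟩))
  | succ m ih =>
    intro Rem hRem T0 π hT0 hπ hb
    have hne : Rem.Nonempty := Finset.card_pos.1 (by omega)
    obtain ⟨b0, hb0, hmin⟩ := Finset.exists_min_image Rem (fun b => b.2) hne
    set Rem' := Rem.erase b0 with hRem'
    set T := T0 ∪ Rem'.biUnion (realI B) with hTdef
    have hT0' : ∀ e ∈ T0, ∃ b κ, e = Sum.inr (b, Sum.inr κ) := by
      intro e he
      obtain ⟨b, κ, h, _⟩ := hT0 e he
      exact ⟨b, κ, h⟩
    have hRsum : ∀ g : Blk n M → ℝ, ∑ b ∈ Rem, g b = g b0 + ∑ b ∈ Rem', g b := fun g =>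
      (Finset.add_sum_erase Rem g hb0).symm
    have hpro : Pro T π := by
      intro e he
      rw [hTdef, Finset.mem_union, Finset.mem_biUnion] at he
      rcases he with he | ⟨b, _, he⟩
      · exact hb e he
      · rw [mem_realI] at he
        obtain ⟨κ, rfl⟩ := he
        rw [hπ]
        exact ⟨piS_nonneg hP hA b κ, piS_le_one hP b κ⟩
    have hdR : Disjoint T (realI B b0) := by
      rw [Finset.disjoint_left]
      intro e he he'
      rw [mem_realI] at he'
      obtain ⟨κ', rfl⟩ := he'
      rw [hTdef, Finset.mem_union, Finset.mem_biUnion] at he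
      rcases he with he | ⟨b, hbR, he⟩
      · obtain ⟨b, κ, h⟩ := hT0' _ he
        simp at h
      · rw [mem_realI] at he
        obtain ⟨κ, h⟩ := he
        simp only [Sum.inr.injEq, Prod.mk.injEq] at h
        rw [hRem', Finset.mem_erase] at hbR
        exact hbR.1 h.1.symm
    have hdF : Disjoint T (mfI B b0) := by
      rw [Finset.disjoint_left]
      intro e he he'
      rw [mem_mfI] at he'
      obtain ⟨κ', rfl⟩ := he'
      rw [hTdef, Finset.mem_union, Finset.mem_biUnion] at he
      rcases he with he | ⟨b, hbR, he⟩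
      · obtain ⟨b, κ, h, hbn⟩ := hT0 _ he
        simp only [Sum.inr.injEq, Prod.mk.injEq] at h
        rw [← h.1] at hbn
        exact hbn hb0
      · rw [mem_realI] at he
        obtain ⟨κ, h⟩ := he
        simp at h
    have hv : (0 : ℝ) ≤ vp := by have := hP.2.2.1; linarith
    have hRle : ∀ b ∈ Rem', b0.2 ≤ b.2 := fun b hbR => hmin b (Finset.mem_of_mem_erase hbR)
    have hQ : ∀ a c, a ≠ c → Qr (yw M B w) T π a c ≤ vp * sb b0 * ∑ l, A l a * A l c := by
      intro a c hac
      have h1 : Qr (yw M B w) T π a c ≤ ∑ b ∈ Rem', vp / M * (A b.1 a * A b.1 c) := by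
        unfold Qr
        rw [Finset.sum_filter, sum_T hT0']
        have h2 : ∑ e ∈ T0, (if yw M B w e a ≠ 0 ∧ yw M B w e c ≠ 0 then π e else 0) = 0 := by
          refine Finset.sum_eq_zero (fun e he => ?_)
          rw [if_neg]
          rintro ⟨h3, h4⟩
          obtain ⟨j0, hj0⟩ := mf_single w (hT0' e he)
          have h5 : a = j0 := by
            by_contra hcon
            exact h3 (hj0 a hcon)
          have h6 : c = j0 := by
            by_contra hcon
            exact h4 (hj0 c hcon)
          exact hac (h5.trans h6.symm)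
        rw [h2, zero_add]
        refine Finset.sum_le_sum (fun b _ => ?_)
        rw [← Finset.sum_filter]
        exact Q_real hP hA w π b (hπ b) a c hac
      refine h1.trans ?_
      rw [← Finset.mul_sum]
      have h2 := mul_le_mul_of_nonneg_left (level_sum2 hA a c b0.2 Rem' hRle)
        (div_nonneg hv hMr.le)
      refine h2.trans (le_of_eq ?_)
      unfold sb
      ring
    have hstep := block_step hP hUPP hLOW hCOV hCON hLTX hQFB hALX hM hA w hw π b0
      (hπ b0) T hpro hdR hdF hQ
    set p : Fin n → ℕ → ℝ := fun i c => EB T π (fun S =>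
          if w b0.1 i - pr (yw M B w) S i = c then (1 : ℝ) else 0) with hp
    have hp01 : ∀ i c, 0 ≤ p i c ∧ p i c ≤ 1 := fun i c =>
      ⟨EB_nonneg hpro (fun S _ => by split_ifs <;> norm_num),
        (EB_mono hpro (fun S _ => by split_ifs <;> norm_num)).trans (EB_const T π 1).le⟩
    set βn : ℕ → ℝ := fun θ => ∑ i, A b0.1 i * EB T π (fun S =>
          if θ < w b0.1 i - pr (yw M B w) S i then (1 : ℝ) else 0) with hβn
    have hβn01 : ∀ θ, 0 ≤ βn θ ∧ βn θ ≤ 1 := by
      intro θ
      have hq : ∀ i, 0 ≤ EB T π (fun S =>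
          if θ < w b0.1 i - pr (yw M B w) S i then (1 : ℝ) else 0) ∧ EB T π (fun S =>
          if θ < w b0.1 i - pr (yw M B w) S i then (1 : ℝ) else 0) ≤ 1 := fun i =>
        ⟨EB_nonneg hpro (fun S _ => by split_ifs <;> norm_num),
          (EB_mono hpro (fun S _ => by split_ifs <;> norm_num)).trans (EB_const T π 1).le⟩
      constructor
      · exact Finset.sum_nonneg (fun i _ => mul_nonneg (hA.1 _ _) (hq i).1)
      · calc βn θ ≤ ∑ i, A b0.1 i * 1 :=
              Finset.sum_le_sum (fun i _ => mul_le_mul_of_nonneg_left (hq i).2 (hA.1 _ _))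
          _ = 1 := by simp only [mul_one]; exact hA.2.1 b0.1
    have hms : ∀ j θ, ∑ e ∈ (mfI B b0).filter (fun e => θ < yw M B w e j), piT A b0 p π e =
        A b0.1 j / M * (if θ < w b0.1 j then up + rh (A b0.1 j) * A b0.1 j + vp * (1 - βn (w b0.1 j - 1 - θ)) else 0) :=
      fun j θ => mf_sum A hA w hw π T b0 j θ
    -- the new family
    set T0n := T0 ∪ mfI B b0 with hT0n
    have hdF0 : Disjoint T0 (mfI B b0) :=
      Finset.disjoint_of_subset_left Finset.subset_union_left hdF
    have hsumn : ∀ (P : Lam n M B → Prop) [DecidablePred P],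
        ∑ e ∈ T0n.filter P, piT A b0 p π e
          = ∑ e ∈ T0.filter P, π e + ∑ e ∈ (mfI B b0).filter P, piT A b0 p π e := by
      intro P _
      rw [hT0n, Finset.filter_union, Finset.sum_union (Finset.disjoint_filter_filter hdF0)]
      congr 1
      refine Finset.sum_congr rfl (fun e he => ?_)
      exact piT_old A b0 p π e (Finset.disjoint_left.1 hdF0 (Finset.mem_filter.1 he).1)
    obtain ⟨β', hβ'01, hβ'⟩ := ih Rem' (by rw [hRem', Finset.card_erase_of_mem hb0]; omega)
      T0n (piT A b0 p π)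
      (by
        intro e he
        rw [hT0n, Finset.mem_union] at he
        rcases he with he | he
        · obtain ⟨b, κ, h, hbn⟩ := hT0 e he
          exact ⟨b, κ, h, fun h' => hbn (Finset.mem_of_mem_erase h')⟩
        · rw [mem_mfI] at he
          obtain ⟨κ, rfl⟩ := he
          exact ⟨b0, κ, rfl, Finset.notMem_erase b0 Rem⟩)
      (fun b κ => hπ b κ)
      (by
        intro e he
        rw [hT0n, Finset.mem_union] at he
        rcases he with he | he
        · rw [piT_old A b0 p π e (Finset.disjoint_left.1 hdF0 he)]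
          exact hb e he
        · rw [mem_mfI] at he
          obtain ⟨κ, rfl⟩ := he
          rw [piT_new]
          exact pmS_bd hP hA b0 p hp01 κ)
    have hset : T0n ∪ Rem'.biUnion (realI B) = T ∪ mfI B b0 := by
      rw [hT0n, hTdef]
      ext e
      simp only [Finset.mem_union]
      tauto
    have hset2 : T0 ∪ Rem.biUnion (realI B) = T ∪ realI B b0 := by
      rw [hTdef, ← Finset.insert_erase hb0, Finset.biUnion_insert]
      ext e
      simp only [Finset.mem_union, hRem']
      tauto
    rw [hset] at hβ'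
    refine ⟨fun k t θ => if (k, t) = b0 then βn θ else β' k t θ, fun k t θ => ?_, ?_⟩
    · show 0 ≤ (if (k, t) = b0 then βn θ else β' k t θ) ∧
        (if (k, t) = b0 then βn θ else β' k t θ) ≤ 1
      split_ifs
      · exact hβn01 θ
      · exact hβ'01 k t θ
    rw [hset2]
    refine le_trans ?_ hstep
    refine le_trans ?_ (add_le_add hβ' (le_refl _))
    have hb0e : ((b0.1, b0.2) : Blk n M) = b0 := rfl
    have hnew : ∀ b ∈ Rem', ¬ ((b.1, b.2) : Blk n M) = b0 := fun b hbR =>
      Finset.ne_of_mem_erase hbR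
    have e1 : ∀ j θ, ∑ e ∈ T0n.filter (fun e => θ < yw M B w e j), piT A b0 p π e
        + ∑ b ∈ Rem', A b.1 j / M *
          (if θ < w b.1 j then up + rh (A b.1 j) * A b.1 j + vp * (1 - β' b.1 b.2 (w b.1 j - 1 - θ)) else 0)
        = ∑ e ∈ T0.filter (fun e => θ < yw M B w e j), π e
        + ∑ b ∈ Rem, A b.1 j / M *
          (if θ < w b.1 j then up + rh (A b.1 j) * A b.1 j + vp * (1 - (if (b.1, b.2) = b0 then βn (w b.1 j - 1 - θ)
            else β' b.1 b.2 (w b.1 j - 1 - θ))) else 0) := by
      intro j θ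
      rw [hsumn (fun e => θ < yw M B w e j), hms j θ, hRsum, if_pos hb0e, add_assoc]
      congr 2
      refine Finset.sum_congr rfl (fun b hbR => ?_)
      rw [if_neg (hnew b hbR)]
    simp only [e1]
    have e2 : ∑ b ∈ Rem, 1 / (M : ℝ) * (vp / 2 * ∑ θ ∈ range B,
          (if (b.1, b.2) = b0 then βn θ else β' b.1 b.2 θ) ^ 2
          - vp / 2 * lm ^ 2 * ∑ j, A b.1 j ^ 2 * (w b.1 j : ℝ)
          - 10 / M * ∑ j, A b.1 j * (w b.1 j : ℝ))
        = 1 / (M : ℝ) * (vp / 2 * ∑ θ ∈ range B, (βn θ) ^ 2
          - vp / 2 * lm ^ 2 * ∑ j, A b0.1 j ^ 2 * (w b0.1 j : ℝ)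
          - 10 / M * ∑ j, A b0.1 j * (w b0.1 j : ℝ))
        + ∑ b ∈ Rem', 1 / (M : ℝ) * (vp / 2 * ∑ θ ∈ range B, (β' b.1 b.2 θ) ^ 2
          - vp / 2 * lm ^ 2 * ∑ j, A b.1 j ^ 2 * (w b.1 j : ℝ)
          - 10 / M * ∑ j, A b.1 j * (w b.1 j : ℝ)) := by
      rw [hRsum]
      congr 1
      · simp only [if_pos hb0e]
        rfl
      · refine Finset.sum_congr rfl (fun b hbR => ?_)
        simp only [if_neg (hnew b hbR)]
    rw [e2]
    apply le_of_eq
    ring


end FIN_

end

end Pool.Agent.CGS
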