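import Pool.Agent.CGS.FIND

/-!
# Assembly of the project CGS, part E: the theorem for integer weights
-/

set_option autoImplicit false
set_option linter.unusedSectionVars false

open Finset Pool.Agent.CGM Pool.Agent.CGM.FIN_
open scoped Classical

namespace Pool.Agent.CGS

noncomputable section

namespace FIN_

/-- integer weights, with an error `10/M` -/
theorem fin_M (hP : Stmt_PAR) (hOPI : Stmt_OPI) (hUPP : Stmt_UPP) (hLOW : Stmt_LOW)
    (hHYB : Stmt_HYB) (hOPK : Stmt_OPK) (hCOV : Stmt_COV) (hCON : Stmt_CON) (hSIN : Stmt_SIN)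
    (hUPX : Stmt_UPX) (hCPX : Stmt_CPX) (hAVK : Stmt_AVK) (hLTX : Stmt_LTX) (hQFB : Stmt_QFB)
    (hALX : Stmt_ALX) (hEVX : Stmt_EVX) (n M : ℕ) (hM : 100000 ≤ M) (A : Fin n → Fin n → ℝ)
    (w : Fin n → Fin n → ℕ) (hA : DS A) :
    (2 * (1 - lm) - lm ^ 2 - 10 / M) * ∑ i, ∑ j, A i j * (w i j : ℝ) ≤
      Phi A (fun i j => (w i j : ℝ)) := by
  obtain ⟨B, hB⟩ : ∃ B, ∀ k j, w k j ≤ B := by
    refine ⟨univ.sup (fun e : Fin n × Fin n => w e.1 e.2), fun k j => ?_⟩
    exact Finset.le_sup (f := fun e : Fin n × Fin n => w e.1 e.2) (Finset.mem_univ (k, j))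
  have hM0 : 0 < M := by omega
  set π : Lam n M B → ℝ := fun e => match e with
    | Sum.inr (b, Sum.inl κ) => piS A b κ
    | _ => 0 with hπdef
  have hπ : ∀ b κ, π (Sum.inr (b, Sum.inl κ)) = piS A b κ := fun b κ => rfl
  have h1 := rows_to_items hP hOPI hUPX hCPX hAVK hHYB hOPK hM hA w hB π hπ
  obtain ⟨β, hβ01, hβ⟩ := lind hP hUPP hLOW hCOV hCON hLTX hQFB hALX hSIN hM hA w hB _
    (univ : Finset (Blk n M)) rfl ∅ π (by simp) hπ (fun e he => by simp at he)
  rw [Finset.empty_union] at hβ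
  refine le_trans ?_ (hβ.trans h1)
  refine (hEVX n M B A w β hA hM0 hB hβ01).trans (le_of_eq ?_)
  simp only [Finset.filter_empty, Finset.sum_empty, zero_add, Fintype.sum_prod_type]

/-- a number which is larger than `g - 10/M` times `T` for all large `M` is at least `g T` -/
lemma limit_M (g T X : ℝ) (h : ∀ M : ℕ, 100000 ≤ M → (g - 10 / M) * T ≤ X) : g * T ≤ X := by
  have h1 : Filter.Tendsto (fun M : ℕ => (g - 10 / (M : ℝ)) * T) Filter.atTop
      (nhds ((g - 0) * T)) := by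
    apply Filter.Tendsto.mul_const
    apply Filter.Tendsto.const_sub
    exact tendsto_const_div_atTop_nhds_zero_nat 10
  rw [sub_zero] at h1
  exact le_of_tendsto h1 (Filter.eventually_atTop.2 ⟨100000, fun M hM => h M hM⟩)

end FIN_

end

end Pool.Agent.CGS
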