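import Pool.Agent.CGS.Stmts

set_option autoImplicit false

open Finset Pool.Agent.CGM
open scoped Classical

namespace Pool.Agent.CGS

namespace KIL_

variable {Λ J : Type} [Fintype Λ] [DecidableEq Λ] [Fintype J] [DecidableEq J]

theorem layer (y : Λ → J → ℕ) (m : Λ → Option J) (B : ℕ)
    (hb : ∀ e j, m e = some j → y e j ≤ B) :
    val y m ≤ ∑ θ ∈ range B, (univ.filter (fun e => ∃ j, m e = some j ∧ θ < y e j)).card := by
  have h1 : ∀ e, (m e).elim 0 (y e) ≤
      ∑ θ ∈ range B, if (∃ j, m e = some j ∧ θ < y e j) then 1 else 0 := by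
    intro e
    rcases hme : m e with _ | j
    · simp
    · have h2 : ∀ θ, (∃ j', some j = some j' ∧ θ < y e j') ↔ θ < y e j := by
        intro θ
        constructor
        · rintro ⟨j', h, h'⟩
          cases h
          exact h'
        · intro h
          exact ⟨j, rfl, h⟩
      simp only [h2, Option.elim_some]
      rw [← card_filter]
      have h3 : range (y e j) ⊆ (range B).filter (fun θ => θ < y e j) := by
        intro θ hθ
        rw [mem_range] at hθ
        rw [mem_filter, mem_range]
        exact ⟨lt_of_lt_of_le hθ (hb e j hme), hθ⟩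
      have := card_le_card h3
      rwa [card_range] at this
  calc val y m ≤ ∑ e, ∑ θ ∈ range B, (if (∃ j, m e = some j ∧ θ < y e j) then 1 else 0) :=
        sum_le_sum (fun e _ => h1 e)
    _ = ∑ θ ∈ range B, ∑ e, (if (∃ j, m e = some j ∧ θ < y e j) then 1 else 0) := sum_comm
    _ = _ := by
        refine sum_congr rfl (fun θ _ => ?_)
        rw [card_filter]

end KIL_

open KIL_ in
theorem kil_proof : Stmt_KIL := by
  intro Λ J _ _ _ _ y L tch x B hB hy
  obtain ⟨m, hm, hv⟩ := exists_opt y L univ
  have hx : ∀ e ∈ L, ∀ j, y e j ≤ x j := by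
    intro e he j
    refine (hy e he j).trans ?_
    split_ifs
    · exact le_rfl
    · exact Nat.zero_le _
  rw [← hv]
  refine (layer y m B (fun e j h => (hx e (hm.1 e j h).1 j).trans (hB j))).trans
    (sum_le_sum fun θ _ => ?_)
  set D : Finset J := univ.filter (fun j => θ < x j) with hD
  have hmem : ∀ e j, m e = some j → θ < y e j → e ∈ L ∧ j ∈ tch e ∧ j ∈ D := by
    intro e j h h'
    have he := (hm.1 e j h).1
    have h1 := hy e he j
    refine ⟨he, ?_, ?_⟩
    · by_contra hj
      rw [if_neg hj] at h1
      omega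
    · rw [hD, mem_filter]
      exact ⟨mem_univ _, lt_of_lt_of_le h' (hx e he j)⟩
  set E : Finset Λ := univ.filter (fun e => ∃ j, m e = some j ∧ θ < y e j) with hE
  have hsplit : E.card = (E.filter (fun e => ¬ Inn tch D e)).card +
      (E.filter (fun e => Inn tch D e)).card := by
    rw [add_comm]
    exact (card_filter_add_card_filter_not (s := E) (fun e => Inn tch D e)).symm
  rw [hsplit]
  refine add_le_add ?_ ?_
  · refine card_le_card_of_forall_subsingleton (fun e j => m e = some j) ?_ ?_
    · intro e he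
      rw [mem_filter, hE, mem_filter] at he
      obtain ⟨⟨-, j, h1, h2⟩, h3⟩ := he
      obtain ⟨g1, g2, g3⟩ := hmem e j h1 h2
      refine ⟨j, ?_, h1⟩
      rw [mem_filter]
      exact ⟨g3, e, g1, g2, h3⟩
    · intro j _ e he e' he'
      exact hm.2 e e' j he.2 he'.2
  · refine card_le_card ?_
    intro e he
    rw [mem_filter, hE, mem_filter] at he
    obtain ⟨⟨-, j, h1, h2⟩, h3⟩ := he
    rw [mem_filter]
    exact ⟨(hmem e j h1 h2).1, h3⟩

end Pool.Agent.CGS
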