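import Pool.Agent.CGS.Stmts

/-!
# Project CGS: module LTX (weighted bound for the connection probabilities)
-/

set_option autoImplicit false
set_option linter.unusedSectionVars false

open Finset Pool.Agent.CGM
open scoped Classical

namespace Pool.Agent.CGS

noncomputable section

namespace LTX_

variable {J : Type} [Fintype J] [DecidableEq J]

theorem row_le (P : J → J → ℝ) (hP : ∀ a b, 0 ≤ P a b) (hP1 : ∀ a, P a a = 1)
    (α : J → ℝ) (hα : ∀ a, 0 ≤ α a) (a c : J) :
    ∑ b ∈ univ.erase a, P c b * α b ≤ α c + ∑ b ∈ univ.erase c, P c b * α b := by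
  have h1 : ∑ b ∈ univ.erase a, P c b * α b ≤ ∑ b, P c b * α b :=
    sum_le_sum_of_subset_of_nonneg (erase_subset _ _)
      (fun i _ _ => mul_nonneg (hP c i) (hα i))
  have h2 : ∑ b, P c b * α b = P c c * α c + ∑ b ∈ univ.erase c, P c b * α b :=
    (add_sum_erase univ (fun b => P c b * α b) (mem_univ c)).symm
  rw [hP1, one_mul] at h2
  linarith

end LTX_

open LTX_

theorem ltx_proof : Stmt_LTX := by
  intro J _ _ Q P G z nn hz hn hzn hQ hP hP1 hrec hG α hα
  obtain ⟨be, hbe⟩ : ∃ be : J → ℝ, be = fun a => ∑ b ∈ univ.erase a, P a b * α b := ⟨_, rfl⟩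
  have hbe' : ∀ a, be a = ∑ b ∈ univ.erase a, P a b * α b := fun a => by rw [hbe]
  obtain ⟨y, hy⟩ : ∃ y : J → ℝ, y = fun a => α a + be a := ⟨_, rfl⟩
  have hy' : ∀ a, y a = α a + be a := fun a => by rw [hy]
  have hbe0 : ∀ a, 0 ≤ be a := fun a => by
    rw [hbe']
    exact sum_nonneg fun b _ => mul_nonneg (hP a b) (hα b)
  have hy0 : ∀ a, 0 ≤ y a := fun a => by
    rw [hy']
    exact add_nonneg (hα a) (hbe0 a)
  -- bound for be
  have hb1 : ∀ a, be a ≤ ∑ c ∈ univ.erase a, z * G a c * y c := by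
    intro a
    have h1 : be a ≤ ∑ b ∈ univ.erase a, (∑ c ∈ univ.erase a, Q a c * P c b) * α b := by
      rw [hbe']
      refine sum_le_sum fun b hb => ?_
      exact mul_le_mul_of_nonneg_right (hrec a b (ne_of_mem_erase hb).symm) (hα b)
    have h2 : ∑ b ∈ univ.erase a, (∑ c ∈ univ.erase a, Q a c * P c b) * α b =
        ∑ c ∈ univ.erase a, Q a c * ∑ b ∈ univ.erase a, P c b * α b := by
      simp only [sum_mul, mul_sum]
      rw [sum_comm]
      refine sum_congr rfl fun c _ => sum_congr rfl fun b _ => ?_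
      ring
    rw [h2] at h1
    refine h1.trans (sum_le_sum fun c hc => ?_)
    have hca : a ≠ c := (ne_of_mem_erase hc).symm
    obtain ⟨q0, q1⟩ := hQ a c hca
    have h3 : ∑ b ∈ univ.erase a, P c b * α b ≤ y c := by
      rw [hy', hbe']
      exact row_le P hP hP1 α hα a c
    calc Q a c * ∑ b ∈ univ.erase a, P c b * α b ≤ Q a c * y c :=
          mul_le_mul_of_nonneg_left h3 q0
      _ ≤ z * G a c * y c := mul_le_mul_of_nonneg_right q1 (hy0 c)
  -- quadratic form
  have hq : ∑ a, y a * be a ≤ ∑ a, z * nn a * y a ^ 2 := by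
    have h1 : ∑ a, y a * be a ≤ ∑ a, ∑ c ∈ univ.erase a, z * (G a c * (y a * y c)) := by
      refine sum_le_sum fun a _ => ?_
      have := mul_le_mul_of_nonneg_left (hb1 a) (hy0 a)
      refine this.trans (le_of_eq ?_)
      rw [mul_sum]
      refine sum_congr rfl fun c _ => ?_
      ring
    have h2 : ∑ a, ∑ c ∈ univ.erase a, z * (G a c * (y a * y c)) =
        z * ∑ a, ∑ c ∈ univ.erase a, G a c * (y a * y c) := by
      rw [mul_sum]
      refine sum_congr rfl fun a _ => ?_
      rw [mul_sum]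
    have h3 : z * ∑ a, ∑ c ∈ univ.erase a, G a c * (y a * y c) ≤ z * ∑ a, nn a * y a ^ 2 :=
      mul_le_mul_of_nonneg_left (hG y hy0) hz
    have h4 : z * ∑ a, nn a * y a ^ 2 = ∑ a, z * nn a * y a ^ 2 := by
      rw [mul_sum]
      refine sum_congr rfl fun a _ => ?_
      ring
    linarith
  have hA : ∑ a, (1 - z * nn a) * y a ^ 2 ≤ ∑ a, α a * y a := by
    have h1 : ∑ a, y a * be a = ∑ a, y a ^ 2 - ∑ a, α a * y a := by
      rw [← sum_sub_distrib]
      refine sum_congr rfl fun a _ => ?_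
      have := hy' a
      have hb : be a = y a - α a := by linarith
      rw [hb]
      ring
    have h2 : ∑ a, (1 - z * nn a) * y a ^ 2 = ∑ a, y a ^ 2 - ∑ a, z * nn a * y a ^ 2 := by
      rw [← sum_sub_distrib]
      refine sum_congr rfl fun a _ => ?_
      ring
    linarith
  have hB : ∑ a, α a * y a ≤ ∑ a, α a ^ 2 / (1 - z * nn a) := by
    have h1 : ∑ a, 2 * (α a * y a) ≤ ∑ a, (α a ^ 2 / (1 - z * nn a) + (1 - z * nn a) * y a ^ 2) := by
      refine sum_le_sum fun a _ => ?_
      have hp : 0 < 1 - z * nn a := by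
        have := hzn a
        linarith
      have h3 : α a ^ 2 / (1 - z * nn a) + (1 - z * nn a) * y a ^ 2 - 2 * (α a * y a) =
          (α a - (1 - z * nn a) * y a) ^ 2 / (1 - z * nn a) := by
        field_simp
        ring
      have h4 : 0 ≤ (α a - (1 - z * nn a) * y a) ^ 2 / (1 - z * nn a) := by positivity
      linarith
    rw [sum_add_distrib, ← mul_sum] at h1
    linarith
  have hC : ∑ a, ∑ b ∈ univ.erase a, α a * α b * P a b = ∑ a, α a * y a - ∑ a, α a ^ 2 := by
    rw [← sum_sub_distrib]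
    refine sum_congr rfl fun a _ => ?_
    rw [hy', hbe']
    have : ∑ b ∈ univ.erase a, α a * α b * P a b = α a * ∑ b ∈ univ.erase a, P a b * α b := by
      rw [mul_sum]
      refine sum_congr rfl fun b _ => ?_
      ring
    rw [this]
    ring
  have hD : ∑ a, z * nn a / (1 - z * nn a) * α a ^ 2 =
      ∑ a, α a ^ 2 / (1 - z * nn a) - ∑ a, α a ^ 2 := by
    rw [← sum_sub_distrib]
    refine sum_congr rfl fun a _ => ?_
    have hp : 0 < 1 - z * nn a := by
      have := hzn a
      linarith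
    field_simp
    ring
  rw [hC, hD]
  linarith

end

end Pool.Agent.CGS
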