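import Pool.Agent.CGS.Stmts

set_option autoImplicit false

open Finset Pool.Agent.CGM
open scoped Classical

namespace Pool.Agent.CGS

noncomputable section

namespace NTX_

lemma exp_le_of_nonpos {w : ℝ} (hw : w ≤ 0) : Real.exp w ≤ 1 + w + w ^ 2 / 2 := by
  have h1 := Real.quadratic_le_exp_of_nonneg (x := -w) (by linarith)
  have h2 : Real.exp w * Real.exp (-w) = 1 := by
    rw [← Real.exp_add, add_neg_cancel, Real.exp_zero]
  have h3 := Real.exp_pos w
  have h4 : Real.exp w * (1 + -w + (-w) ^ 2 / 2) ≤ 1 := by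
    calc Real.exp w * (1 + -w + (-w) ^ 2 / 2) ≤ Real.exp w * Real.exp (-w) :=
          mul_le_mul_of_nonneg_left h1 h3.le
      _ = 1 := h2
  have h5 : 0 < 1 + -w + (-w) ^ 2 / 2 := by nlinarith
  have h6 : 1 ≤ (1 + w + w ^ 2 / 2) * (1 + -w + (-w) ^ 2 / 2) := by nlinarith [sq_nonneg (w ^ 2)]
  have h7 : Real.exp w * (1 + -w + (-w) ^ 2 / 2) ≤
      (1 + w + w ^ 2 / 2) * (1 + -w + (-w) ^ 2 / 2) := h4.trans h6
  exact le_of_mul_le_mul_right h7 h5

lemma exp_le_of_nonneg {w : ℝ} (hw : 0 ≤ w) (hw1 : w ≤ 1) : Real.exp w ≤ 1 + w + w ^ 2 := by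
  have h := Real.abs_exp_sub_one_sub_id_le (x := w) (by rw [abs_of_nonneg hw]; exact hw1)
  have h2 := (abs_le.1 h).2
  linarith

end NTX_

open NTX_

theorem ntx_proof (hP : Stmt_PAR) : Stmt_NTX := by
  intro a b ha ha1 hb hb1
  obtain ⟨l1, l2, v1, v2⟩ := hP
  have hl := lm_pos
  have hv : vp * lm ^ 2 = 2 * (1 - lm - lm ^ 2) := by
    unfold vp
    field_simp
  have hup : up = lm * (1 + vp) - vp := rfl
  obtain ⟨r, hr⟩ : ∃ r, r = rh a := ⟨_, rfl⟩
  have hclass : 0 ≤ r ∧ r ^ 2 * a ≤ (1 - 392164 / 1000000) * (2 * r - 392164 / 1000000) ∧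
      392164 / 1000000 ≤ 2 * r := by
    rw [hr]
    unfold rh st
    split_ifs with h1 h2 h3 h4
    · exact ⟨by norm_num, by linarith, by norm_num⟩
    · exact ⟨by norm_num, by linarith, by norm_num⟩
    · exact ⟨by norm_num, by linarith, by norm_num⟩
    · exact ⟨by norm_num, by linarith, by norm_num⟩
    · exact ⟨by norm_num, by linarith, by norm_num⟩
  obtain ⟨hr0, hr1, hr2⟩ := hclass
  obtain ⟨p, hp⟩ : ∃ p, p = vp * lm := ⟨_, rfl⟩
  have hp0 : 0 < p := by rw [hp]; exact mul_pos (by linarith) hl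
  have hp1 : p ≤ 392164 / 1000000 := by
    rw [hp]
    calc vp * lm ≤ 69147 / 100000 * (567144 / 1000000) :=
          mul_le_mul v2 l2 hl.le (by norm_num)
      _ ≤ 392164 / 1000000 := by norm_num
  obtain ⟨x, hx⟩ : ∃ x, x = r * a := ⟨_, rfl⟩
  have hx0 : 0 ≤ x := by rw [hx]; exact mul_nonneg hr0 ha
  obtain ⟨w, hw⟩ : ∃ w, w = vp * (b - lm) - x := ⟨_, rfl⟩
  have hexp : Real.exp (-(up + rh a * a + vp * (1 - b))) = lm * Real.exp w := by
    have h1 : -(up + rh a * a + vp * (1 - b)) = -lm + w := by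
      rw [hw, hx, hr, hup]; ring
    rw [h1, Real.exp_add, ← lm_eq]
  rw [hexp]
  have hpx : p * a ≤ 2 * x := by
    rw [hx]
    nlinarith
  rcases le_total w 0 with hw0 | hw0
  · have hE := exp_le_of_nonpos hw0
    have e1 : 2 * vp * (1 - lm * (1 + w + w ^ 2 / 2) + vp / 2 * b ^ 2 - vp / 2 * lm ^ 2 * a
        - (2 * (1 - lm) - lm ^ 2)) = 2 * p * x - p * w ^ 2 + (w + x) ^ 2 - p ^ 2 * a := by
      rw [hp, hw]
      linear_combination vp * hv
    have hq : 0 < 1 - p := by linarith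
    have h2 : r ^ 2 * a ≤ (1 - p) * (2 * r - p) := by
      refine hr1.trans ?_
      apply mul_le_mul <;> linarith
    have h3 : x ^ 2 ≤ (1 - p) * (2 * x - p * a) := by
      have h4 : x ^ 2 = (r ^ 2 * a) * a := by rw [hx]; ring
      have h5 : (1 - p) * (2 * x - p * a) = ((1 - p) * (2 * r - p)) * a := by rw [hx]; ring
      rw [h4, h5]
      exact mul_le_mul_of_nonneg_right h2 ha
    have h4 : 0 ≤ 2 * p * x - p * w ^ 2 + (w + x) ^ 2 - p ^ 2 * a := by
      have h5 : 0 ≤ (1 - p) * (2 * p * x - p * w ^ 2 + (w + x) ^ 2 - p ^ 2 * a) := by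
        have h6 : (1 - p) * (2 * p * x - p * w ^ 2 + (w + x) ^ 2 - p ^ 2 * a) =
            ((1 - p) * w + x) ^ 2 + p * ((1 - p) * (2 * x - p * a) - x ^ 2) := by ring
        rw [h6]
        have h7 : 0 ≤ (1 - p) * (2 * x - p * a) - x ^ 2 := by linarith
        positivity
      exact nonneg_of_mul_nonneg_right h5 hq
    have h5 : 0 ≤ 1 - lm * (1 + w + w ^ 2 / 2) + vp / 2 * b ^ 2 - vp / 2 * lm ^ 2 * a
        - (2 * (1 - lm) - lm ^ 2) := by
      rw [← e1] at h4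
      exact nonneg_of_mul_nonneg_right h4 (by linarith)
    have h6 : lm * Real.exp w ≤ lm * (1 + w + w ^ 2 / 2) := mul_le_mul_of_nonneg_left hE hl.le
    linarith
  · have hw1 : w ≤ 1 := by
      rw [hw]
      nlinarith
    have hE := exp_le_of_nonneg hw0 hw1
    have e1 : 2 * vp * (1 - lm * (1 + w + w ^ 2) + vp / 2 * b ^ 2 - vp / 2 * lm ^ 2 * a
        - (2 * (1 - lm) - lm ^ 2)) = 2 * p * x - 2 * p * w ^ 2 + (w + x) ^ 2 - p ^ 2 * a := by
      rw [hp, hw]
      linear_combination vp * hv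
    have h4 : 0 ≤ 2 * p * x - 2 * p * w ^ 2 + (w + x) ^ 2 - p ^ 2 * a := by
      have h5 : 0 ≤ p * (2 * x - p * a) := mul_nonneg hp0.le (by linarith)
      have h6 : 0 ≤ (1 - 2 * p) * w ^ 2 := mul_nonneg (by linarith) (sq_nonneg w)
      have h7 : 0 ≤ w * x := mul_nonneg hw0 hx0
      nlinarith [sq_nonneg x]
    have h5 : 0 ≤ 1 - lm * (1 + w + w ^ 2) + vp / 2 * b ^ 2 - vp / 2 * lm ^ 2 * a
        - (2 * (1 - lm) - lm ^ 2) := by
      rw [← e1] at h4
      exact nonneg_of_mul_nonneg_right h4 (by linarith)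
    have h6 : lm * Real.exp w ≤ lm * (1 + w + w ^ 2) := mul_le_mul_of_nonneg_left hE hl.le
    linarith

end

end Pool.Agent.CGS
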