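import Pool.Agent.CGS.Stmts

/-!
# Module PAR: numerical bounds for `lm` and `vp`
-/

set_option autoImplicit false

open Finset Pool.Agent.CGM
open scoped Classical

namespace Pool.Agent.CGS

namespace PAR_

theorem exp_lo : (567143 / 1000000 : ℝ) ≤ Real.exp (-(567143 / 1000000)) := by
  have h := Real.exp_bound (x := -(567143 / 1000000 : ℝ)) (by rw [abs_neg, abs_of_pos] <;> norm_num)
    (n := 10) (by norm_num)
  rw [abs_le] at h
  have h1 := h.1
  rw [abs_neg, abs_of_pos (by norm_num : (0 : ℝ) < 567143 / 1000000)] at h1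
  simp only [Finset.sum_range_succ, Finset.sum_range_zero, Nat.factorial, Nat.succ_eq_add_one]
    at h1
  norm_num at h1 ⊢
  linarith

theorem exp_hi : Real.exp (-(567144 / 1000000)) ≤ (567144 / 1000000 : ℝ) := by
  have h := Real.exp_bound (x := -(567144 / 1000000 : ℝ)) (by rw [abs_neg, abs_of_pos] <;> norm_num)
    (n := 10) (by norm_num)
  rw [abs_le] at h
  have h1 := h.2
  rw [abs_neg, abs_of_pos (by norm_num : (0 : ℝ) < 567144 / 1000000)] at h1
  simp only [Finset.sum_range_succ, Finset.sum_range_zero, Nat.factorial, Nat.succ_eq_add_one]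
    at h1
  norm_num at h1 ⊢
  linarith

end PAR_

open PAR_

theorem par_proof : Stmt_PAR := by
  have hlo : (567143 / 1000000 : ℝ) ≤ lm := by
    by_contra hc
    push Not at hc
    have h1 : Real.exp (-(567143 / 1000000)) ≤ Real.exp (-lm) :=
      Real.exp_le_exp.2 (by linarith)
    have h2 := exp_lo
    have h3 := lm_eq
    linarith
  have hhi : lm ≤ (567144 / 1000000 : ℝ) := by
    by_contra hc
    push Not at hc
    have h1 : Real.exp (-lm) ≤ Real.exp (-(567144 / 1000000)) :=
      Real.exp_le_exp.2 (by linarith)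
    have h2 := exp_hi
    have h3 := lm_eq
    linarith
  have hp := lm_pos
  have hp2 : 0 < lm ^ 2 := by positivity
  refine ⟨hlo, hhi, ?_, ?_⟩
  · unfold vp
    rw [le_div_iff₀ hp2]
    nlinarith
  · unfold vp
    rw [div_le_iff₀ hp2]
    nlinarith

end Pool.Agent.CGS
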