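import Pool.Agent.CGS.Stmts

/-!
# CGS, module QFB: the quadratic form of a doubly stochastic matrix
-/

set_option autoImplicit false

open Finset Pool.Agent.CGM
open scoped Classical

namespace Pool.Agent.CGS

noncomputable section

namespace QFB_

/-- Cauchy-Schwarz with weights -/
lemma cs_w {n : ℕ} (w r : Fin n → ℝ) (hw : ∀ l, 0 ≤ w l) (h1 : ∑ l, w l = 1) :
    (∑ l, w l * r l) ^ 2 ≤ ∑ l, w l * r l ^ 2 := by
  have h := Finset.sum_mul_sq_le_sq_mul_sq univ (fun l => Real.sqrt (w l))
    (fun l => Real.sqrt (w l) * r l)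
  have e1 : ∑ l, Real.sqrt (w l) * (Real.sqrt (w l) * r l) = ∑ l, w l * r l :=
    Finset.sum_congr rfl (fun l _ => by
      rw [← mul_assoc, Real.mul_self_sqrt (hw l)])
  have e2 : ∑ l, Real.sqrt (w l) ^ 2 = 1 := by
    rw [← h1]
    exact Finset.sum_congr rfl (fun l _ => Real.sq_sqrt (hw l))
  have e3 : ∑ l, (Real.sqrt (w l) * r l) ^ 2 = ∑ l, w l * r l ^ 2 :=
    Finset.sum_congr rfl (fun l _ => by
      rw [mul_pow, Real.sq_sqrt (hw l)])
  rw [e1, e2, e3, one_mul] at h
  exact h

lemma D_pos {n : ℕ} (w : Fin n → ℝ) (h1 : ∑ l, w l = 1) : 0 < ∑ l, w l ^ 2 := by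
  have h0 : 0 ≤ ∑ l, w l ^ 2 := Finset.sum_nonneg (fun l _ => sq_nonneg _)
  rcases eq_or_lt_of_le h0 with h | h
  · exfalso
    have hz := (Finset.sum_eq_zero_iff_of_nonneg (fun l _ => sq_nonneg (w l))).1 h.symm
    have : ∑ l, w l = 0 := Finset.sum_eq_zero (fun l hl => by
      have := hz l hl
      exact pow_eq_zero_iff (two_ne_zero) |>.1 this)
    rw [this] at h1
    exact zero_ne_one h1
  · exact h

end QFB_

open QFB_ in
theorem qfb_proof (hQNN : Stmt_QNN) (_hPAR : Stmt_PAR) : Stmt_QFB := by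
  intro n A k hA y hy
  obtain ⟨hA0, hrow, hcol⟩ := hA
  set D : Fin n → ℝ := fun j => ∑ l, A l j ^ 2 with hD
  have hD0 : ∀ j, 0 < D j := fun j => D_pos (fun l => A l j) (hcol j)
  set kap : Fin n → ℝ := fun j => 193 / 200 + 7 / 200 * (A k j / D j) with hkap
  have hkap0 : ∀ j, 0 < kap j := fun j => by
    have := div_nonneg (hA0 k j) (hD0 j).le
    simp only [hkap]
    linarith
  set r : Fin n → ℝ := fun l => ∑ j, A l j * y j with hr
  set R : ℝ := ∑ l, r l ^ 2 with hR
  set g : Fin n → ℝ := fun j => ∑ l, A l j * r l with hg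
  have hR0 : 0 ≤ R := Finset.sum_nonneg (fun l _ => sq_nonneg _)
  -- sum of g^2
  have g1 : ∑ j, g j ^ 2 ≤ R := by
    calc ∑ j, g j ^ 2 ≤ ∑ j, ∑ l, A l j * r l ^ 2 :=
          Finset.sum_le_sum (fun j _ => cs_w (fun l => A l j) r (fun l => hA0 l j) (hcol j))
      _ = ∑ l, ∑ j, A l j * r l ^ 2 := Finset.sum_comm
      _ = R := by
          rw [hR]
          refine Finset.sum_congr rfl (fun l _ => ?_)
          rw [← Finset.sum_mul, hrow l, one_mul]
  have g2 : ∀ j, g j ^ 2 ≤ D j * R := fun j =>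
    Finset.sum_mul_sq_le_sq_mul_sq univ (fun l => A l j) r
  have g3 : ∑ j, kap j * g j ^ 2 ≤ R := by
    have e : ∑ j, kap j * g j ^ 2 =
        193 / 200 * ∑ j, g j ^ 2 + 7 / 200 * ∑ j, A k j / D j * g j ^ 2 := by
      rw [Finset.mul_sum, Finset.mul_sum, ← Finset.sum_add_distrib]
      exact Finset.sum_congr rfl (fun j _ => by simp only [hkap]; ring)
    have f : ∑ j, A k j / D j * g j ^ 2 ≤ R := by
      calc ∑ j, A k j / D j * g j ^ 2 ≤ ∑ j, A k j * R := by
            refine Finset.sum_le_sum (fun j _ => ?_)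
            have h1 := mul_le_mul_of_nonneg_left (g2 j) (div_nonneg (hA0 k j) (hD0 j).le)
            refine h1.trans (le_of_eq ?_)
            have := (hD0 j).ne'
            field_simp
        _ = R := by rw [← Finset.sum_mul, hrow k, one_mul]
    rw [e]
    linarith
  have g4 : R = ∑ j, y j * g j := by
    rw [hR]
    simp only [hg, Finset.mul_sum]
    rw [Finset.sum_comm]
    refine Finset.sum_congr rfl (fun l _ => ?_)
    rw [sq]
    nth_rewrite 1 [hr]
    simp only
    rw [Finset.sum_mul]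
    exact Finset.sum_congr rfl (fun j _ => by ring)
  have g5 : ∀ j, y j * g j ≤ 1 / 2 * (kap j * g j ^ 2 + y j ^ 2 / kap j) := by
    intro j
    have hk := hkap0 j
    have h1 : 0 ≤ (kap j * g j - y j) ^ 2 / kap j := div_nonneg (sq_nonneg _) hk.le
    have h2 : (kap j * g j - y j) ^ 2 / kap j =
        kap j * g j ^ 2 + y j ^ 2 / kap j - 2 * (y j * g j) := by
      have := hk.ne'
      field_simp
      ring
    rw [h2] at h1
    linarith
  have g6 : R ≤ ∑ j, y j ^ 2 / kap j := by
    have h1 : R ≤ 1 / 2 * (∑ j, kap j * g j ^ 2 + ∑ j, y j ^ 2 / kap j) := by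
      rw [← Finset.sum_add_distrib, Finset.mul_sum]
      nth_rewrite 1 [g4]
      exact Finset.sum_le_sum (fun j _ => g5 j)
    linarith
  -- the form
  have e1 : ∑ a, ∑ c ∈ univ.erase a, (∑ l, A l a * A l c) * (y a * y c) =
      R - ∑ a, D a * y a ^ 2 := by
    have h1 : ∀ a, ∑ c ∈ univ.erase a, (∑ l, A l a * A l c) * (y a * y c) =
        (∑ c, (∑ l, A l a * A l c) * (y a * y c)) - D a * y a ^ 2 := by
      intro a
      rw [← Finset.add_sum_erase univ (fun c => (∑ l, A l a * A l c) * (y a * y c))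
        (Finset.mem_univ a)]
      have : (∑ l, A l a * A l a) = D a :=
        Finset.sum_congr rfl (fun l _ => by ring)
      simp only [this]
      ring
    rw [Finset.sum_congr rfl (fun a _ => h1 a), Finset.sum_sub_distrib]
    congr 1
    rw [hR]
    have h2 : ∀ a, ∑ c, (∑ l, A l a * A l c) * (y a * y c) =
        ∑ l, (A l a * y a) * ∑ c, A l c * y c := by
      intro a
      simp only [Finset.sum_mul, Finset.mul_sum]
      rw [Finset.sum_comm]
      exact Finset.sum_congr rfl (fun l _ => Finset.sum_congr rfl (fun c _ => by ring))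
    rw [Finset.sum_congr rfl (fun a _ => h2 a), Finset.sum_comm]
    refine Finset.sum_congr rfl (fun l _ => ?_)
    rw [← Finset.sum_mul, sq]
  rw [e1]
  have hfin : ∀ a, y a ^ 2 / kap a - D a * y a ^ 2 ≤ zc (A k a) / vp * y a ^ 2 := by
    intro a
    have hA1 : A k a ≤ 1 := by
      rw [← hrow k]
      exact Finset.single_le_sum (fun j _ => hA0 k j) (Finset.mem_univ a)
    have hq := hQNN (A k a) (D a) (hA0 k a) hA1 (hD0 a).le
    have hDa := hD0 a
    have hk := hkap0 a
    have e2 : 193 / 200 * D a + 7 / 200 * A k a = D a * kap a := by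
      simp only [hkap]
      have := hDa.ne'
      field_simp
    rw [e2] at hq
    have h1 : 1 ≤ (zc (A k a) / vp + D a) * kap a := by
      have : D a * 1 ≤ D a * ((zc (A k a) / vp + D a) * kap a) := by
        calc D a * 1 = D a := mul_one _
          _ ≤ _ := hq
          _ = _ := by ring
      exact le_of_mul_le_mul_left this hDa
    have h2 : 1 / kap a ≤ zc (A k a) / vp + D a := by
      rw [div_le_iff₀ hk]
      exact h1
    have h3 := mul_le_mul_of_nonneg_right h2 (sq_nonneg (y a))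
    have e3 : 1 / kap a * y a ^ 2 = y a ^ 2 / kap a := by ring
    rw [e3] at h3
    linarith
  calc R - ∑ a, D a * y a ^ 2 ≤ ∑ a, (y a ^ 2 / kap a - D a * y a ^ 2) := by
        rw [Finset.sum_sub_distrib]
        linarith
    _ ≤ _ := Finset.sum_le_sum (fun a _ => hfin a)

end

end Pool.Agent.CGS
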