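import Pool.Agent.CGS.Stmts

/-!
# Module QNN (project CGS, MP_3bdb72_co): numerical inequality for QFB
-/

set_option autoImplicit false

open Finset Pool.Agent.CGM
open scoped Classical

namespace Pool.Agent.CGS

noncomputable section

namespace QNN_

/-- lower bound for `z / vp` -/
theorem low (z N : ℝ) (hv : 69145 / 100000 ≤ vp) (hv' : vp ≤ 69147 / 100000) (hN0 : 0 ≤ N)
    (hN : N * (69147 / 100000) ≤ z) : N ≤ z / vp := by
  rw [le_div_iff₀ (by linarith)]
  calc N * vp ≤ N * (69147 / 100000) := mul_le_mul_of_nonneg_left hv' hN0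
    _ ≤ z := hN

/-- monotonicity -/
theorem mono (n d a N a0 : ℝ) (hd : 0 ≤ d) (ha0 : 0 ≤ a0) (ha : a0 ≤ a) (hN : 0 ≤ N)
    (hn : N ≤ n) (h : d ≤ (N + d) * (193 / 200 * d + 7 / 200 * a0)) :
    d ≤ (n + d) * (193 / 200 * d + 7 / 200 * a) := by
  refine h.trans ?_
  apply mul_le_mul (by linarith) (by linarith) (by positivity) (by linarith)

end QNN_

open QNN_ in
theorem qnn_proof (hPAR : Stmt_PAR) : Stmt_QNN := by
  obtain ⟨-, -, hv, hv'⟩ := hPAR
  intro a d ha ha1 hd
  unfold zc st
  split_ifs with h1 h2 h3 h4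
  · refine mono _ d a (1036 / 1000 + 3 / 10000) 0 hd le_rfl ha (by norm_num)
      (low _ _ hv hv' (by norm_num) (by norm_num)) ?_
    nlinarith [sq_nonneg d]
  · refine mono _ d a (982255 / 1000000) (1 / 50) hd (by norm_num) (by linarith) (by norm_num)
      (low _ _ hv hv' (by norm_num) (by norm_num)) ?_
    nlinarith [sq_nonneg (d - 266445 / 10000000)]
  · refine mono _ d a (929613 / 1000000) (2 / 25) hd (by norm_num) (by linarith) (by norm_num)
      (low _ _ hv hv' (by norm_num) (by norm_num)) ?_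
    nlinarith [sq_nonneg (d - 518774 / 10000000)]
  · refine mono _ d a (887095 / 1000000) (4 / 25) hd (by norm_num) (by linarith) (by norm_num)
      (low _ _ hv hv' (by norm_num) (by norm_num)) ?_
    nlinarith [sq_nonneg (d - 716857 / 10000000)]
  · refine mono _ d a (819702 / 1000000) (7 / 20) hd (by norm_num) (by linarith) (by norm_num)
      (low _ _ hv hv' (by norm_num) (by norm_num)) ?_
    nlinarith [sq_nonneg (d - 1019366 / 10000000)]

end

end Pool.Agent.CGS
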