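import Pool.Agent.CGS.Stmts

/-!
# Project CGS, module TGT: tangency of a quadratic polynomial and the exponential function
-/

set_option autoImplicit false

namespace Pool.Agent.CGS

namespace TGT_

theorem exp_neg_le {x : ℝ} (h0 : 0 ≤ x) (h1 : x ≤ 1) :
    Real.exp (-x) ≤ 1 - x + x ^ 2 / 2 - x ^ 3 / 6 + x ^ 4 / 24 := by
  have h := Real.exp_bound (x := -x) (by rw [abs_neg, abs_of_nonneg h0]; exact h1)
    (n := 6) (by norm_num)
  rw [abs_neg, abs_of_nonneg h0] at h
  have h2 := (abs_le.1 h).2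
  simp only [Finset.sum_range_succ, Finset.sum_range_zero, Nat.factorial] at h2
  norm_num at h2
  have h3 : x ^ 6 ≤ x ^ 5 := by
    calc x ^ 6 = x ^ 5 * x := by ring
      _ ≤ x ^ 5 * 1 := by gcongr
      _ = x ^ 5 := by ring
  have h4 : 0 ≤ x ^ 5 := by positivity
  nlinarith [h2, h3, h4]

theorem exp_le {x : ℝ} (h0 : 0 ≤ x) (h1 : x ≤ 1) :
    Real.exp x ≤ 1 + x + x ^ 2 / 2 + x ^ 3 / 6 + x ^ 4 / 24 + x ^ 5 / 100 := by
  have h := Real.exp_bound (x := x) (by rw [abs_of_nonneg h0]; exact h1)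
    (n := 5) (by norm_num)
  rw [abs_of_nonneg h0] at h
  have h2 := (abs_le.1 h).2
  simp only [Finset.sum_range_succ, Finset.sum_range_zero, Nat.factorial] at h2
  norm_num at h2
  nlinarith [h2]

end TGT_

theorem tgt_proof (hPAR : Stmt_PAR) : Stmt_TGT := by
  obtain ⟨hl1, hl2, hv1, hv2⟩ := hPAR
  intro s hs0 hs1
  have hlpos := lm_pos
  have hvp : vp / 2 * lm ^ 2 = 1 - lm - lm ^ 2 := by
    unfold vp
    field_simp
  have hc : up + vp = lm * (1 + vp) := by unfold up; ring
  rw [hc]
  by_cases hs : s ≤ 3 / 10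
  · have he := TGT_.exp_neg_le hs0 hs1
    have hcle : lm * (1 + vp) ≤ 959308 / 1000000 := by nlinarith
    have hkey : 0 ≤ (1 - lm * (1 + vp)) - (1 - vp) * s / 2 + s ^ 2 / 6 - s ^ 3 / 24 -
        985 / 10000 * (s - lm) ^ 2 := by
      have h1 : (s - lm) ^ 2 ≤ (567144 / 1000000 - s) ^ 2 := by
        have ha : 0 ≤ lm - s := by linarith
        have hb : lm - s ≤ 567144 / 1000000 - s := by linarith
        nlinarith
      have h2 : (1 - vp) * s ≤ 30855 / 100000 * s := by
        apply mul_le_mul_of_nonneg_right _ hs0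
        linarith
      have h3 : s ^ 3 ≤ 3 / 10 * s ^ 2 := by
        have : 0 ≤ s ^ 2 := by positivity
        nlinarith
      nlinarith [sq_nonneg (s - 3 / 10)]
    nlinarith [mul_nonneg hs0 hkey]
  · push Not at hs
    have hexp : Real.exp (-s) = lm * Real.exp (-(s - lm)) := by
      have : Real.exp (-s) = Real.exp (-lm) * Real.exp (-(s - lm)) := by
        rw [← Real.exp_add]; congr 1; ring
      rw [this, ← lm_eq]
    have hR : 1 - lm * (1 + vp) * s + vp / 2 * s ^ 2 =
        lm - lm * (s - lm) + vp / 2 * (s - lm) ^ 2 := by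
      linear_combination -hvp
    rw [hexp, hR]
    rcases le_total 0 (s - lm) with hd | hd
    · obtain ⟨d, hd'⟩ : ∃ d, d = s - lm := ⟨_, rfl⟩
      have hsd : s = lm + d := by rw [hd']; ring
      rw [← hd'] at hd ⊢
      have hd1 : d ≤ 432857 / 1000000 := by linarith
      have he := TGT_.exp_neg_le hd (by linarith)
      have he' := mul_le_mul_of_nonneg_left he hlpos.le
      have hkey : 0 ≤ (vp - lm) / 2 + lm * (d / 6 - d ^ 2 / 24) - 985 / 10000 * (lm + d) := by
        have h1 : 0 ≤ d / 6 - d ^ 2 / 24 := by nlinarith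
        have h2 := mul_le_mul_of_nonneg_right hl1 h1
        nlinarith
      rw [hsd]
      nlinarith [mul_nonneg (sq_nonneg d) hkey]
    · obtain ⟨e, he'⟩ : ∃ e, e = lm - s := ⟨_, rfl⟩
      have hse : s = lm - e := by rw [he']; ring
      have hd' : s - lm = -e := by rw [he']; ring
      rw [hd'] at hd ⊢
      have he0 : 0 ≤ e := by linarith
      have he1 : e ≤ 267144 / 1000000 := by linarith
      rw [neg_neg]
      have he := TGT_.exp_le he0 (by linarith)
      have hm := mul_le_mul_of_nonneg_left he hlpos.le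
      have hkey : 0 ≤ (vp - lm) / 2 - lm * (e / 6 + e ^ 2 / 24 + e ^ 3 / 100) -
          985 / 10000 * (lm - e) := by
        have h1 : 0 ≤ e / 6 + e ^ 2 / 24 + e ^ 3 / 100 := by positivity
        have h2 := mul_le_mul_of_nonneg_right hl2 h1
        have h3 : e ^ 2 ≤ 267144 / 1000000 * e := by nlinarith
        have h4 : e ^ 3 ≤ 267144 / 1000000 * e ^ 2 := by nlinarith [sq_nonneg e]
        nlinarith
      rw [hse]
      nlinarith [mul_nonneg (sq_nonneg e) hkey]

end Pool.Agent.CGS
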