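import Pool.Agent.CGS.Stmts

set_option autoImplicit false

open Finset Pool.Agent.CGM
open scoped Classical

namespace Pool.Agent.CGS

theorem upx_proof (hA : Stmt_ASG) (hK : Stmt_KIL) (hE : Stmt_EKI) : Stmt_UPX := by
  intro Λ J _ _ _ _ y S0 T π tch x B hπ hx hy
  have h1 : ∀ L, L ⊆ T → (opt y (S0 ∪ L) univ : ℝ) ≤ (opt y S0 univ : ℝ) + ∑ θ ∈ range B,
      ((((univ.filter (fun j => θ < x j)).filter
          (fun j => ∃ e ∈ L, Kil tch (univ.filter (fun j => θ < x j)) j e)).card : ℝ)
        + ((L.filter (fun e => Inn tch (univ.filter (fun j => θ < x j)) e)).card : ℝ)) := by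
    intro L hL
    have h2 := hA Λ J y S0 L
    have h3 := hK Λ J (fun e j => y e j - pr y S0 j) L tch x B hx (fun e he j => hy e (hL he) j)
    have h4 := h2.trans (Nat.add_le_add_left h3 _)
    have h5 : (opt y (S0 ∪ L) univ : ℝ) ≤ ((opt y S0 univ + ∑ θ ∈ range B,
      (((univ.filter (fun j => θ < x j)).filter
          (fun j => ∃ e ∈ L, Kil tch (univ.filter (fun j => θ < x j)) j e)).card
        + (L.filter (fun e => Inn tch (univ.filter (fun j => θ < x j)) e)).card) : ℕ) : ℝ) := by
      exact_mod_cast h4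
    push_cast at h5
    exact h5
  refine (EB_mono hπ h1).trans (le_of_eq ?_)
  rw [EB_add, EB_const, EB_sum]
  congr 1
  refine Finset.sum_congr rfl (fun θ _ => ?_)
  exact hE Λ J T π tch (univ.filter (fun j => θ < x j))

end Pool.Agent.CGS
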