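import Pool.Agent.CGS.FINE
import Pool.Agent.CGM.Main
import Pool.Agent.CGS.OPG
import Pool.Agent.CGS.ASG
import Pool.Agent.CGS.KIL
import Pool.Agent.CGS.EKI
import Pool.Agent.CGS.UPX
import Pool.Agent.CGS.LTX
import Pool.Agent.CGS.QNN
import Pool.Agent.CGS.QFB
import Pool.Agent.CGS.ALX
import Pool.Agent.CGS.PAR
import Pool.Agent.CGS.TGT
import Pool.Agent.CGS.EQR
import Pool.Agent.CGS.EQN
import Pool.Agent.CGS.CPX
import Pool.Agent.CGS.AVK
import Pool.Agent.CGS.NTX
import Pool.Agent.CGS.EVX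

set_option autoImplicit false

open Finset Pool.Agent.CGM
open scoped Classical

namespace Pool.Agent.CGS

theorem gamma_nonneg (hP : Stmt_PAR) : 0 ≤ 2 * (1 - lm) - lm ^ 2 := by
  obtain ⟨p1, p2, _, _⟩ := hP
  nlinarith

/-- the expected maximum weight of a matching is at least `γ` times the expected total weight -/
theorem main : ∀ (n : ℕ) (A W : Fin n → Fin n → ℝ), DS A → (∀ i j, 0 ≤ W i j) →
    (2 * (1 - lm) - lm ^ 2) * ∑ i, ∑ j, A i j * W i j ≤ Phi A W := by
  have hP := par_proof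
  have hOPI := opi_proof
  have hOPM := opm_proof
  have hUPP := upp_proof hOPI hOPM
  have hLOW := low_proof hOPI
  have hCOV := cov_proof hOPM opl_proof
  have hSIN := sin_proof ops_proof
  have hUPX := upx_proof (asg_proof opg_proof) kil_proof eki_proof
  have hTGT := tgt_proof hP
  have hEQN := eqn_proof hTGT (eqr_proof hP)
  have hCPX := cpx_proof hEQN
  have hAVK := avk_proof hP
  have hQFB := qfb_proof (qnn_proof hP) hP
  have hEVX := evx_proof (ntx_proof hP)
  refine itg_proof (2 * (1 - lm) - lm ^ 2) (gamma_nonneg hP) (fun n A w hA => ?_)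
  exact FIN_.limit_M _ _ _ (fun M hM => FIN_.fin_M hP hOPI hUPP hLOW hyb_proof opk_proof hCOV
    con_proof hSIN hUPX hCPX hAVK ltx_proof hQFB alx_proof hEVX n M hM A w hA)

end Pool.Agent.CGS
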