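import Pool.Agent.CGS.Defs

/-!
# Statements of the modules of the project CGS (MP_3bdb72_co)

Recipes: /team-store/MP_3bdb72_CGS.md
-/

set_option autoImplicit false
set_option linter.unusedSectionVars false

open Finset Pool.Agent.CGM
open scoped Classical

namespace Pool.Agent.CGS

noncomputable section

/-! ## Part A: matchings -/

/-- OPG: removing several right vertices costs at least the sum of their prices -/
def Stmt_OPG : Prop :=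
  ∀ (Λ J : Type) [Fintype Λ] [DecidableEq Λ] [Fintype J] [DecidableEq J] (y : Λ → J → ℕ)
    (S : Finset Λ) (U : Finset J), opt y S (univ \ U) + ∑ j ∈ U, pr y S j ≤ opt y S univ

/-- ASG: the assignment bound -/
def Stmt_ASG : Prop :=
  ∀ (Λ J : Type) [Fintype Λ] [DecidableEq Λ] [Fintype J] [DecidableEq J] (y : Λ → J → ℕ)
    (S0 L : Finset Λ),
    opt y (S0 ∪ L) univ ≤ opt y S0 univ + opt (fun e j => y e j - pr y S0 j) L univ

/-- KIL: killed vertices and inner items -/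
def Stmt_KIL : Prop :=
  ∀ (Λ J : Type) [Fintype Λ] [DecidableEq Λ] [Fintype J] [DecidableEq J] (y : Λ → J → ℕ)
    (L : Finset Λ) (tch : Λ → Finset J) (x : J → ℕ) (B : ℕ), (∀ j, x j ≤ B) →
    (∀ e ∈ L, ∀ j, y e j ≤ if j ∈ tch e then x j else 0) →
    opt y L univ ≤ ∑ θ ∈ range B,
      (((univ.filter (fun j => θ < x j)).filter
          (fun j => ∃ e ∈ L, Kil tch (univ.filter (fun j => θ < x j)) j e)).card
        + (L.filter (fun e => Inn tch (univ.filter (fun j => θ < x j)) e)).card)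

/-- EKI: expectations of the numbers of killed vertices and inner items -/
def Stmt_EKI : Prop :=
  ∀ (Λ J : Type) [Fintype Λ] [DecidableEq Λ] [Fintype J] [DecidableEq J]
    (T : Finset Λ) (π : Λ → ℝ) (tch : Λ → Finset J) (D : Finset J),
    EB T π (fun L => ((D.filter (fun j => ∃ e ∈ L, Kil tch D j e)).card : ℝ)
        + ((L.filter (fun e => Inn tch D e)).card : ℝ)) =
      ∑ j ∈ D, (1 - ∏ e ∈ T.filter (fun e => Kil tch D j e), (1 - π e))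
        + ∑ e ∈ T.filter (fun e => Inn tch D e), π e

/-- UPX: upper bound for adding independent items -/
def Stmt_UPX : Prop :=
  ∀ (Λ J : Type) [Fintype Λ] [DecidableEq Λ] [Fintype J] [DecidableEq J] (y : Λ → J → ℕ)
    (S0 T : Finset Λ) (π : Λ → ℝ) (tch : Λ → Finset J) (x : J → ℕ) (B : ℕ), Pro T π →
    (∀ j, x j ≤ B) → (∀ e ∈ T, ∀ j, y e j - pr y S0 j ≤ if j ∈ tch e then x j else 0) →
    EB T π (fun L => (opt y (S0 ∪ L) univ : ℝ)) ≤ (opt y S0 univ : ℝ) + ∑ θ ∈ range B,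
      (∑ j ∈ univ.filter (fun j => θ < x j),
          (1 - ∏ e ∈ T.filter (fun e => Kil tch (univ.filter (fun j => θ < x j)) j e), (1 - π e))
        + ∑ e ∈ T.filter (fun e => Inn tch (univ.filter (fun j => θ < x j)) e), π e)

/-! ## Part B: connectivity -/

/-- LTX: weighted bound for the quadratic form of the connection probabilities -/
def Stmt_LTX : Prop :=
  ∀ (J : Type) [Fintype J] [DecidableEq J] (Q P G : J → J → ℝ) (z : ℝ) (nn : J → ℝ), 0 ≤ z →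
    (∀ a, 0 ≤ nn a) → (∀ a, z * nn a < 1) →
    (∀ a c, a ≠ c → 0 ≤ Q a c ∧ Q a c ≤ z * G a c) →
    (∀ a b, 0 ≤ P a b) → (∀ a, P a a = 1) →
    (∀ a b, a ≠ b → P a b ≤ ∑ c ∈ univ.erase a, Q a c * P c b) →
    (∀ y : J → ℝ, (∀ a, 0 ≤ y a) →
      ∑ a, ∑ c ∈ univ.erase a, G a c * (y a * y c) ≤ ∑ a, nn a * y a ^ 2) →
    ∀ α : J → ℝ, (∀ a, 0 ≤ α a) →
      ∑ a, ∑ b ∈ univ.erase a, α a * α b * P a b ≤
        ∑ a, z * nn a / (1 - z * nn a) * α a ^ 2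

/-- QFB: the quadratic form of a doubly stochastic matrix -/
def Stmt_QFB : Prop :=
  ∀ (n : ℕ) (A : Fin n → Fin n → ℝ) (k : Fin n), DS A → ∀ y : Fin n → ℝ, (∀ a, 0 ≤ y a) →
    ∑ a, ∑ c ∈ univ.erase a, (∑ l, A l a * A l c) * (y a * y c) ≤
      ∑ a, zc (A k a) / vp * y a ^ 2

/-- QNN: numerical inequality for QFB -/
def Stmt_QNN : Prop :=
  ∀ a d : ℝ, 0 ≤ a → a ≤ 1 → 0 ≤ d → d ≤ (zc a / vp + d) * (193 / 200 * d + 7 / 200 * a)

/-- ALX: comparison of the pairs and of their mean field version (finite probability space) -/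
def Stmt_ALX : Prop :=
  ∀ (Ω J : Type) [Fintype J] [DecidableEq J] (s : Finset Ω) (μ : Ω → ℝ) (x : Ω → J → ℕ)
    (w : J → ℕ) (a : J → ℝ) (P : J → J → ℝ) (B : ℕ) (v l : ℝ) (uu f : J → ℝ),
    (∀ ω ∈ s, 0 ≤ μ ω) → ∑ ω ∈ s, μ ω = 1 → (∀ ω ∈ s, ∀ j, x ω j ≤ w j) → (∀ j, w j ≤ B) →
    (∀ j, 0 ≤ a j) → ∑ j, a j = 1 → 0 ≤ v → (∀ i j, 0 ≤ P i j) → (∀ i j, P i j = P j i) →
    (∀ i j, i ≠ j →
      ∑ ω ∈ s, μ ω * (∑ ω' ∈ s, μ ω' * ((max (x ω i) (x ω' j) : ℕ) : ℝ))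
        - ∑ ω ∈ s, μ ω * ((max (x ω i) (x ω j) : ℕ) : ℝ) ≤ P i j * ∑ ω ∈ s, μ ω * (x ω j : ℝ)) →
    (∀ α : J → ℝ, (∀ j, 0 ≤ α j) →
      ∑ i, ∑ j ∈ univ.erase i, α i * α j * P i j ≤ ∑ j, f j * α j ^ 2) →
    v / 2 * ∑ θ ∈ range B, (∑ j, a j * ∑ ω ∈ s, μ ω * (if θ < x ω j then 1 else 0)) ^ 2
      - v / 2 * l ^ 2 * ∑ j, a j ^ 2 * (w j : ℝ) ≤
    (∑ j, (uu j * a j + (v * (1 - l) + v / 2 * f j) * a j ^ 2) * (∑ ω ∈ s, μ ω * (x ω j : ℝ))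
      + v / 2 * ∑ i, ∑ j ∈ univ.erase i,
          a i * a j * ∑ ω ∈ s, μ ω * ((max (x ω i) (x ω j) : ℕ) : ℝ))
    - (∑ j, uu j * a j * (∑ ω ∈ s, μ ω * (x ω j : ℝ))
      + ∑ i, ∑ j, v * (a i * a j) * ∑ c : Fin (B + 1),
          (∑ ω ∈ s, μ ω * (if x ω i = (c : ℕ) then 1 else 0))
            * ∑ ω ∈ s, μ ω * ((x ω j - (c : ℕ) : ℕ) : ℝ))

/-! ## Part C: numerical inequalities -/

/-- PAR: bounds for the parameters -/
def Stmt_PAR : Prop :=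
  567143 / 1000000 ≤ lm ∧ lm ≤ 567144 / 1000000 ∧ 69145 / 100000 ≤ vp ∧ vp ≤ 69147 / 100000

/-- TGT: the tangency of the quadratic polynomial and of the exponential function -/
def Stmt_TGT : Prop :=
  ∀ s : ℝ, 0 ≤ s → s ≤ 1 →
    Real.exp (-s) + 985 / 10000 * s * (s - lm) ^ 2 ≤ 1 - (up + vp) * s + vp / 2 * s ^ 2

/-- EQR: the two variable inequality (reduced form) -/
def Stmt_EQR : Prop :=
  ∀ a s : ℝ, 0 ≤ a → a ≤ s → s ≤ 1 →
    0 ≤ 985 / 10000 * (s - lm) ^ 2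
      + a * (Real.exp (-s) * ((1 / 2 + a / 3) * (1 - s * a * (1 / 2 + a / 3) / 2))
        + (up + vp * (1 - s) + Kh a * a) ^ 2 / 2
        - a * (up + vp * (1 - s) + Kh a * a) ^ 3 / 6 - (Kh a - vp / 2))

/-- EQN: the two variable inequality -/
def Stmt_EQN : Prop :=
  ∀ a s : ℝ, 0 ≤ a → a ≤ s → s ≤ 1 →
    s * (1 - Real.exp (-(a * (up + vp * (1 - s) + Kh a * a)))) + vp / 2 * a * s * (s - a) ≤
      a * (1 - Real.exp (-s) * (1 - s * (a / 2 + a ^ 2 / 3) + (s * (a / 2 + a ^ 2 / 3)) ^ 2 / 2))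

/-- CPX: the capacity inequality -/
def Stmt_CPX : Prop :=
  ∀ (J : Type) (D : Finset J) (a : J → ℝ), (∀ j ∈ D, 0 ≤ a j) → ∑ j ∈ D, a j ≤ 1 →
    ∑ j ∈ D, (1 - Real.exp (-(a j * (up + vp * (1 - ∑ i ∈ D, a i) + Kh (a j) * a j))))
      + vp / 2 * ((∑ j ∈ D, a j) ^ 2 - ∑ j ∈ D, a j ^ 2) ≤ 1 - ∏ j ∈ D, (1 - a j)

/-- AVK: the average of the rates -/
def Stmt_AVK : Prop :=
  ∀ (M : ℕ) (a : ℝ), 100000 ≤ M → 0 ≤ a → a ≤ 1 →
    ∑ t ∈ range M, (rh a + vp * (1 - lm) + vp / 2 * fz a (((M : ℝ) - t) / M)) ≤ (M : ℝ) * Kh a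

/-- NTX: the final inequality -/
def Stmt_NTX : Prop :=
  ∀ a b : ℝ, 0 ≤ a → a ≤ 1 → 0 ≤ b → b ≤ 1 →
    2 * (1 - lm) - lm ^ 2 ≤
      1 - Real.exp (-(up + rh a * a + vp * (1 - b))) + vp / 2 * b ^ 2 - vp / 2 * lm ^ 2 * a

/-! ## Part D: evaluation -/

/-- EVX: evaluation of the final lower bound -/
def Stmt_EVX : Prop :=
  ∀ (n M B : ℕ) (A : Fin n → Fin n → ℝ) (w : Fin n → Fin n → ℕ) (β : Fin n → Fin M → ℕ → ℝ),
    DS A → 0 < M → (∀ k j, w k j ≤ B) → (∀ k t θ, 0 ≤ β k t θ ∧ β k t θ ≤ 1) →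
    (2 * (1 - lm) - lm ^ 2 - 10 / M) * ∑ k, ∑ j, A k j * (w k j : ℝ) ≤
      ∑ j, ∑ θ ∈ range B, (1 - Real.exp (-∑ k, ∑ t, A k j / M *
          (if θ < w k j then up + rh (A k j) * A k j + vp * (1 - β k t (w k j - 1 - θ)) else 0)))
      + ∑ k, ∑ t : Fin M, 1 / (M : ℝ) * (vp / 2 * ∑ θ ∈ range B, (β k t θ) ^ 2
          - vp / 2 * lm ^ 2 * ∑ j, A k j ^ 2 * (w k j : ℝ)
          - 10 / M * ∑ j, A k j * (w k j : ℝ))

end

end Pool.Agent.CGS
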